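import Mathlib

/-!
# One reduction: definitions

`Rep F V Γ`: the `ℓ`-adic data of an abelian variety over a number field; the cohomology ring of
the powers, Tate classes, relations between the eigenvalues of one Frobenius element.
-/

namespace Pool.Agent.OneRed

open Module

/-- A representation `V` of a group `Γ` with a nondegenerate alternating form which is invariant
up to the character `χ`. Example: `A` an abelian variety over a number field `k`, `V = V_ℓ(A) ⊗ F`
the rational Tate module with coefficients extended to a field `F` which contains `ℚ_ℓ`, `Γ` the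
absolute Galois group of `k`, `χ` the cyclotomic character, `ψ` the Weil pairing of a
polarisation. -/
structure Rep (F V Γ : Type*) [Field F] [AddCommGroup V] [Module F V] [Group Γ] where
  /-- the Galois action on the Tate module -/
  ρ : Γ →* (V ≃ₗ[F] V)
  /-- the cyclotomic character -/
  χ : Γ →* Fˣ
  /-- the Weil pairing of a polarisation -/
  ψ : V →ₗ[F] V →ₗ[F] F
  alt : ∀ x, ψ x x = 0
  nondeg : ∀ x, (∀ y, ψ x y = 0) → x = 0
  equivariant : ∀ γ x y, ψ (ρ γ x) (ρ γ y) = (χ γ : F) * ψ x y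

variable {F V Γ S : Type*} [Field F] [AddCommGroup V] [Module F V] [Group Γ]

/-- The cohomology ring `H^*(A^r) = Λ^* H^1(A^r)`, `H^1(A^r)` the dual of `V^r`. -/
abbrev Coh (F V : Type*) [Field F] [AddCommGroup V] [Module F V] (r : ℕ) : Type _ :=
  ExteriorAlgebra F (Dual F (Fin r → V))

/-- The action of `Γ` on `H^1(A^r)`: `(γ ξ)(v) = ξ (γ⁻¹ v)`. -/
def Rep.dualAct (D : Rep F V Γ) (r : ℕ) (γ : Γ) :
    Dual F (Fin r → V) →ₗ[F] Dual F (Fin r → V) :=
  Module.Dual.transpose ((D.ρ γ⁻¹).toLinearMap.compLeft (Fin r))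

/-- The action of `Γ` on `H^*(A^r)`. -/
def Rep.act (D : Rep F V Γ) (r : ℕ) (γ : Γ) : Coh F V r →ₐ[F] Coh F V r :=
  ExteriorAlgebra.map (D.dualAct r γ)

/-- Tate classes of codimension `j` on `A^r`: elements of `H^{2j}(A^r)(j)` which are fixed by a
subgroup of finite index. -/
def Rep.IsTate (D : Rep F V Γ) (r j : ℕ) (x : Coh F V r) : Prop :=
  x ∈ (⋀[F]^(2 * j) (Dual F (Fin r → V))) ∧
    ∃ Γ' : Subgroup Γ, Γ'.FiniteIndex ∧ ∀ γ ∈ Γ', (D.χ γ : F) ^ j • D.act r γ x = x

/-- `x` is a linear combination of products of Tate classes of codimension one. -/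
def Rep.IsDivisorial (D : Rep F V Γ) (r : ℕ) (x : Coh F V r) : Prop :=
  x ∈ Algebra.adjoin F {y | D.IsTate r 1 y}

/-- The word `w` of length `2 j` is a multiplicative relation: the product of the eigenvalues
`α (w k)` is `q ^ j` times a root of unity. -/
def Rel (α : S → F) (q : F) (j : ℕ) (w : Fin (2 * j) → S) : Prop :=
  ∃ N, 0 < N ∧ (∏ k, α (w k)) ^ N = q ^ (j * N)

/-- The eigenvalues `α` of a Frobenius element with `N v = q` satisfy no multiplicative relation
of length at most `2 i`, except the ones that follow from `α s * α s' = q`: in a relation, `s` and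
`s'` occur equally often. -/
def NoRelation [DecidableEq S] (α : S → F) (q : F) (i : ℕ) : Prop :=
  ∀ j ≤ i, ∀ w : Fin (2 * j) → S, Rel α q j w → ∀ s s', α s * α s' = q →
    (Finset.univ.filter (fun k => w k = s)).card = (Finset.univ.filter (fun k => w k = s')).card

/-- `W` is stable under a subgroup of finite index. -/
def Rep.Stable (D : Rep F V Γ) (W : Submodule F V) : Prop :=
  ∃ Γ' : Subgroup Γ, Γ'.FiniteIndex ∧ ∀ γ ∈ Γ', ∀ x ∈ W, D.ρ γ x ∈ W

/-- `W` is totally isotropic. -/
def Rep.Isotropic (D : Rep F V Γ) (W : Submodule F V) : Prop :=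
  ∀ x ∈ W, ∀ y ∈ W, D.ψ x y = 0

/-- There is no relation of Weil type of length at most `2 i`: for no nonempty set `T` of
eigenvectors `b s` which spans an isotropic subspace stable under a subgroup of finite index there
is a relation of length at most `2 i` in which the number of the `s` minus the number of the
partners `s'` is the same nonzero integer `m` for all `s ∈ T`. -/
def Rep.NoWeilRelation [DecidableEq S] (D : Rep F V Γ) (b : Basis S F V) (α : S → F) (q : F)
    (i : ℕ) : Prop :=
  ∀ T : Finset S, T.Nonempty → D.Isotropic (Submodule.span F (b '' T)) →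
    D.Stable (Submodule.span F (b '' T)) → ∀ j ≤ i, ∀ w : Fin (2 * j) → S, Rel α q j w →
      ∀ m : ℤ, (∀ s ∈ T, ∀ s', α s * α s' = q →
        ((Finset.univ.filter (fun k => w k = s)).card : ℤ) -
          (Finset.univ.filter (fun k => w k = s')).card = m) → m = 0

/-! ### Forms on the Tate module (used in the proofs) -/

/-- bilinear Tate forms on `V` -/
def Rep.TateBil (D : Rep F V Γ) (ω : V →ₗ[F] V →ₗ[F] F) : Prop :=
  ∃ Γ' : Subgroup Γ, Γ'.FiniteIndex ∧ ∀ γ ∈ Γ', ∀ x y,
    ω (D.ρ γ x) (D.ρ γ y) = (D.χ γ : F) * ω x y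

/-- multilinear Tate forms on `V` of degree `2 j` -/
def Rep.TateForm (D : Rep F V Γ) (j : ℕ) (f : MultilinearMap F (fun _ : Fin (2 * j) => V) F) :
    Prop :=
  ∃ Γ' : Subgroup Γ, Γ'.FiniteIndex ∧ ∀ γ ∈ Γ', ∀ v, f (fun k => D.ρ γ (v k)) =
    (D.χ γ : F) ^ j * f v

/-- products of bilinear Tate forms over the pairs of a perfect matching -/
def Rep.ProdForm (D : Rep F V Γ) (j : ℕ) (g : MultilinearMap F (fun _ : Fin (2 * j) => V) F) :
    Prop :=
  ∃ (σ : Fin j × Fin 2 ≃ Fin (2 * j)) (ω : Fin j → V →ₗ[F] V →ₗ[F] F),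
    (∀ i, D.TateBil (ω i)) ∧ ∀ v, g v = ∏ i, ω i (v (σ (i, 0))) (v (σ (i, 1)))

end Pool.Agent.OneRed
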