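import Mathlib
import Pool.Agent.OneRed.Defs

set_option autoImplicit false

/-!
# One reduction: Tate classes and products of divisor classes (the definitions of the statements)
-/

namespace Pool.Agent.OneRed

open Module

section
variable (F V : Type*) [Field F] [AddCommGroup V] [Module F V] (r : ℕ)

/-- `H^1(A^r)`: the dual of `V^r`, where `V` is the Tate module of `A`. -/
def H1 : Type _ := Dual F (Fin r → V)

noncomputable instance instGroupH1 : AddCommGroup (H1 F V r) :=
  (inferInstance : AddCommGroup (Dual F (Fin r → V)))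

noncomputable instance instModuleH1 : Module F (H1 F V r) :=
  (inferInstance : Module F (Dual F (Fin r → V)))

/-- `H^*(A^r)`: the exterior algebra of `H^1(A^r)`. -/
abbrev HH : Type _ := ExteriorAlgebra F (H1 F V r)

/-- `H^n(A^r)`, the part of degree `n` of the exterior algebra. -/
noncomputable def HDeg (n : ℕ) : Submodule F (HH F V r) := ⋀[F]^n (H1 F V r)

end

variable {F V Γ : Type*} [Field F] [AddCommGroup V] [Module F V] [Group Γ]

/-- The action of `Γ` on `H^1(A^r)`: `(γ ξ)(v) = ξ (γ⁻¹ v)`. -/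
noncomputable def Rep.onH1 (D : Rep F V Γ) (r : ℕ) (γ : Γ) : H1 F V r →ₗ[F] H1 F V r :=
  D.dualAct r γ

/-- The action of `Γ` on `H^*(A^r)`. -/
noncomputable def Rep.onH (D : Rep F V Γ) (r : ℕ) (γ : Γ) : HH F V r →ₐ[F] HH F V r :=
  ExteriorAlgebra.map (D.onH1 r γ)

/-- Tate classes of codimension `j` on `A^r`: elements of `H^{2j}(A^r)(j)` which are fixed by a
subgroup of finite index (`γ` acts on the `j`-th Tate twist as `χ(γ)^j` times its action). -/
def Rep.TateClass (D : Rep F V Γ) (r j : ℕ) (x : HH F V r) : Prop :=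
  x ∈ HDeg F V r (2 * j) ∧
    ∃ Γ' : Subgroup Γ, Γ'.FiniteIndex ∧ ∀ γ ∈ Γ', (D.χ γ : F) ^ j • D.onH r γ x = x

/-- `x` is a linear combination of products of Tate classes of codimension one. -/
def Rep.ByDivisors (D : Rep F V Γ) (r : ℕ) (x : HH F V r) : Prop :=
  x ∈ Algebra.adjoin F {y | D.TateClass r 1 y}

theorem tateClass_iff (D : Rep F V Γ) (r j : ℕ) (x : HH F V r) :
    D.TateClass r j x ↔ D.IsTate r j x := Iff.rfl

theorem byDivisors_iff (D : Rep F V Γ) (r : ℕ) (x : HH F V r) :
    D.ByDivisors r x ↔ D.IsDivisorial r x := Iff.rfl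

end Pool.Agent.OneRed
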