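import Mathlib
import Pool.Agent.OneRed.Defs

set_option autoImplicit false
set_option linter.unusedSectionVars false
set_option linter.unusedVariables false

/-!
# From multilinear Tate forms to Tate classes
-/

namespace Pool.Agent.OneRed

open Module

namespace Bridge_

section general

variable {F M : Type*} [Field F] [AddCommGroup M] [Module F M]

/-- the multilinear form of an element of the exterior power of the dual space -/
noncomputable def form (n : ℕ) :
    ⋀[F]^n (Dual F M) →ₗ[F] MultilinearMap F (fun _ : Fin n => M) F where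
  toFun x := ((exteriorPower.pairingDual F M n x).compAlternatingMap
    (exteriorPower.ιMulti F n)).toMultilinearMap
  map_add' x y := by
    ext m
    simp
  map_smul' c x := by
    ext m
    simp

theorem form_apply (n : ℕ) (x : ⋀[F]^n (Dual F M)) (m : Fin n → M) :
    form n x m = exteriorPower.pairingDual F M n x (exteriorPower.ιMulti F n m) := rfl

theorem form_ιMulti (n : ℕ) (ξ : Fin n → Dual F M) (m : Fin n → M) :
    form n (exteriorPower.ιMulti F n ξ) m =
      ∑ σ : Equiv.Perm (Fin n), (Equiv.Perm.sign σ) • ∏ i, ξ i (m (σ i)) := by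
  rw [form_apply, exteriorPower.pairingDual_ιMulti_ιMulti, Matrix.det_apply]
  rfl

variable {I : Type*} [Fintype I] (b : Basis I F M)

/-- the element of the exterior algebra given by a multilinear form -/
noncomputable def rmap (n : ℕ) :
    MultilinearMap F (fun _ : Fin n => M) F →ₗ[F] ExteriorAlgebra F (Dual F M) where
  toFun g := ∑ w : Fin n → I, g (fun k => b (w k)) •
    ExteriorAlgebra.ιMulti F n (fun k => b.coord (w k))
  map_add' g h := by
    simp only [add_apply, add_smul, Finset.sum_add_distrib]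
  map_smul' c g := by
    simp only [smul_apply, smul_eq_mul, mul_smul, Finset.smul_sum,
      RingHom.id_apply]

theorem rmap_apply (n : ℕ) (g : MultilinearMap F (fun _ : Fin n => M) F) :
    rmap b n g = ∑ w : Fin n → I, g (fun k => b (w k)) •
      ExteriorAlgebra.ιMulti F n (fun k => b.coord (w k)) := rfl

theorem expand {n : ℕ} {N : Type*} [AddCommGroup N] [Module F N]
    (T : (Dual F M) [⋀^Fin n]→ₗ[F] N) (ξ : Fin n → Dual F M) :
    ∑ w : Fin n → I, (∏ i, ξ i (b (w i))) • T (fun i => b.coord (w i)) = T ξ := by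
  classical
  have h1 : ξ = fun i => ∑ a, ξ i (b a) • b.coord a := by
    funext i
    exact (b.sum_dual_apply_smul_coord (ξ i)).symm
  have h2 : T ξ = T.toMultilinearMap (fun i => ∑ a, ξ i (b a) • b.coord a) :=
    congrArg (fun v => T v) h1
  rw [h2, MultilinearMap.map_sum]
  refine Finset.sum_congr rfl fun w _ => ?_
  rw [MultilinearMap.map_smul_univ T.toMultilinearMap (fun i => ξ i (b (w i)))
    (fun i => b.coord (w i))]
  rfl

theorem rmap_form (n : ℕ) (x : ⋀[F]^n (Dual F M)) :
    rmap b n (form n x) = (n.factorial : F) • (x : ExteriorAlgebra F (Dual F M)) := by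
  classical
  have key : (rmap b n) ∘ₗ (form n) =
      (n.factorial : F) • (Submodule.subtype (⋀[F]^n (Dual F M))) := by
    apply exteriorPower.linearMap_ext
    ext ξ
    show rmap b n (form n (exteriorPower.ιMulti F n ξ)) =
      (n.factorial : F) • (ExteriorAlgebra.ιMulti F n ξ)
    rw [rmap_apply]
    have h1 : ∀ w : Fin n → I, form n (exteriorPower.ιMulti F n ξ) (fun k => b (w k)) •
        ExteriorAlgebra.ιMulti F n (fun k => b.coord (w k)) =
        ∑ σ : Equiv.Perm (Fin n), (Equiv.Perm.sign σ) • (∏ i, ξ i (b (w (σ i)))) •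
          ExteriorAlgebra.ιMulti F n (fun k => b.coord (w k)) := by
      intro w
      rw [form_ιMulti, Finset.sum_smul]
      refine Finset.sum_congr rfl fun σ _ => ?_
      rw [smul_assoc]
    rw [Finset.sum_congr rfl fun w _ => h1 w, Finset.sum_comm]
    have h2 : ∀ σ : Equiv.Perm (Fin n), ∑ w : Fin n → I, (Equiv.Perm.sign σ) •
        (∏ i, ξ i (b (w (σ i)))) • ExteriorAlgebra.ιMulti F n (fun k => b.coord (w k)) =
        ExteriorAlgebra.ιMulti F n ξ := by
      intro σ
      rw [← Finset.smul_sum]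
      have h3 : ∑ w : Fin n → I, (∏ i, ξ i (b (w (σ i)))) •
          ExteriorAlgebra.ιMulti F n (fun k => b.coord (w k)) =
          ∑ w : Fin n → I, (∏ i, ξ i (b (w i))) •
            (Equiv.Perm.sign σ) • ExteriorAlgebra.ιMulti F n (fun k => b.coord (w k)) := by
        refine Fintype.sum_equiv (Equiv.arrowCongr σ.symm (Equiv.refl I)) _ _ fun w => ?_
        have h4 : ∀ i, (Equiv.arrowCongr σ.symm (Equiv.refl I)) w i = w (σ i) := fun i => rfl
        simp only [h4]
        congr 1
        have h5 := (ExteriorAlgebra.ιMulti F n).map_perm (fun k => b.coord (w k)) σ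
        have h6 : (fun k => b.coord (w (σ k))) = (fun k => b.coord (w k)) ∘ σ := rfl
        rw [h6, h5, smul_smul, Int.units_mul_self, one_smul]
      rw [h3]
      have h7 : ∀ w : Fin n → I, (∏ i, ξ i (b (w i))) •
            (Equiv.Perm.sign σ) • ExteriorAlgebra.ιMulti F n (fun k => b.coord (w k)) =
          (Equiv.Perm.sign σ) • (∏ i, ξ i (b (w i))) •
            ExteriorAlgebra.ιMulti F n (fun k => b.coord (w k)) := fun w => smul_comm _ _ _
      rw [Finset.sum_congr rfl fun w _ => h7 w, ← Finset.smul_sum, smul_smul,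
        Int.units_mul_self, one_smul, expand]
    rw [Finset.sum_congr rfl fun σ _ => h2 σ, Finset.sum_const, Finset.card_univ,
      Fintype.card_perm, Fintype.card_fin, ← Nat.cast_smul_eq_nsmul F]
  exact LinearMap.congr_fun key x

theorem rmap_perm (n : ℕ) (π : Equiv.Perm (Fin n)) (g g' : MultilinearMap F (fun _ : Fin n => M) F)
    (h : ∀ v, g v = g' (fun i => v (π i))) :
    rmap b n g = (Equiv.Perm.sign π) • rmap b n g' := by
  classical
  rw [rmap_apply, rmap_apply, Finset.smul_sum]
  refine Fintype.sum_equiv (Equiv.arrowCongr π.symm (Equiv.refl I)) _ _ fun w => ?_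
  have h4 : ∀ i, (Equiv.arrowCongr π.symm (Equiv.refl I)) w i = w (π i) := fun i => rfl
  simp only [h4]
  rw [h]
  have h5 := (ExteriorAlgebra.ιMulti F n).map_perm (fun k => b.coord (w k)) π
  have h6 : (fun k => b.coord (w (π k))) = (fun k => b.coord (w k)) ∘ π := rfl
  rw [h6, h5, smul_comm, smul_smul, Int.units_mul_self, one_smul]

/-- the element of degree two given by a bilinear form -/
noncomputable def yy (B : M →ₗ[F] M →ₗ[F] F) : ExteriorAlgebra F (Dual F M) :=
  ∑ a, ExteriorAlgebra.ι F (b.coord a) * ExteriorAlgebra.ι F (B (b a))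

theorem yy_eq (B : M →ₗ[F] M →ₗ[F] F) : yy b B = ∑ p : I × I, B (b p.1) (b p.2) •
    (ExteriorAlgebra.ι F (b.coord p.1) * ExteriorAlgebra.ι F (b.coord p.2)) := by
  rw [Fintype.sum_prod_type]
  refine Finset.sum_congr rfl fun a _ => ?_
  conv_lhs => rw [← b.sum_dual_apply_smul_coord (B (b a))]
  rw [map_sum, Finset.mul_sum]
  refine Finset.sum_congr rfl fun a' _ => ?_
  rw [map_smul, mul_smul_comm]

theorem yy_indep {I' : Type*} [Fintype I'] (b' : Basis I' F M) (B : M →ₗ[F] M →ₗ[F] F) :
    yy b' B = yy b B := by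
  unfold yy
  have h1 : ∀ c : I', ExteriorAlgebra.ι F (b'.coord c) * ExteriorAlgebra.ι F (B (b' c)) =
      ∑ a, ExteriorAlgebra.ι F (b.coord a) *
        ExteriorAlgebra.ι F (B (b'.coord c (b a) • b' c)) := by
    intro c
    conv_lhs => rw [← b.sum_dual_apply_smul_coord (b'.coord c)]
    rw [map_sum, Finset.sum_mul]
    refine Finset.sum_congr rfl fun a _ => ?_
    rw [map_smul, map_smul, map_smul, smul_mul_assoc, mul_smul_comm]
  rw [Finset.sum_congr rfl fun c _ => h1 c, Finset.sum_comm]
  refine Finset.sum_congr rfl fun a _ => ?_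
  rw [← Finset.mul_sum, ← map_sum, ← map_sum]
  congr 3
  exact b'.sum_repr (b a)

/-- the positions of the pairs -/
def pos {j : ℕ} (i : Fin j) (t : Fin 2) : Fin (2 * j) := ⟨2 * i + t, by omega⟩

theorem pos_surj {j : ℕ} (k : Fin (2 * j)) :
    k = pos (⟨k / 2, by omega⟩ : Fin j) (⟨k % 2, by omega⟩ : Fin 2) := by
  apply Fin.ext
  show (k : ℕ) = 2 * (k / 2) + k % 2
  omega

theorem rmap_prod (j : ℕ) (B : Fin j → M →ₗ[F] M →ₗ[F] F)
    (g : MultilinearMap F (fun _ : Fin (2 * j) => M) F)
    (h : ∀ v, g v = ∏ i, B i (v (pos i 0)) (v (pos i 1))) :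
    rmap b (2 * j) g = (List.ofFn fun i => yy b (B i)).prod := by
  classical
  have h0 : (List.ofFn fun i => yy b (B i)).prod =
      MultilinearMap.mkPiAlgebraFin F j (ExteriorAlgebra F (Dual F M)) (fun i => yy b (B i)) := by
    rw [MultilinearMap.mkPiAlgebraFin_apply]
  have h1 : (fun i => yy b (B i)) = fun i => ∑ p : I × I, B i (b p.1) (b p.2) •
      (ExteriorAlgebra.ι F (b.coord p.1) * ExteriorAlgebra.ι F (b.coord p.2)) := by
    funext i
    exact yy_eq b (B i)
  rw [h0, h1, MultilinearMap.map_sum, rmap_apply]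
  refine Fintype.sum_bijective (fun (w : Fin (2 * j) → I) (i : Fin j) => (w (pos i 0), w (pos i 1)))
    ⟨?_, ?_⟩ _ _ fun w => ?_
  · intro w w' hw
    funext k
    rw [pos_surj k]
    have h2 := congrFun hw ⟨k / 2, by omega⟩
    rcases Nat.mod_two_eq_zero_or_one k with h3 | h3
    · have h4 : (⟨k % 2, by omega⟩ : Fin 2) = 0 := Fin.ext h3
      rw [h4]
      exact congrArg Prod.fst h2
    · have h4 : (⟨k % 2, by omega⟩ : Fin 2) = 1 := Fin.ext h3
      rw [h4]
      exact congrArg Prod.snd h2
  · intro W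
    refine ⟨fun k => if (k : ℕ) % 2 = 0 then (W ⟨k / 2, by omega⟩).1
      else (W ⟨k / 2, by omega⟩).2, ?_⟩
    funext i
    have h2 : ((pos i 0 : Fin (2 * j)) : ℕ) = 2 * i := by simp [pos]
    have h3 : ((pos i 1 : Fin (2 * j)) : ℕ) = 2 * i + 1 := by simp [pos]
    have h4 : (⟨((pos i 0 : Fin (2 * j)) : ℕ) / 2, by omega⟩ : Fin j) = i := Fin.ext (by
      show ((pos i 0 : Fin (2 * j)) : ℕ) / 2 = i
      omega)
    have h5 : (⟨((pos i 1 : Fin (2 * j)) : ℕ) / 2, by omega⟩ : Fin j) = i := Fin.ext (by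
      show ((pos i 1 : Fin (2 * j)) : ℕ) / 2 = i
      omega)
    have h6 : ((pos i 0 : Fin (2 * j)) : ℕ) % 2 = 0 := by omega
    have h7 : ¬ ((pos i 1 : Fin (2 * j)) : ℕ) % 2 = 0 := by omega
    show ((if ((pos i 0 : Fin (2 * j)) : ℕ) % 2 = 0 then _ else _),
      (if ((pos i 1 : Fin (2 * j)) : ℕ) % 2 = 0 then _ else _)) = W i
    rw [if_pos h6, if_neg h7, h4, h5]
  · have h2 := MultilinearMap.map_smul_univ
      (MultilinearMap.mkPiAlgebraFin F j (ExteriorAlgebra F (Dual F M)))
      (fun i => B i (b (w (pos i 0))) (b (w (pos i 1))))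
      (fun i => ExteriorAlgebra.ι F (b.coord (w (pos i 0))) *
        ExteriorAlgebra.ι F (b.coord (w (pos i 1))))
    refine Eq.trans ?_ h2.symm
    rw [h, MultilinearMap.mkPiAlgebraFin_apply, ExteriorAlgebra.ιMulti_apply]
    congr 1
    rw [List.ofFn_mul', List.prod_flatten, List.map_ofFn]
    congr 1
    congr 1
    funext i
    simp [List.ofFn_succ, pos]

end general

section rep

variable {F V Γ : Type*} [Field F] [AddCommGroup V] [Module F V] [Group Γ]

/-- the action of `γ` on the rational Tate module of `A ^ r` -/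
noncomputable def gact (D : Rep F V Γ) (r : ℕ) (γ : Γ) : (Fin r → V) ≃ₗ[F] (Fin r → V) :=
  LinearEquiv.piCongrRight (fun _ : Fin r => D.ρ γ)

theorem gact_apply (D : Rep F V Γ) (r : ℕ) (γ : Γ) (m : Fin r → V) (c : Fin r) :
    gact D r γ m c = D.ρ γ (m c) := rfl

theorem dualAct_apply (D : Rep F V Γ) (r : ℕ) (γ : Γ) (ξ : Dual F (Fin r → V))
    (m : Fin r → V) : D.dualAct r γ ξ m = ξ (fun c => D.ρ γ⁻¹ (m c)) := rfl

theorem inv_gact (D : Rep F V Γ) (γ : Γ) (v : V) : D.ρ γ⁻¹ (D.ρ γ v) = v := by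
  have h1 : D.ρ γ⁻¹ * D.ρ γ = 1 := by rw [← map_mul, inv_mul_cancel, map_one]
  exact LinearEquiv.congr_fun h1 v

theorem gact_inv (D : Rep F V Γ) (γ : Γ) (v : V) : D.ρ γ (D.ρ γ⁻¹ v) = v := by
  have h1 : D.ρ γ * D.ρ γ⁻¹ = 1 := by rw [← map_mul, mul_inv_cancel, map_one]
  exact LinearEquiv.congr_fun h1 v

theorem dualAct_gact (D : Rep F V Γ) (r : ℕ) (γ : Γ) (ξ : Dual F (Fin r → V))
    (m : Fin r → V) : D.dualAct r γ ξ (gact D r γ m) = ξ m := by
  rw [dualAct_apply]
  congr 1
  funext c
  rw [gact_apply, inv_gact]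

theorem map_coe (D : Rep F V Γ) (r : ℕ) (γ : Γ) (n : ℕ) (x : ⋀[F]^n (Dual F (Fin r → V))) :
    ((exteriorPower.map n (D.dualAct r γ) x : ⋀[F]^n (Dual F (Fin r → V))) :
      ExteriorAlgebra F (Dual F (Fin r → V))) = D.act r γ x := by
  have key : (Submodule.subtype (⋀[F]^n (Dual F (Fin r → V)))) ∘ₗ
      (exteriorPower.map n (D.dualAct r γ)) =
      (D.act r γ).toLinearMap ∘ₗ (Submodule.subtype (⋀[F]^n (Dual F (Fin r → V)))) := by
    apply exteriorPower.linearMap_ext
    ext ξ
    show ((exteriorPower.map n (D.dualAct r γ) (exteriorPower.ιMulti F n ξ) :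
      ⋀[F]^n (Dual F (Fin r → V))) : ExteriorAlgebra F (Dual F (Fin r → V))) =
      ExteriorAlgebra.map (D.dualAct r γ) (ExteriorAlgebra.ιMulti F n ξ)
    rw [exteriorPower.map_apply_ιMulti, ExteriorAlgebra.map_apply_ιMulti]
    rfl
  exact LinearMap.congr_fun key x

theorem form_map (D : Rep F V Γ) (r : ℕ) (γ : Γ) (n : ℕ) (x : ⋀[F]^n (Dual F (Fin r → V)))
    (m : Fin n → Fin r → V) :
    form n (exteriorPower.map n (D.dualAct r γ) x) (fun k => gact D r γ (m k)) =
      form n x m := by
  let ev : MultilinearMap F (fun _ : Fin n => (Fin r → V)) F →ₗ[F] F :=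
    { toFun := fun g => g (fun k => gact D r γ (m k))
      map_add' := fun g g' => rfl
      map_smul' := fun c g => rfl }
  let ev' : MultilinearMap F (fun _ : Fin n => (Fin r → V)) F →ₗ[F] F :=
    { toFun := fun g => g m
      map_add' := fun g g' => rfl
      map_smul' := fun c g => rfl }
  have key : ev ∘ₗ form n ∘ₗ (exteriorPower.map n (D.dualAct r γ)) = ev' ∘ₗ form n := by
    apply exteriorPower.linearMap_ext
    ext ξ
    show form n (exteriorPower.map n (D.dualAct r γ) (exteriorPower.ιMulti F n ξ))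
      (fun k => gact D r γ (m k)) = form n (exteriorPower.ιMulti F n ξ) m
    rw [exteriorPower.map_apply_ιMulti, form_ιMulti, form_ιMulti]
    refine Finset.sum_congr rfl fun σ _ => ?_
    congr 1
    refine Finset.prod_congr rfl fun i _ => ?_
    exact dualAct_gact D r γ (ξ i) (m (σ i))
  exact LinearMap.congr_fun key x

variable {I : Type*} [Fintype I]

theorem yy_tate (D : Rep F V Γ) (r : ℕ) (b : Basis I F (Fin r → V))
    (B : (Fin r → V) →ₗ[F] (Fin r → V) →ₗ[F] F)
    (hB : ∃ Γ' : Subgroup Γ, Γ'.FiniteIndex ∧ ∀ γ ∈ Γ', ∀ u v,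
      B (gact D r γ u) (gact D r γ v) = (D.χ γ : F) * B u v) : D.IsTate r 1 (yy b B) := by
  obtain ⟨Γ', hfi, hinv⟩ := hB
  refine ⟨?_, Γ', hfi, fun γ hγ => ?_⟩
  · show yy b B ∈ (LinearMap.range (ExteriorAlgebra.ι F :
      Dual F (Fin r → V) →ₗ[F] ExteriorAlgebra F (Dual F (Fin r → V)))) ^ 2
    refine Submodule.sum_mem _ fun a _ => ?_
    rw [pow_two]
    exact Submodule.mul_mem_mul (LinearMap.mem_range_self _ _) (LinearMap.mem_range_self _ _)
  · rw [pow_one]
    conv_rhs => rw [← yy_indep b (b.map (gact D r γ)) B]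
    unfold yy
    rw [map_sum, Finset.smul_sum]
    refine Finset.sum_congr rfl fun a _ => ?_
    have h1 : D.act r γ (ExteriorAlgebra.ι F (b.coord a)) =
        ExteriorAlgebra.ι F ((b.map (gact D r γ)).coord a) := by
      show ExteriorAlgebra.map (D.dualAct r γ) (ExteriorAlgebra.ι F (b.coord a)) = _
      rw [ExteriorAlgebra.map_apply_ι]
      congr 1
      apply LinearMap.ext
      intro v
      have h4 : gact D r γ (fun c => D.ρ γ⁻¹ (v c)) = v := by
        funext c
        rw [gact_apply, gact_inv]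
      rw [← h4, dualAct_gact, Basis.coord_apply, Basis.coord_apply, Basis.map_repr,
        LinearEquiv.trans_apply, LinearEquiv.symm_apply_apply]
    have h2 : (D.χ γ : F) • D.act r γ (ExteriorAlgebra.ι F (B (b a))) =
        ExteriorAlgebra.ι F (B ((b.map (gact D r γ)) a)) := by
      show (D.χ γ : F) • ExteriorAlgebra.map (D.dualAct r γ) (ExteriorAlgebra.ι F (B (b a))) = _
      rw [ExteriorAlgebra.map_apply_ι, ← map_smul]
      congr 1
      apply LinearMap.ext
      intro v
      have h3 := hinv γ hγ (b a) (fun c => D.ρ γ⁻¹ (v c))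
      have h4 : gact D r γ (fun c => D.ρ γ⁻¹ (v c)) = v := by
        funext c
        rw [gact_apply, gact_inv]
      rw [h4] at h3
      rw [Basis.map_apply, h3]
      rfl
    rw [map_mul, h1, ← mul_smul_comm, h2]

/-- the permutation of the positions -/
theorem exists_perm {j : ℕ} (σ : Fin j × Fin 2 ≃ Fin (2 * j)) :
    ∃ π : Equiv.Perm (Fin (2 * j)), ∀ i t, π (pos i t) = σ (i, t) := by
  have hbij : Function.Bijective (fun p : Fin j × Fin 2 => (pos p.1 p.2 : Fin (2 * j))) := by
    constructor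
    · rintro ⟨i, t⟩ ⟨i', t'⟩ h
      have h1 : 2 * (i : ℕ) + t = 2 * i' + t' := congrArg Fin.val h
      have h2 : (i : ℕ) = i' := by omega
      have h3 : (t : ℕ) = t' := by omega
      exact Prod.ext (Fin.ext h2) (Fin.ext h3)
    · intro k
      exact ⟨(⟨k / 2, by omega⟩, ⟨k % 2, by omega⟩), (pos_surj k).symm⟩
  refine ⟨(Equiv.ofBijective _ hbij).symm.trans σ, fun i t => ?_⟩
  rw [Equiv.trans_apply]
  congr 1
  exact (Equiv.ofBijective _ hbij).symm_apply_apply (i, t)

theorem rmap_mem (D : Rep F V Γ) (r j : ℕ) (b : Basis I F (Fin r → V))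
    (c : Fin (2 * j) → Fin r) (g : MultilinearMap F (fun _ : Fin (2 * j) => V) F)
    (hg : g ∈ Submodule.span F {g | D.ProdForm j g}) :
    rmap b (2 * j) (g.compLinearMap (fun k => LinearMap.proj (c k))) ∈
      Algebra.adjoin F {y | D.IsTate r 1 y} := by
  classical
  induction hg using Submodule.span_induction with
  | mem g hg =>
    obtain ⟨σ, ω, hω, hgω⟩ := hg
    obtain ⟨π, hπ⟩ := exists_perm σ
    have hπ' : ∀ i t, π⁻¹ (σ (i, t)) = pos i t := by
      intro i t
      rw [← hπ i t]
      exact π.symm_apply_apply _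
    set G : MultilinearMap F (fun _ : Fin (2 * j) => (Fin r → V)) F :=
      g.compLinearMap (fun k => LinearMap.proj (c k)) with hG
    have hG1 : ∀ v, G v = ∏ i, ω i (v (σ (i, 0)) (c (σ (i, 0)))) (v (σ (i, 1)) (c (σ (i, 1)))) := by
      intro v
      rw [hG, MultilinearMap.compLinearMap_apply, hgω]
      rfl
    let B : Fin j → (Fin r → V) →ₗ[F] (Fin r → V) →ₗ[F] F := fun i =>
      (ω i).compl₁₂ (LinearMap.proj (c (σ (i, 0)))) (LinearMap.proj (c (σ (i, 1))))
    let g' : MultilinearMap F (fun _ : Fin (2 * j) => (Fin r → V)) F :=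
      MultilinearMap.domDomCongr π⁻¹ G
    have h1 : ∀ v, g' v = G (fun i => v (π⁻¹ i)) := fun v => rfl
    have h2 : ∀ v, g' v = ∏ i, B i (v (pos i 0)) (v (pos i 1)) := by
      intro v
      rw [h1, hG1]
      refine Finset.prod_congr rfl fun i _ => ?_
      simp only [hπ']
      rfl
    have h3 : ∀ v, G v = g' (fun i => v (π i)) := by
      intro v
      rw [h1]
      congr 1
      funext i
      exact congrArg v (π.apply_symm_apply i).symm
    rw [rmap_perm b (2 * j) π G g' h3, rmap_prod b j B g' h2]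
    have h4 : (List.ofFn fun i => yy b (B i)).prod ∈ Algebra.adjoin F {y | D.IsTate r 1 y} := by
      refine Subalgebra.list_prod_mem _ fun y hy => ?_
      rw [List.mem_ofFn'] at hy
      obtain ⟨i, rfl⟩ := hy
      apply Algebra.subset_adjoin
      refine yy_tate D r b (B i) ?_
      obtain ⟨Γ', hfi, hinv⟩ := hω i
      refine ⟨Γ', hfi, fun γ hγ u v => ?_⟩
      exact hinv γ hγ (u (c (σ (i, 0)))) (v (c (σ (i, 1))))
    rcases Int.units_eq_one_or (Equiv.Perm.sign π) with h5 | h5
    · rw [h5, one_smul]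
      exact h4
    · rw [h5, Units.neg_smul, one_smul]
      exact neg_mem h4
  | zero =>
    have h1 : (0 : MultilinearMap F (fun _ : Fin (2 * j) => V) F).compLinearMap
        (fun k => (LinearMap.proj (c k) : (Fin r → V) →ₗ[F] V)) = 0 := by
      ext v
      rfl
    rw [h1, map_zero]
    exact zero_mem _
  | add g g' _ _ h1 h2 =>
    have h3 : (g + g').compLinearMap (fun k => (LinearMap.proj (c k) : (Fin r → V) →ₗ[F] V)) =
        g.compLinearMap (fun k => (LinearMap.proj (c k) : (Fin r → V) →ₗ[F] V)) +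
        g'.compLinearMap (fun k => (LinearMap.proj (c k) : (Fin r → V) →ₗ[F] V)) := by
      ext v
      rfl
    rw [h3, map_add]
    exact add_mem h1 h2
  | smul a g _ h1 =>
    have h3 : (a • g).compLinearMap (fun k => (LinearMap.proj (c k) : (Fin r → V) →ₗ[F] V)) =
        a • g.compLinearMap (fun k => (LinearMap.proj (c k) : (Fin r → V) →ₗ[F] V)) := by
      ext v
      rfl
    rw [h3, map_smul]
    exact Subalgebra.smul_mem _ h1 a

end rep

end Bridge_

open Bridge_ in
/-- if all multilinear Tate forms of degree `2 j` are combinations of products of bilinear Tate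
forms then all Tate classes of codimension `j` on all powers are divisorial -/
theorem bridge {F V Γ : Type*} [Field F] [AddCommGroup V] [Module F V] [Group Γ] [CharZero F]
    [FiniteDimensional F V] (D : Rep F V Γ) (j : ℕ)
    (H : ∀ f : MultilinearMap F (fun _ : Fin (2 * j) => V) F, D.TateForm j f →
      f ∈ Submodule.span F {g | D.ProdForm j g})
    (r : ℕ) (x : Coh F V r) (hx : D.IsTate r j x) : D.IsDivisorial r x := by
  classical
  obtain ⟨hx1, Γ', hfi, hinv⟩ := hx
  let b := Module.finBasis F (Fin r → V)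
  set X : ⋀[F]^(2 * j) (Dual F (Fin r → V)) := ⟨x, hx1⟩ with hX
  set f := form (2 * j) X with hf
  have hfinv : ∀ γ ∈ Γ', ∀ m : Fin (2 * j) → Fin r → V,
      f (fun k => gact D r γ (m k)) = (D.χ γ : F) ^ j * f m := by
    intro γ hγ m
    have h1 : X = (D.χ γ : F) ^ j • exteriorPower.map (2 * j) (D.dualAct r γ) X := by
      apply Subtype.ext
      rw [Submodule.coe_smul, map_coe]
      exact (hinv γ hγ).symm
    rw [hf]
    conv_lhs => rw [h1]
    rw [map_smul, smul_apply, form_map]
    rfl
  have hsum : f = ∑ c : Fin (2 * j) → Fin r,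
      (f.compLinearMap (fun k => LinearMap.single F (fun _ => V) (c k))).compLinearMap
        (fun k => (LinearMap.proj (c k) : (Fin r → V) →ₗ[F] V)) := by
    refine MultilinearMap.ext fun m => ?_
    have h1 : m = fun k => ∑ c : Fin r, (Pi.single c (m k c) : Fin r → V) := by
      funext k
      exact (Finset.univ_sum_single (m k)).symm
    conv_lhs => rw [h1]
    rw [MultilinearMap.map_sum, sum_apply]
    rfl
  have hmem : rmap b (2 * j) f ∈ Algebra.adjoin F {y | D.IsTate r 1 y} := by
    rw [hsum, map_sum]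
    refine sum_mem fun c _ => rmap_mem D r j b c _ (H _ ⟨Γ', hfi, fun γ hγ v => ?_⟩)
    rw [MultilinearMap.compLinearMap_apply, MultilinearMap.compLinearMap_apply,
      ← hfinv γ hγ]
    congr 1
    funext k c'
    rw [gact_apply]
    show (Pi.single (c k) (D.ρ γ (v k)) : Fin r → V) c' =
      D.ρ γ ((Pi.single (c k) (v k) : Fin r → V) c')
    by_cases h : c' = c k
    · subst h
      rw [Pi.single_eq_same, Pi.single_eq_same]
    · rw [Pi.single_eq_of_ne h, Pi.single_eq_of_ne h, map_zero]
  rw [hf, rmap_form] at hmem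
  have hne : ((2 * j).factorial : F) ≠ 0 := by exact_mod_cast Nat.factorial_ne_zero _
  have h1 := Subalgebra.smul_mem _ hmem (((2 * j).factorial : F)⁻¹)
  rw [smul_smul, inv_mul_cancel₀ hne, one_smul] at h1
  exact h1

end Pool.Agent.OneRed
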