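import Mathlib

/-!
# Words, block forms and matching products

Target `Pool.Agent.OneRed.fft` (file `Casimir.lean`): first fundamental theorem in coordinates.
-/

namespace Pool.Agent.OneRed

open Finset

variable {F : Type*} [Field F] {S T J : Type*} [DecidableEq S] [DecidableEq T] [DecidableEq J]

/-- the form of the block `τ`: pairs a letter `s` of the block with `bar s` -/
def blockForm (bar : S → S) (c : S → F) (bl : S → T) (τ : T) (s s' : S) : F :=
  if bl s = τ ∧ s' = bar s then c s else 0

/-- products of block forms over the pairs of a perfect matching of the set `A` of positions -/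
inductive Mon (B : T → S → S → F) : Finset J → ((J → S) → F) → Prop
  | nil : Mon B ∅ (fun _ => 1)
  | cons {A : Finset J} {t : (J → S) → F} (a k : J) (τ : T) (ha : a ∉ A) (hk : k ∉ A)
      (hak : a ≠ k) (h : Mon B A t) :
      Mon B (insert a (insert k A)) (fun w => B τ (w a) (w k) * t w)

/-- `t` is killed by the root vectors `X_{uv}`, `u`, `v` in the same block, and (`u = v`) by the
elements `h_u` -/
def IsInv [Fintype J] (bar : S → S) (c : S → F) (bl : S → T) (t : (J → S) → F) : Prop :=
  ∀ u v, bl u = bl v → ∀ w : J → S,
    ∑ k ∈ univ.filter (fun k => w k = v), t (Function.update w k u) =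
      ∑ k ∈ univ.filter (fun k => w k = bar u), c u / c v * t (Function.update w k (bar v))

end Pool.Agent.OneRed
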