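import Mathlib
import Pool.Agent.OneRed.FFTDefs

/-!
# First fundamental theorem in coordinates, by the Casimir operator (target C)
-/

namespace Pool.Agent.OneRed

open Finset

set_option linter.unusedSectionVars false

namespace Cas

variable {F : Type*} [Field F] {S T J : Type*} [DecidableEq S] [DecidableEq T] [DecidableEq J]

/-- `t` depends only on the letters in the places of `A` -/
def Dep {G : Type*} (A : Finset J) (t : (J → S) → G) : Prop :=
  ∀ w w' : J → S, (∀ a ∈ A, w a = w' a) → t w = t w'

/-- invariance in the places of `A` -/
def InvA (bar : S → S) (c : S → F) (bl : S → T) (A : Finset J) (t : (J → S) → F) : Prop :=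
  ∀ u v, bl u = bl v → ∀ w : J → S,
    ∑ k ∈ A.filter (fun k => w k = v), t (Function.update w k u) =
      ∑ k ∈ A.filter (fun k => w k = bar u), c u / c v * t (Function.update w k (bar v))

/-- the number attached to a block -/
def num [Fintype S] (bar : S → S) (bl : S → T) (s : S) : ℕ :=
  (univ.filter (fun v => bl v = bl s)).card + if bl (bar s) = bl s then 1 else 0

/-- the Casimir operator in the places of `A` -/
def D [Fintype S] {G : Type*} [AddCommMonoid G] (bar : S → S) (bl : S → T) (A : Finset J)
    (t : (J → S) → G) (w : J → S) : G :=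
  ∑ a ∈ A, (num bar bl (w a) • t w +
    ∑ k ∈ (A.erase a).filter (fun k => bl (w k) = bl (w a)), t (w ∘ Equiv.swap a k))

/-- contraction -/
def kap [Fintype S] (bar : S → S) (c : S → F) (bl : S → T) (a k : J) (τ : T)
    (t : (J → S) → F) (w : J → S) : F :=
  ∑ v ∈ univ.filter (fun v => bl v = τ),
    (c v)⁻¹ * t (Function.update (Function.update w a v) k (bar v))

theorem swap_eq (w : J → S) {a k : J} (hak : a ≠ k) :
    Function.update (Function.update w a (w k)) k (w a) = w ∘ Equiv.swap a k := by
  funext b
  simp only [Function.comp]
  by_cases hk : b = k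
  · subst hk
    rw [Function.update_self, Equiv.swap_apply_right]
  · rw [Function.update_of_ne hk]
    by_cases ha : b = a
    · subst ha
      rw [Function.update_self, Equiv.swap_apply_left]
    · rw [Function.update_of_ne ha, Equiv.swap_apply_of_ne_of_ne ha hk]

/-- the relation at `w[a := v]` -/
theorem rel_at (bar : S → S) (c : S → F) (bl : S → T)
    (hbb : ∀ s, bar (bar s) = s) (hc : ∀ s, c s ≠ 0) (hcb : ∀ s, c (bar s) = - c s)
    (A : Finset J) (t : (J → S) → F) (ht : InvA bar c bl A t) (w : J → S) (a : J) (ha : a ∈ A)
    (v : S) (hv : bl v = bl (w a)) :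
    t w + ∑ k ∈ (A.erase a).filter (fun k => w k = v), t (w ∘ Equiv.swap a k) +
        (if v = bar (w a) then t w else 0) =
      ∑ k ∈ (A.erase a).filter (fun k => w k = bar (w a)),
        c (w a) * ((c v)⁻¹ * t (Function.update (Function.update w a v) k (bar v))) := by
  have h := ht (w a) v hv.symm (Function.update w a v)
  have hA : A = insert a (A.erase a) := (Finset.insert_erase ha).symm
  have hL : ∑ k ∈ A.filter (fun k => Function.update w a v k = v),
      t (Function.update (Function.update w a v) k (w a)) =
      t w + ∑ k ∈ (A.erase a).filter (fun k => w k = v), t (w ∘ Equiv.swap a k) := by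
    rw [Finset.sum_filter, Finset.sum_filter, ← Finset.add_sum_erase A _ ha]
    congr 1
    · simp
    · apply Finset.sum_congr rfl
      intro k hk
      have hka : k ≠ a := (Finset.mem_erase.1 hk).1
      rw [Function.update_of_ne hka]
      by_cases h1 : w k = v
      · rw [if_pos h1, if_pos h1, ← swap_eq w hka.symm, h1]
      · rw [if_neg h1, if_neg h1]
  have hR : ∑ k ∈ A.filter (fun k => Function.update w a v k = bar (w a)),
      c (w a) / c v * t (Function.update (Function.update w a v) k (bar v)) =
      -(if v = bar (w a) then t w else 0) +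
      ∑ k ∈ (A.erase a).filter (fun k => w k = bar (w a)),
        c (w a) * ((c v)⁻¹ * t (Function.update (Function.update w a v) k (bar v))) := by
    rw [Finset.sum_filter, Finset.sum_filter, ← Finset.add_sum_erase A _ ha]
    congr 1
    · rw [Function.update_self]
      by_cases h1 : v = bar (w a)
      · rw [if_pos h1, if_pos h1, h1, hbb, hcb]
        rw [Function.update_idem, Function.update_eq_self]
        have := hc (w a)
        field_simp
      · rw [if_neg h1, if_neg h1, neg_zero]
    · apply Finset.sum_congr rfl
      intro k hk
      have hka : k ≠ a := (Finset.mem_erase.1 hk).1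
      rw [Function.update_of_ne hka, div_eq_mul_inv, mul_assoc]
  rw [hL, hR] at h
  rw [h]
  ring

/-- step 2: the identity -/
theorem D_eq [Fintype S] [Fintype T] (bar : S → S) (c : S → F) (bl : S → T)
    (hbb : ∀ s, bar (bar s) = s) (hc : ∀ s, c s ≠ 0) (hcb : ∀ s, c (bar s) = - c s)
    (A : Finset J) (t : (J → S) → F) (ht : InvA bar c bl A t) (w : J → S) :
    D bar bl A t w = ∑ a ∈ A, ∑ k ∈ A.erase a, ∑ τ : T,
      blockForm bar c bl τ (w a) (w k) * kap bar c bl a k τ t w := by
  unfold D
  apply Finset.sum_congr rfl
  intro a ha
  have hsum : ∑ v ∈ univ.filter (fun v => bl v = bl (w a)),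
      (t w + ∑ k ∈ (A.erase a).filter (fun k => w k = v), t (w ∘ Equiv.swap a k) +
        (if v = bar (w a) then t w else 0)) =
      ∑ v ∈ univ.filter (fun v => bl v = bl (w a)),
      ∑ k ∈ (A.erase a).filter (fun k => w k = bar (w a)),
        c (w a) * ((c v)⁻¹ * t (Function.update (Function.update w a v) k (bar v))) := by
    apply Finset.sum_congr rfl
    intro v hv
    exact rel_at bar c bl hbb hc hcb A t ht w a ha v (Finset.mem_filter.1 hv).2
  have hL : ∑ v ∈ univ.filter (fun v => bl v = bl (w a)),
      (t w + ∑ k ∈ (A.erase a).filter (fun k => w k = v), t (w ∘ Equiv.swap a k) +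
        (if v = bar (w a) then t w else 0)) =
      num bar bl (w a) • t w +
        ∑ k ∈ (A.erase a).filter (fun k => bl (w k) = bl (w a)), t (w ∘ Equiv.swap a k) := by
    rw [Finset.sum_add_distrib, Finset.sum_add_distrib, Finset.sum_const]
    have h2 : ∑ v ∈ univ.filter (fun v => bl v = bl (w a)),
        ∑ k ∈ (A.erase a).filter (fun k => w k = v), t (w ∘ Equiv.swap a k) =
        ∑ k ∈ (A.erase a).filter (fun k => bl (w k) = bl (w a)), t (w ∘ Equiv.swap a k) := by
      simp_rw [Finset.sum_filter (s := A.erase a)]
      rw [Finset.sum_comm]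
      apply Finset.sum_congr rfl
      intro k hk
      rw [Finset.sum_ite_eq]
      simp
    have h3 : ∑ v ∈ univ.filter (fun v => bl v = bl (w a)), (if v = bar (w a) then t w else 0) =
        (if bl (bar (w a)) = bl (w a) then 1 else 0 : ℕ) • t w := by
      rw [Finset.sum_ite_eq']
      by_cases h : bl (bar (w a)) = bl (w a)
      · simp [h]
      · simp [h]
    rw [h2, h3]
    unfold num
    rw [add_smul]
    abel
  rw [← hL, hsum, Finset.sum_comm, Finset.sum_filter]
  apply Finset.sum_congr rfl
  intro k hk
  have h4 : ∑ τ : T, blockForm bar c bl τ (w a) (w k) * kap bar c bl a k τ t w =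
      if w k = bar (w a) then c (w a) * kap bar c bl a k (bl (w a)) t w else 0 := by
    by_cases h : w k = bar (w a)
    · rw [if_pos h]
      rw [Finset.sum_eq_single (bl (w a))]
      · simp [blockForm, h]
      · intro τ _ hτ
        have : ¬ (bl (w a) = τ ∧ w k = bar (w a)) := fun h' => hτ h'.1.symm
        simp [blockForm, Ne.symm hτ]
      · intro h'; exact absurd (Finset.mem_univ _) h'
    · rw [if_neg h]
      apply Finset.sum_eq_zero
      intro τ _
      simp [blockForm, h]
  rw [h4]
  by_cases h : w k = bar (w a)
  · rw [if_pos h, if_pos h]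
    unfold kap
    rw [Finset.mul_sum]
  · rw [if_neg h, if_neg h]

theorem kap_dep [Fintype S] (bar : S → S) (c : S → F) (bl : S → T) (a k : J) (τ : T)
    (A : Finset J) (t : (J → S) → F) (ht : Dep A t) :
    Dep ((A.erase a).erase k) (kap bar c bl a k τ t) := by
  intro w w' h
  unfold kap
  apply Finset.sum_congr rfl
  intro v _
  congr 1
  apply ht
  intro b hb
  by_cases hk : b = k
  · subst hk; rw [Function.update_self, Function.update_self]
  · rw [Function.update_of_ne hk, Function.update_of_ne hk]
    by_cases ha : b = a
    · subst ha; rw [Function.update_self, Function.update_self]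
    · rw [Function.update_of_ne ha, Function.update_of_ne ha]
      exact h b (Finset.mem_erase.2 ⟨hk, Finset.mem_erase.2 ⟨ha, hb⟩⟩)

/-- step 3: the contraction is invariant -/
theorem kap_inv [Fintype S] (bar : S → S) (c : S → F) (bl : S → T)
    (hbb : ∀ s, bar (bar s) = s) (hc : ∀ s, c s ≠ 0) (hcb : ∀ s, c (bar s) = - c s)
    (hbl : ∀ s s', bl s = bl s' → bl (bar s) = bl (bar s'))
    (a k : J) (hak : a ≠ k) (τ : T)
    (A : Finset J) (ha : a ∈ A) (hk : k ∈ A) (t : (J → S) → F) (ht : InvA bar c bl A t) :
    InvA bar c bl ((A.erase a).erase k) (kap bar c bl a k τ t) := by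
  intro u' v' huv w
  have hk' : k ∈ A.erase a := Finset.mem_erase.2 ⟨hak.symm, hk⟩
  set W : S → J → S := fun v => Function.update (Function.update w a v) k (bar v) with hW
  have hWa : ∀ v, W v a = v := fun v => by
    simp only [hW]; rw [Function.update_of_ne hak, Function.update_self]
  have hWk : ∀ v, W v k = bar v := fun v => by
    simp only [hW]; rw [Function.update_self]
  have hWj : ∀ v j, j ≠ a → j ≠ k → W v j = w j := fun v j h1 h2 => by
    simp only [hW]; rw [Function.update_of_ne h2, Function.update_of_ne h1]
  have hup : ∀ v j x, j ≠ a → j ≠ k →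
      Function.update (Function.update (Function.update w j x) a v) k (bar v) =
      Function.update (W v) j x := fun v j x h1 h2 => by
    simp only [hW]
    rw [Function.update_comm h1, Function.update_comm h2]
  have hupa : ∀ v x, Function.update (W v) a x =
      Function.update (Function.update w a x) k (bar v) := fun v x => by
    simp only [hW]
    rw [Function.update_comm hak.symm, Function.update_idem]
  have hupk : ∀ v x, Function.update (W v) k x =
      Function.update (Function.update w a v) k x := fun v x => by
    simp only [hW]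
    rw [Function.update_idem]
  -- the relation at W v
  have hrel : ∀ v, (∑ j ∈ ((A.erase a).erase k).filter (fun j => w j = v'),
        t (Function.update (W v) j u')) +
      ((if v = v' then t (Function.update (Function.update w a u') k (bar v')) else 0) +
       (if v = bar v' then t (Function.update (Function.update w a (bar v')) k u') else 0)) =
      (∑ j ∈ ((A.erase a).erase k).filter (fun j => w j = bar u'),
        c u' / c v' * t (Function.update (W v) j (bar v'))) +
      ((if v = bar u' then
          c u' / c v' * t (Function.update (Function.update w a (bar v')) k u') else 0) +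
       (if v = u' then
          c u' / c v' * t (Function.update (Function.update w a u') k (bar v')) else 0)) := by
    intro v
    have h := ht u' v' huv (W v)
    rw [Finset.sum_filter, Finset.sum_filter, ← Finset.add_sum_erase A _ ha,
      ← Finset.add_sum_erase _ _ hk', ← Finset.add_sum_erase A _ ha,
      ← Finset.add_sum_erase _ _ hk'] at h
    have e1 : ∑ j ∈ ((A.erase a).erase k).filter (fun j => w j = v'),
        t (Function.update (W v) j u') =
        ∑ j ∈ (A.erase a).erase k,
          (if W v j = v' then t (Function.update (W v) j u') else 0) := by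
      rw [Finset.sum_filter]
      apply Finset.sum_congr rfl
      intro j hj
      have hjk : j ≠ k := (Finset.mem_erase.1 hj).1
      have hja : j ≠ a := (Finset.mem_erase.1 (Finset.mem_erase.1 hj).2).1
      rw [hWj v j hja hjk]
    have e2 : ∑ j ∈ ((A.erase a).erase k).filter (fun j => w j = bar u'),
        c u' / c v' * t (Function.update (W v) j (bar v')) =
        ∑ j ∈ (A.erase a).erase k,
          (if W v j = bar u' then c u' / c v' * t (Function.update (W v) j (bar v')) else 0) := by
      rw [Finset.sum_filter]
      apply Finset.sum_congr rfl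
      intro j hj
      have hjk : j ≠ k := (Finset.mem_erase.1 hj).1
      have hja : j ≠ a := (Finset.mem_erase.1 (Finset.mem_erase.1 hj).2).1
      rw [hWj v j hja hjk]
    have e3 : (if W v a = v' then t (Function.update (W v) a u') else 0) =
        (if v = v' then t (Function.update (Function.update w a u') k (bar v')) else 0) := by
      rw [hWa, hupa]
      by_cases h1 : v = v'
      · rw [if_pos h1, if_pos h1, h1]
      · rw [if_neg h1, if_neg h1]
    have e4 : (if W v k = v' then t (Function.update (W v) k u') else 0) =
        (if v = bar v' then t (Function.update (Function.update w a (bar v')) k u') else 0) := by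
      rw [hWk, hupk]
      by_cases h1 : bar v = v'
      · have h2 : v = bar v' := by rw [← h1, hbb]
        rw [if_pos h1, if_pos h2, h2]
      · have h2 : ¬ v = bar v' := fun h2 => h1 (by rw [h2, hbb])
        rw [if_neg h1, if_neg h2]
    have e5 : (if W v a = bar u' then
          c u' / c v' * t (Function.update (W v) a (bar v')) else 0) =
        (if v = bar u' then
          c u' / c v' * t (Function.update (Function.update w a (bar v')) k u') else 0) := by
      rw [hWa, hupa]
      by_cases h1 : v = bar u'
      · rw [if_pos h1, if_pos h1, h1, hbb]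
      · rw [if_neg h1, if_neg h1]
    have e6 : (if W v k = bar u' then
          c u' / c v' * t (Function.update (W v) k (bar v')) else 0) =
        (if v = u' then
          c u' / c v' * t (Function.update (Function.update w a u') k (bar v')) else 0) := by
      rw [hWk, hupk]
      by_cases h1 : bar v = bar u'
      · have h2 : v = u' := by rw [← hbb v, h1, hbb]
        rw [if_pos h1, if_pos h2, h2]
      · have h2 : ¬ v = u' := fun h2 => h1 (by rw [h2])
        rw [if_neg h1, if_neg h2]
    rw [e3, e4, e5, e6, ← e1, ← e2] at h
    linear_combination h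
  have hsum : ∑ v ∈ univ.filter (fun v => bl v = τ), (c v)⁻¹ *
      ((∑ j ∈ ((A.erase a).erase k).filter (fun j => w j = v'),
        t (Function.update (W v) j u')) +
      ((if v = v' then t (Function.update (Function.update w a u') k (bar v')) else 0) +
       (if v = bar v' then t (Function.update (Function.update w a (bar v')) k u') else 0))) =
      ∑ v ∈ univ.filter (fun v => bl v = τ), (c v)⁻¹ *
      ((∑ j ∈ ((A.erase a).erase k).filter (fun j => w j = bar u'),
        c u' / c v' * t (Function.update (W v) j (bar v'))) +
      ((if v = bar u' then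
          c u' / c v' * t (Function.update (Function.update w a (bar v')) k u') else 0) +
       (if v = u' then
          c u' / c v' * t (Function.update (Function.update w a u') k (bar v')) else 0))) := by
    apply Finset.sum_congr rfl
    intro v _
    rw [hrel v]
  simp only [mul_add, Finset.sum_add_distrib, mul_ite, mul_zero, Finset.sum_ite_eq',
    Finset.mem_filter, Finset.mem_univ, true_and] at hsum
  have hL : ∑ j ∈ ((A.erase a).erase k).filter (fun j => w j = v'),
      kap bar c bl a k τ t (Function.update w j u') =
      ∑ v ∈ univ.filter (fun v => bl v = τ), (c v)⁻¹ *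
      ∑ j ∈ ((A.erase a).erase k).filter (fun j => w j = v'),
        t (Function.update (W v) j u') := by
    unfold kap
    rw [Finset.sum_comm]
    apply Finset.sum_congr rfl
    intro v _
    rw [Finset.mul_sum]
    apply Finset.sum_congr rfl
    intro j hj
    have hj := (Finset.mem_filter.1 hj).1
    have hjk : j ≠ k := (Finset.mem_erase.1 hj).1
    have hja : j ≠ a := (Finset.mem_erase.1 (Finset.mem_erase.1 hj).2).1
    rw [hup v j u' hja hjk]
  have hR : ∑ j ∈ ((A.erase a).erase k).filter (fun j => w j = bar u'),
      c u' / c v' * kap bar c bl a k τ t (Function.update w j (bar v')) =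
      ∑ v ∈ univ.filter (fun v => bl v = τ), (c v)⁻¹ *
      ∑ j ∈ ((A.erase a).erase k).filter (fun j => w j = bar u'),
        c u' / c v' * t (Function.update (W v) j (bar v')) := by
    unfold kap
    simp_rw [Finset.mul_sum]
    rw [Finset.sum_comm]
    apply Finset.sum_congr rfl
    intro v _
    apply Finset.sum_congr rfl
    intro j hj
    have hj := (Finset.mem_filter.1 hj).1
    have hjk : j ≠ k := (Finset.mem_erase.1 hj).1
    have hja : j ≠ a := (Finset.mem_erase.1 (Finset.mem_erase.1 hj).2).1
    rw [hup v j (bar v') hja hjk]
    ring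
  rw [hL, hR]
  have hb := hbl u' v' huv
  have hcu := hc u'
  have hcv := hc v'
  have x1 : (if bl v' = τ then
        (c v')⁻¹ * t (Function.update (Function.update w a u') k (bar v')) else 0) =
      (if bl u' = τ then
        (c u')⁻¹ * (c u' / c v' * t (Function.update (Function.update w a u') k (bar v')))
        else 0) := by
    rw [huv]
    congr 1
    field_simp
  have x2 : (if bl (bar v') = τ then
        (c (bar v'))⁻¹ * t (Function.update (Function.update w a (bar v')) k u') else 0) =
      (if bl (bar u') = τ then
        (c (bar u'))⁻¹ * (c u' / c v' * t (Function.update (Function.update w a (bar v')) k u'))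
        else 0) := by
    rw [hb, hcb, hcb]
    congr 1
    field_simp
  rw [x1, x2] at hsum
  linear_combination hsum

/-! ### matching products -/

theorem Mon.map {B : T → S → S → F} (σ : Equiv.Perm J) {A : Finset J} {g : (J → S) → F}
    (h : Mon B A g) : Mon B (A.image σ) (fun w => g (w ∘ σ)) := by
  induction h with
  | nil => simpa using Mon.nil
  | @cons A t a k τ ha hk hak h ih =>
    rw [Finset.image_insert, Finset.image_insert]
    refine Mon.cons (σ a) (σ k) τ ?_ ?_ (fun e => hak (σ.injective e)) ih
    · intro h'
      obtain ⟨b, hb, hb'⟩ := Finset.mem_image.1 h'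
      exact ha (σ.injective hb' ▸ hb)
    · intro h'
      obtain ⟨b, hb, hb'⟩ := Finset.mem_image.1 h'
      exact hk (σ.injective hb' ▸ hb)

theorem image_swap {A : Finset J} {a k : J} (ha : a ∈ A) (hk : k ∈ A) :
    A.image (Equiv.swap a k) = A := by
  have key : ∀ b ∈ A, Equiv.swap a k b ∈ A := by
    intro b hb
    by_cases h1 : b = a
    · subst h1; rwa [Equiv.swap_apply_left]
    · by_cases h2 : b = k
      · subst h2; rwa [Equiv.swap_apply_right]
      · rwa [Equiv.swap_apply_of_ne_of_ne h1 h2]
  ext b
  rw [Finset.mem_image]
  constructor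
  · rintro ⟨d, hd, rfl⟩
    exact key d hd
  · intro hb
    exact ⟨Equiv.swap a k b, key b hb, Equiv.swap_apply_self a k b⟩

theorem Mon.label {bar : S → S} {c : S → F} {bl : S → T}
    (hbl : ∀ s s', bl s = bl s' → bl (bar s) = bl (bar s'))
    {A : Finset J} {g : (J → S) → F}
    (h : Mon (blockForm bar c bl) A g) :
    ∀ w w', g w ≠ 0 → g w' ≠ 0 → ∀ a ∈ A, bl (w a) = bl (w' a) := by
  induction h with
  | nil => exact fun w w' _ _ a ha => absurd ha (Finset.notMem_empty a)
  | @cons A t a k τ ha hk hak h ih =>
    intro w w' hw hw' b hb
    have hw1 := left_ne_zero_of_mul hw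
    have hw2 := right_ne_zero_of_mul hw
    have hw1' := left_ne_zero_of_mul hw'
    have hw2' := right_ne_zero_of_mul hw'
    have x1 : bl (w a) = τ ∧ w k = bar (w a) := by
      by_contra h'
      exact hw1 (by simp only [blockForm]; rw [if_neg h'])
    have x2 : bl (w' a) = τ ∧ w' k = bar (w' a) := by
      by_contra h'
      exact hw1' (by simp only [blockForm]; rw [if_neg h'])
    rcases Finset.mem_insert.1 hb with h1 | h1
    · subst h1
      rw [x1.1, x2.1]
    · rcases Finset.mem_insert.1 h1 with h2 | h2
      · subst h2
        rw [x1.2, x2.2]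
        exact hbl _ _ (by rw [x1.1, x2.1])
      · exact ih w w' hw2 hw2' b h2

theorem num_congr [Fintype S] {bar : S → S} {bl : S → T}
    (hbl : ∀ s s', bl s = bl s' → bl (bar s) = bl (bar s')) {s s' : S} (h : bl s = bl s') :
    num bar bl s = num bar bl s' := by
  unfold num
  rw [h, hbl s s' h]

/-- step 4: the Casimir operator preserves the span of the matching products -/
theorem D_mon [Fintype S] {bar : S → S} {c : S → F} {bl : S → T}
    (hbl : ∀ s s', bl s = bl s' → bl (bar s) = bl (bar s'))
    {A : Finset J} {g : (J → S) → F}
    (h : Mon (blockForm bar c bl) A g) :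
    D bar bl A g ∈ Submodule.span F {g | Mon (blockForm bar c bl) A g} := by
  by_cases h0 : ∀ w, g w = 0
  · have : D bar bl A g = 0 := by
      funext w
      simp [D, h0]
    rw [this]
    exact Submodule.zero_mem _
  · push Not at h0
    obtain ⟨w0, hw0⟩ := h0
    have hlab := Mon.label hbl h
    have hD : D bar bl A g = ∑ a ∈ A, (num bar bl (w0 a) • g +
        ∑ k ∈ A.erase a, if bl (w0 k) = bl (w0 a) then (fun w => g (w ∘ Equiv.swap a k)) else 0) := by
      funext w
      rw [Finset.sum_apply]
      unfold D
      apply Finset.sum_congr rfl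
      intro a ha
      rw [Pi.add_apply, Pi.smul_apply, Finset.sum_apply]
      congr 1
      · by_cases hw : g w = 0
        · rw [hw, smul_zero, smul_zero]
        · rw [num_congr hbl (hlab w w0 hw hw0 a ha)]
      · rw [Finset.sum_filter]
        apply Finset.sum_congr rfl
        intro k hk
        have hkA : k ∈ A := (Finset.mem_erase.1 hk).2
        by_cases hw : g (w ∘ Equiv.swap a k) = 0
        · rw [hw, ite_self]
          by_cases h1 : bl (w0 k) = bl (w0 a)
          · rw [if_pos h1, hw]
          · rw [if_neg h1, Pi.zero_apply]
        · have x1 := hlab _ w0 hw hw0 a ha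
          have x2 := hlab _ w0 hw hw0 k hkA
          simp only [Function.comp, Equiv.swap_apply_left, Equiv.swap_apply_right] at x1 x2
          by_cases h1 : bl (w0 k) = bl (w0 a)
          · rw [if_pos h1, if_pos (by rw [x1, x2, h1])]
          · rw [if_neg h1, if_neg (by rw [x1, x2]; exact fun e => h1 e.symm), Pi.zero_apply]
    rw [hD]
    apply Submodule.sum_mem
    intro a ha
    apply Submodule.add_mem
    · exact Submodule.smul_of_tower_mem _ _ (Submodule.subset_span h)
    · apply Submodule.sum_mem
      intro k hk
      have hkA : k ∈ A := (Finset.mem_erase.1 hk).2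
      by_cases h1 : bl (w0 k) = bl (w0 a)
      · rw [if_pos h1]
        apply Submodule.subset_span
        have := Mon.map (Equiv.swap a k) h
        rw [image_swap ha hkA] at this
        exact this
      · rw [if_neg h1]
        exact Submodule.zero_mem _

/-! ### positivity -/

/-- the substitution `(u, w) ↦ (w k, w[k := u])` -/
def subEquiv (S J : Type*) [DecidableEq J] (k : J) : S × (J → S) ≃ S × (J → S) where
  toFun p := (p.2 k, Function.update p.2 k p.1)
  invFun p := (p.2 k, Function.update p.2 k p.1)
  left_inv p := by
    ext1
    · simp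
    · simp
  right_inv p := by
    ext1
    · simp
    · simp

theorem pair_sum [Fintype S] [Fintype J] (bl : S → T) (t : (J → S) → ℚ) (k j : J) :
    ∑ u : S, ∑ v : S, (if bl u = bl v then
      ∑ w : J → S, (if w k = v then t (Function.update w k u) else 0) *
        (if w j = v then t (Function.update w j u) else 0) else 0) =
    if j = k then ∑ w : J → S, ((univ.filter (fun v => bl v = bl (w k))).card : ℚ) * (t w * t w)
    else ∑ w : J → S, (if bl (w j) = bl (w k) then t w * t (w ∘ Equiv.swap k j) else 0) := by
  have h1 : ∑ u : S, ∑ v : S, (if bl u = bl v then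
      ∑ w : J → S, (if w k = v then t (Function.update w k u) else 0) *
        (if w j = v then t (Function.update w j u) else 0) else 0) =
      ∑ p : S × (J → S), (if bl p.1 = bl (p.2 k) then
        (if p.2 j = p.2 k then t (Function.update p.2 k p.1) * t (Function.update p.2 j p.1)
          else 0) else 0) := by
    rw [Fintype.sum_prod_type]
    apply Finset.sum_congr rfl
    intro u _
    have h2 : ∀ v, (if bl u = bl v then
      ∑ w : J → S, (if w k = v then t (Function.update w k u) else 0) *
        (if w j = v then t (Function.update w j u) else 0) else 0) =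
        ∑ w : J → S, (if v = w k then (if bl u = bl (w k) then
          (if w j = w k then t (Function.update w k u) * t (Function.update w j u) else 0)
          else 0) else 0) := by
      intro v
      by_cases hb : bl u = bl v
      · rw [if_pos hb]
        apply Finset.sum_congr rfl
        intro w _
        by_cases hk : w k = v
        · subst hk
          rw [if_pos rfl, if_pos rfl, if_pos hb]
          by_cases hj : w j = w k
          · rw [if_pos hj, if_pos hj]
          · rw [if_neg hj, if_neg hj, mul_zero]
        · rw [if_neg hk, if_neg (Ne.symm hk), zero_mul]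
      · rw [if_neg hb]
        symm
        apply Finset.sum_eq_zero
        intro w _
        by_cases hk : v = w k
        · subst hk
          rw [if_pos rfl, if_neg hb]
        · rw [if_neg hk]
    simp_rw [h2]
    rw [Finset.sum_comm]
    apply Finset.sum_congr rfl
    intro w _
    rw [Finset.sum_ite_eq']
    simp
  rw [h1, ← (subEquiv S J k).sum_comp]
  simp only [subEquiv, Equiv.coe_fn_mk, Function.update_self, Function.update_idem,
    Function.update_eq_self]
  by_cases hj : j = k
  · subst hj
    rw [if_pos rfl, Fintype.sum_prod_type, Finset.sum_comm]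
    apply Finset.sum_congr rfl
    intro w _
    simp only [Function.update_self, Function.update_idem, Function.update_eq_self, if_true]
    rw [← Finset.sum_filter, Finset.sum_const, nsmul_eq_mul]
    congr 2
    congr 1
    ext v
    simp [eq_comm]
  · rw [if_neg hj, Fintype.sum_prod_type, Finset.sum_comm]
    apply Finset.sum_congr rfl
    intro w _
    have h3 : ∀ u, (if bl (w k) = bl u then
        (if Function.update w k u j = u then
          t w * t (Function.update (Function.update w k u) j (w k)) else 0) else 0) =
        if u = w j then (if bl (w j) = bl (w k) then t w * t (w ∘ Equiv.swap k j) else 0)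
          else 0 := by
      intro u
      rw [Function.update_of_ne hj]
      by_cases hu : u = w j
      · subst hu
        rw [if_pos rfl, if_pos rfl, swap_eq w (Ne.symm hj)]
        by_cases hb : bl (w j) = bl (w k)
        · rw [if_pos hb, if_pos hb.symm]
        · rw [if_neg hb, if_neg (Ne.symm hb)]
      · rw [if_neg (Ne.symm hu), if_neg hu, ite_self]
    simp_rw [h3]
    rw [Finset.sum_ite_eq']
    simp

/-- sum of squares -/
theorem sum_sq [Fintype S] [Fintype J] (bar : S → S) (bl : S → T) (A : Finset J)
    (t : (J → S) → ℚ) :
    ∑ w : J → S, t w * D bar bl A t w =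
      ∑ u : S, ∑ v : S, (if bl u = bl v then
        ∑ w : J → S, (∑ k ∈ A, if w k = v then t (Function.update w k u) else 0) ^ 2 else 0) +
      ∑ w : J → S, ∑ a ∈ A, (if bl (bar (w a)) = bl (w a) then 1 else 0 : ℚ) * (t w * t w) := by
  have h1 : ∑ u : S, ∑ v : S, (if bl u = bl v then
        ∑ w : J → S, (∑ k ∈ A, if w k = v then t (Function.update w k u) else 0) ^ 2 else 0) =
      ∑ k ∈ A, ∑ j ∈ A, ∑ u : S, ∑ v : S, (if bl u = bl v then
        ∑ w : J → S, (if w k = v then t (Function.update w k u) else 0) *
        (if w j = v then t (Function.update w j u) else 0) else 0) := by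
    have h2 : ∀ u v : S, (if bl u = bl v then
        ∑ w : J → S, (∑ k ∈ A, if w k = v then t (Function.update w k u) else 0) ^ 2 else 0) =
        ∑ k ∈ A, ∑ j ∈ A, (if bl u = bl v then
        ∑ w : J → S, (if w k = v then t (Function.update w k u) else 0) *
        (if w j = v then t (Function.update w j u) else 0) else 0) := by
      intro u v
      by_cases hb : bl u = bl v
      · simp only [if_pos hb]
        have : ∀ w : J → S, (∑ k ∈ A, if w k = v then t (Function.update w k u) else 0) ^ 2 =
            ∑ k ∈ A, ∑ j ∈ A, (if w k = v then t (Function.update w k u) else 0) *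
              (if w j = v then t (Function.update w j u) else 0) := by
          intro w
          rw [sq, Finset.sum_mul_sum]
        simp_rw [this]
        rw [Finset.sum_comm]
        apply Finset.sum_congr rfl
        intro k _
        rw [Finset.sum_comm]
      · simp only [if_neg hb]
        simp
    simp_rw [h2]
    have h3 : ∀ u : S, ∑ v : S, ∑ k ∈ A, ∑ j ∈ A, (if bl u = bl v then
        ∑ w : J → S, (if w k = v then t (Function.update w k u) else 0) *
        (if w j = v then t (Function.update w j u) else 0) else 0) =
        ∑ k ∈ A, ∑ j ∈ A, ∑ v : S, (if bl u = bl v then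
        ∑ w : J → S, (if w k = v then t (Function.update w k u) else 0) *
        (if w j = v then t (Function.update w j u) else 0) else 0) := by
      intro u
      rw [Finset.sum_comm]
      apply Finset.sum_congr rfl
      intro k _
      rw [Finset.sum_comm]
    simp_rw [h3]
    rw [Finset.sum_comm]
    apply Finset.sum_congr rfl
    intro k _
    rw [Finset.sum_comm]
  rw [h1]
  simp_rw [pair_sum bl t]
  have h4 : ∀ k ∈ A, ∑ j ∈ A, (if j = k then
      ∑ w : J → S, ((univ.filter (fun v => bl v = bl (w k))).card : ℚ) * (t w * t w)
    else ∑ w : J → S, (if bl (w j) = bl (w k) then t w * t (w ∘ Equiv.swap k j) else 0)) =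
      ∑ w : J → S, (((univ.filter (fun v => bl v = bl (w k))).card : ℚ) * (t w * t w) +
        t w * ∑ j ∈ (A.erase k).filter (fun j => bl (w j) = bl (w k)),
          t (w ∘ Equiv.swap k j)) := by
    intro k hk
    rw [← Finset.add_sum_erase A _ hk, if_pos rfl, Finset.sum_add_distrib]
    congr 1
    have h5 : ∀ j ∈ A.erase k, (if j = k then
      ∑ w : J → S, ((univ.filter (fun v => bl v = bl (w k))).card : ℚ) * (t w * t w)
      else ∑ w : J → S, (if bl (w j) = bl (w k) then t w * t (w ∘ Equiv.swap k j) else 0)) =
      ∑ w : J → S, (if bl (w j) = bl (w k) then t w * t (w ∘ Equiv.swap k j) else 0) := by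
      intro j hj
      rw [if_neg (Finset.mem_erase.1 hj).1]
    rw [Finset.sum_congr rfl h5, Finset.sum_comm]
    apply Finset.sum_congr rfl
    intro w _
    rw [Finset.sum_filter, Finset.mul_sum]
    apply Finset.sum_congr rfl
    intro j _
    by_cases hb : bl (w j) = bl (w k)
    · rw [if_pos hb, if_pos hb]
    · rw [if_neg hb, if_neg hb, mul_zero]
  rw [Finset.sum_congr rfl h4, Finset.sum_comm (s := A), ← Finset.sum_add_distrib]
  apply Finset.sum_congr rfl
  intro w _
  unfold D
  rw [Finset.mul_sum, ← Finset.sum_add_distrib]
  apply Finset.sum_congr rfl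
  intro a _
  unfold num
  rw [nsmul_eq_mul]
  push_cast
  ring

theorem inj_rat [Fintype S] [Fintype J] (bar : S → S) (bl : S → T) {A : Finset J}
    (hA : A.Nonempty) (t : (J → S) → ℚ) (h : ∀ w, D bar bl A t w = 0) : ∀ w, t w = 0 := by
  have h1 := sum_sq bar bl A t
  have h0 : ∑ w : J → S, t w * D bar bl A t w = 0 :=
    Finset.sum_eq_zero (fun w _ => by rw [h w, mul_zero])
  rw [h0] at h1
  have p1 : ∀ u v : S, 0 ≤ (if bl u = bl v then
        ∑ w : J → S, (∑ k ∈ A, if w k = v then t (Function.update w k u) else 0) ^ 2 else 0) := by
    intro u v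
    by_cases hb : bl u = bl v
    · rw [if_pos hb]
      exact Finset.sum_nonneg (fun w _ => sq_nonneg _)
    · rw [if_neg hb]
  have p2 : 0 ≤ ∑ w : J → S, ∑ a ∈ A,
      (if bl (bar (w a)) = bl (w a) then 1 else 0 : ℚ) * (t w * t w) := by
    apply Finset.sum_nonneg
    intro w _
    apply Finset.sum_nonneg
    intro a _
    apply mul_nonneg
    · by_cases hb : bl (bar (w a)) = bl (w a)
      · rw [if_pos hb]; exact zero_le_one
      · rw [if_neg hb]
    · exact mul_self_nonneg _
  have p3 : 0 ≤ ∑ u : S, ∑ v : S, (if bl u = bl v then
        ∑ w : J → S, (∑ k ∈ A, if w k = v then t (Function.update w k u) else 0) ^ 2 else 0) :=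
    Finset.sum_nonneg (fun u _ => Finset.sum_nonneg (fun v _ => p1 u v))
  have p4 : ∑ u : S, ∑ v : S, (if bl u = bl v then
        ∑ w : J → S, (∑ k ∈ A, if w k = v then t (Function.update w k u) else 0) ^ 2 else 0) = 0 := by
    linarith
  rw [Finset.sum_eq_zero_iff_of_nonneg
    (fun u _ => Finset.sum_nonneg (fun v _ => p1 u v))] at p4
  intro w
  obtain ⟨a, ha⟩ := hA
  have p5 := p4 (w a) (Finset.mem_univ _)
  rw [Finset.sum_eq_zero_iff_of_nonneg (fun v _ => p1 (w a) v)] at p5
  have p6 := p5 (w a) (Finset.mem_univ _)
  rw [if_pos rfl, Finset.sum_eq_zero_iff_of_nonneg (fun w _ => sq_nonneg _)] at p6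
  have p7 := p6 w (Finset.mem_univ _)
  have p8 : ∑ k ∈ A, (if w k = w a then t (Function.update w k (w a)) else 0) =
      ((A.filter (fun k => w k = w a)).card : ℚ) * t w := by
    rw [← Finset.sum_filter]
    rw [Finset.sum_congr rfl (g := fun _ => t w)]
    · rw [Finset.sum_const, nsmul_eq_mul]
    · intro k hk
      rw [← (Finset.mem_filter.1 hk).2, Function.update_eq_self]
  rw [p8] at p7
  have p9 := pow_eq_zero_iff (two_ne_zero) |>.1 p7
  rcases mul_eq_zero.1 p9 with h2 | h2
  · exfalso
    have : (A.filter (fun k => w k = w a)).card ≠ 0 := by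
      rw [Finset.card_ne_zero]
      exact ⟨a, Finset.mem_filter.2 ⟨ha, rfl⟩⟩
    exact this (by exact_mod_cast h2)
  · exact h2

/-- step 5: the Casimir operator is injective -/
theorem inj [CharZero F] [Fintype S] [Fintype J] (bar : S → S) (bl : S → T) {A : Finset J}
    (hA : A.Nonempty) (t : (J → S) → F) (h : ∀ w, D bar bl A t w = 0) : ∀ w, t w = 0 := by
  intro w
  by_contra hw
  obtain ⟨φ, hφ⟩ : ∃ φ : Module.Dual ℚ F, φ (t w) ≠ 0 := by
    by_contra h'
    push Not at h'
    exact hw ((Module.forall_dual_apply_eq_zero_iff ℚ (t w)).1 h')
  apply hφ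
  apply inj_rat bar bl hA (fun w => φ (t w)) _ w
  intro w
  have h1 : D bar bl A (fun w => φ (t w)) w = φ (D bar bl A t w) := by
    unfold D
    rw [map_sum]
    apply Finset.sum_congr rfl
    intro a _
    rw [map_add, map_nsmul, map_sum]
  rw [h1, h w, map_zero]

/-! ### the theorem -/

/-- the Casimir operator as a linear map -/
def Dlin [Fintype S] (bar : S → S) (bl : S → T) (A : Finset J) :
    ((J → S) → F) →ₗ[F] ((J → S) → F) where
  toFun t := D bar bl A t
  map_add' t t' := by
    funext w
    simp only [D, Pi.add_apply, smul_add, Finset.sum_add_distrib]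
    abel
  map_smul' r t := by
    funext w
    simp only [D, Pi.smul_apply, smul_eq_mul, RingHom.id_apply, Finset.mul_sum, mul_add,
      mul_smul_comm]

theorem D_span [Fintype S] {bar : S → S} {c : S → F} {bl : S → T}
    (hbl : ∀ s s', bl s = bl s' → bl (bar s) = bl (bar s'))
    {A : Finset J} {g : (J → S) → F}
    (h : g ∈ Submodule.span F {g | Mon (blockForm bar c bl) A g}) :
    Dlin bar bl A g ∈ Submodule.span F {g | Mon (blockForm bar c bl) A g} := by
  refine Submodule.span_induction (p := fun g _ => Dlin bar bl A g ∈
    Submodule.span F {g | Mon (blockForm bar c bl) A g}) ?_ ?_ ?_ ?_ h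
  · intro x hx
    exact D_mon hbl hx
  · rw [map_zero]; exact Submodule.zero_mem _
  · intro x y _ _ hx hy
    rw [map_add]; exact Submodule.add_mem _ hx hy
  · intro r x _ hx
    rw [map_smul]; exact Submodule.smul_mem _ _ hx

theorem mul_span {B : T → S → S → F} {A : Finset J} {a k : J} (hak : a ≠ k) (ha : a ∈ A)
    (hk : k ∈ A) (τ : T) {g : (J → S) → F}
    (h : g ∈ Submodule.span F {g | Mon B ((A.erase a).erase k) g}) :
    (fun w => B τ (w a) (w k) * g w) ∈ Submodule.span F {g | Mon B A g} := by
  have hA : insert a (insert k ((A.erase a).erase k)) = A := by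
    rw [Finset.insert_erase (Finset.mem_erase.2 ⟨hak.symm, hk⟩), Finset.insert_erase ha]
  refine Submodule.span_induction (p := fun g _ => (fun w => B τ (w a) (w k) * g w) ∈
    Submodule.span F {g | Mon B A g}) ?_ ?_ ?_ ?_ h
  · intro x hx
    apply Submodule.subset_span
    have := Mon.cons (B := B) a k τ (by simp) (by simp) hak hx
    rw [hA] at this
    exact this
  · have : (fun w : J → S => B τ (w a) (w k) * (0 : (J → S) → F) w) = 0 := by
      funext w; simp
    rw [this]; exact Submodule.zero_mem _
  · intro x y _ _ hx hy
    have : (fun w : J → S => B τ (w a) (w k) * (x + y) w) =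
        (fun w => B τ (w a) (w k) * x w) + (fun w => B τ (w a) (w k) * y w) := by
      funext w; simp [mul_add]
    rw [this]; exact Submodule.add_mem _ hx hy
  · intro r x _ hx
    have : (fun w : J → S => B τ (w a) (w k) * (r • x) w) =
        r • (fun w => B τ (w a) (w k) * x w) := by
      funext w; simp only [Pi.smul_apply, smul_eq_mul]; ring
    rw [this]; exact Submodule.smul_mem _ _ hx

theorem main [CharZero F] [Fintype S] [Fintype T] [Fintype J]
    (bar : S → S) (c : S → F) (bl : S → T)
    (hbb : ∀ s, bar (bar s) = s) (hc : ∀ s, c s ≠ 0) (hcb : ∀ s, c (bar s) = - c s)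
    (hbl : ∀ s s', bl s = bl s' → bl (bar s) = bl (bar s')) :
    ∀ (n : ℕ) (A : Finset J), A.card = n → ∀ t : (J → S) → F, Dep A t → InvA bar c bl A t →
      t ∈ Submodule.span F {g | Mon (blockForm bar c bl) A g} := by
  intro n
  induction n using Nat.strong_induction_on with
  | _ n IH =>
  intro A hAn t hdep hinv
  rcases Finset.eq_empty_or_nonempty A with hA | hA
  · subst hA
    by_cases hw : Nonempty (J → S)
    · have h1 : t = t hw.some • (fun _ : J → S => (1 : F)) := by
        funext w
        simp only [Pi.smul_apply, smul_eq_mul, mul_one]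
        exact hdep w hw.some (fun a ha => absurd ha (Finset.notMem_empty a))
      rw [h1]
      exact Submodule.smul_mem _ _ (Submodule.subset_span Mon.nil)
    · have h1 : t = 0 := by
        funext w
        exact absurd ⟨w⟩ hw
      rw [h1]
      exact Submodule.zero_mem _
  · set M := Submodule.span F {g | Mon (blockForm bar c bl) A g} with hM
    -- `D t ∈ M`
    have hDt : Dlin bar bl A t ∈ M := by
      have h1 : Dlin bar bl A t = ∑ a ∈ A, ∑ k ∈ A.erase a, ∑ τ : T,
          (fun w => blockForm bar c bl τ (w a) (w k) * kap bar c bl a k τ t w) := by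
        funext w
        rw [Finset.sum_apply]
        simp_rw [Finset.sum_apply]
        exact D_eq bar c bl hbb hc hcb A t hinv w
      rw [h1]
      apply Submodule.sum_mem
      intro a ha
      apply Submodule.sum_mem
      intro k hk
      apply Submodule.sum_mem
      intro τ _
      have hkA : k ∈ A := (Finset.mem_erase.1 hk).2
      have hak : a ≠ k := (Finset.mem_erase.1 hk).1.symm
      apply mul_span hak ha hkA τ
      have hcard : ((A.erase a).erase k).card < n := by
        rw [← hAn]
        calc ((A.erase a).erase k).card ≤ (A.erase a).card := Finset.card_erase_le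
          _ < A.card := Finset.card_erase_lt_of_mem ha
      exact IH _ hcard _ rfl _ (kap_dep bar c bl a k τ A t hdep)
        (kap_inv bar c bl hbb hc hcb hbl a k hak τ A ha hkA t hinv)
    -- `D` is injective
    have hinj : Function.Injective (Dlin (F := F) bar bl A) := by
      rw [← LinearMap.ker_eq_bot, LinearMap.ker_eq_bot']
      intro m hm
      funext w
      exact inj bar bl hA m (fun w => congrFun hm w) w
    -- restriction to `M`
    have hres : Function.Injective ((Dlin (F := F) bar bl A).restrict
        (p := M) (q := M) (fun g hg => D_span hbl hg)) := by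
      intro x y hxy
      have := congrArg Subtype.val hxy
      simp only [LinearMap.coe_restrict_apply] at this
      exact Subtype.ext (hinj this)
    have hsurj := LinearMap.surjective_of_injective hres
    obtain ⟨s, hs⟩ := hsurj ⟨_, hDt⟩
    have h2 : Dlin bar bl A (s : (J → S) → F) = Dlin bar bl A t := by
      have := congrArg Subtype.val hs
      simpa only [LinearMap.coe_restrict_apply] using this
    rw [← hinj h2]
    exact s.2

end Cas

/-- **First fundamental theorem in coordinates.** -/
theorem fft {F : Type*} [Field F] [CharZero F] {S T J : Type*} [DecidableEq S] [DecidableEq T]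
    [DecidableEq J] [Fintype S] [Fintype T] [Fintype J]
    (bar : S → S) (c : S → F) (bl : S → T)
    (hbar : ∀ s, bar (bar s) = s) (_hbar' : ∀ s, bar s ≠ s)
    (hc : ∀ s, c s ≠ 0) (hcb : ∀ s, c (bar s) = - c s)
    (hbl : ∀ s s', bl s = bl s' → bl (bar s) = bl (bar s'))
    (t : (J → S) → F) (ht : IsInv bar c bl t) :
    t ∈ Submodule.span F {g | Mon (blockForm bar c bl) Finset.univ g} :=
  Cas.main bar c bl hbar hc hcb hbl _ Finset.univ rfl t
    (fun w w' h => by
      have : w = w' := funext (fun a => h a (Finset.mem_univ a))
      rw [this]) ht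

end Pool.Agent.OneRed
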