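import Pool.Agent.OneRed.Defs

/-!
# One reduction: root vectors

A space `𝔞` of endomorphisms closed under brackets, contained in `𝔰𝔭`, and containing a generic
diagonal element, is spanned by its diagonal elements and root vectors; roots are transitive;
with complements for the `𝔞`-stable subspaces, roots are symmetric.
-/

namespace Pool.Agent.OneRed

open Module Function

variable {F V S : Type*} [Field F] [AddCommGroup V] [Module F V] [DecidableEq S]

/-- matrix units -/
noncomputable def mu (b : Basis S F V) (u v : S) : V →ₗ[F] V := (b.coord v).smulRight (b u)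

/-- root vectors -/
noncomputable def rv (b : Basis S F V) (bar : S → S) (c : S → F) (u v : S) : V →ₗ[F] V :=
  mu b u v - (c u / c v) • mu b (bar v) (bar u)

theorem mu_apply (b : Basis S F V) (u v x : S) :
    mu b u v (b x) = if x = v then b u else 0 := by
  rw [mu, LinearMap.smulRight_apply, Basis.coord_apply, Basis.repr_self, Finsupp.single_apply]
  split_ifs <;> simp

theorem mu_comp (b : Basis S F V) (u v x y : S) :
    mu b u v ∘ₗ mu b x y = if x = v then mu b u y else 0 := by
  refine b.ext fun z => ?_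
  rw [LinearMap.comp_apply, mu_apply]
  by_cases hz : z = y
  · rw [if_pos hz, mu_apply]
    by_cases hx : x = v
    · rw [if_pos hx, if_pos hx, mu_apply, if_pos hz]
    · rw [if_neg hx, if_neg hx, LinearMap.zero_apply]
  · rw [if_neg hz, map_zero]
    by_cases hx : x = v
    · rw [if_pos hx, mu_apply, if_neg hz]
    · rw [if_neg hx, LinearMap.zero_apply]

theorem rv_apply (b : Basis S F V) (bar : S → S) (c : S → F) (u v x : S) :
    rv b bar c u v (b x) = (if x = v then b u else 0) -
      (c u / c v) • (if x = bar u then b (bar v) else 0) := by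
  rw [rv, LinearMap.sub_apply, LinearMap.smul_apply, mu_apply, mu_apply]

/-- `𝔞` with a generic diagonal element -/
structure LieData (b : Basis S F V) (bar : S → S) (c d : S → F)
    (𝔞 : Submodule F (V →ₗ[F] V)) : Prop where
  bb : ∀ s, bar (bar s) = s
  bn : ∀ s, bar s ≠ s
  cn : ∀ s, c s ≠ 0
  cb : ∀ s, c (bar s) = - c s
  bracket : ∀ X ∈ 𝔞, ∀ Y ∈ 𝔞, X ∘ₗ Y - Y ∘ₗ X ∈ 𝔞
  diag : ∃ H ∈ 𝔞, ∀ s, H (b s) = d s • b s
  sep : ∀ u v u' v', u ≠ v → ¬ (u' = u ∧ v' = v) → ¬ (u' = bar v ∧ v' = bar u) →
    d u' - d v' ≠ d u - d v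
  sp : ∀ X ∈ 𝔞, ∀ u v, b.repr (X (b v)) u * c u + b.repr (X (b (bar u))) (bar v) * c v = 0

variable {b : Basis S F V} {bar : S → S} {c d : S → F} {𝔞 : Submodule F (V →ₗ[F] V)}

theorem diag_repr {H : V →ₗ[F] V} (hH : ∀ s, H (b s) = d s • b s) (x : V) (s : S) :
    b.repr (H x) s = d s * b.repr x s := by
  have h1 : (b.coord s) ∘ₗ H = d s • b.coord s := by
    refine b.ext fun z => ?_
    rw [LinearMap.comp_apply, hH, LinearMap.smul_apply, map_smul, Basis.coord_apply,
      Basis.repr_self, Finsupp.single_apply]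
    split_ifs with h
    · rw [h]
    · simp
  have h2 := LinearMap.congr_fun h1 x
  simpa using h2

namespace LieData

theorem bar_inj (L : LieData b bar c d 𝔞) {s t : S} : bar s = bar t ↔ s = t :=
  ⟨fun e => by rw [← L.bb s, e, L.bb], fun e => by rw [e]⟩

theorem d_bar (L : LieData b bar c d 𝔞) (s : S) : d (bar s) = - d s := by
  obtain ⟨H, hH, h⟩ := L.diag
  have h1 := L.sp H hH s s
  rw [diag_repr h, diag_repr h, Basis.repr_self, Basis.repr_self, Finsupp.single_eq_same,
    Finsupp.single_eq_same] at h1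
  have h2 := L.cn s
  have h3 : (d s + d (bar s)) * c s = 0 := by linear_combination h1
  rcases mul_eq_zero.1 h3 with h4 | h4
  · linear_combination h4
  · exact absurd h4 h2

theorem d_inj (L : LieData b bar c d 𝔞) {s t : S} (h : s ≠ t) : d s ≠ d t := by
  intro e
  have := L.sep s t s s h (fun h1 => h h1.2) (fun h1 => L.bn s h1.2.symm)
  apply this
  rw [e]

/-- root vectors from nonzero entries -/
theorem root_mem [CharZero F] [Fintype S] (L : LieData b bar c d 𝔞) {X : V →ₗ[F] V} (hX : X ∈ 𝔞)
    {u v : S} (huv : u ≠ v) (h0 : b.repr (X (b v)) u ≠ 0) : rv b bar c u v ∈ 𝔞 := by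
  classical
  obtain ⟨H, hH, hHd⟩ := L.diag
  have key : ∀ Z : Finset F, ∃ Y ∈ 𝔞, ∀ u' v', b.repr (Y (b v')) u' =
      (∏ l ∈ Z, (d u' - d v' - l)) * b.repr (X (b v')) u' := by
    intro Z
    induction Z using Finset.induction_on with
    | empty => exact ⟨X, hX, fun u' v' => by simp⟩
    | insert l Z hl ih =>
      obtain ⟨Y, hY, h⟩ := ih
      refine ⟨H ∘ₗ Y - Y ∘ₗ H - l • Y, 𝔞.sub_mem (L.bracket H hH Y hY) (𝔞.smul_mem _ hY),
        fun u' v' => ?_⟩
      rw [Finset.prod_insert hl]
      simp only [LinearMap.sub_apply, LinearMap.comp_apply, LinearMap.smul_apply, map_sub,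
        map_smul, Finsupp.coe_sub, Pi.sub_apply, Finsupp.coe_smul, Pi.smul_apply, smul_eq_mul]
      rw [diag_repr hHd, hHd, map_smul, map_smul, Finsupp.smul_apply, h, smul_eq_mul]
      ring
  obtain ⟨Y, hY, h⟩ := key
    ((Finset.univ.image (fun p : S × S => d p.1 - d p.2)).erase (d u - d v))
  have hz : ∀ u' v', ¬ (u' = u ∧ v' = v) → ¬ (u' = bar v ∧ v' = bar u) →
      b.repr (Y (b v')) u' = 0 := by
    intro u' v' h1 h2
    rw [h]
    have h3 : d u' - d v' ∈ (Finset.univ.image (fun p : S × S => d p.1 - d p.2)).erase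
        (d u - d v) :=
      Finset.mem_erase.2 ⟨L.sep u v u' v' huv h1 h2,
        Finset.mem_image.2 ⟨(u', v'), Finset.mem_univ _, rfl⟩⟩
    rw [Finset.prod_eq_zero h3 (sub_self _), zero_mul]
  have hne : b.repr (Y (b v)) u ≠ 0 := by
    rw [h]
    refine mul_ne_zero (Finset.prod_ne_zero_iff.2 fun l hl => ?_) h0
    exact sub_ne_zero.2 (Finset.ne_of_mem_erase hl).symm
  have hsp := L.sp Y hY u v
  have hcv := L.cn v
  have hcu := L.cn u
  by_cases hvu : v = bar u
  · -- the root `2 d_u`
    have hYR : (2 : F) • Y = b.repr (Y (b v)) u • rv b bar c u v := by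
      refine b.ext fun x => b.repr.injective (Finsupp.ext fun s => ?_)
      rw [LinearMap.smul_apply, LinearMap.smul_apply, rv_apply, map_smul, map_smul,
        Finsupp.smul_apply, Finsupp.smul_apply, smul_eq_mul, smul_eq_mul, ← hvu]
      have hbv : bar v = u := by rw [hvu, L.bb]
      have hcc : c u / c v = -1 := by
        have := L.cb u
        rw [← hvu] at this
        rw [this]
        field_simp
      rw [hcc, hbv]
      by_cases hx : x = v
      · subst hx
        rw [if_pos rfl]
        by_cases hs : s = u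
        · subst hs
          simp
          ring
        · rw [hz s x (fun e => hs e.1) (fun e => hs (by rw [e.1, hbv]))]
          simp [Finsupp.single_apply, Ne.symm hs]
      · rw [if_neg hx, hz s x (fun e => hx e.2) (fun e => hx (by rw [e.2, hvu]))]
        simp
    have h2 : (2 : F) ≠ 0 := two_ne_zero
    have h3 : rv b bar c u v = ((b.repr (Y (b v)) u)⁻¹ * 2) • Y := by
      rw [mul_smul, hYR, smul_smul, inv_mul_cancel₀ hne, one_smul]
    rw [h3]
    exact 𝔞.smul_mem _ hY
  · have hYR : Y = b.repr (Y (b v)) u • rv b bar c u v := by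
      refine b.ext fun x => b.repr.injective (Finsupp.ext fun s => ?_)
      rw [LinearMap.smul_apply, rv_apply, map_smul, Finsupp.smul_apply, smul_eq_mul]
      have hvb : bar v ≠ u := fun e => hvu (by rw [← e, L.bb])
      by_cases hx : x = v
      · subst hx
        rw [if_pos rfl, if_neg hvu]
        by_cases hs : s = u
        · subst hs
          simp
        · rw [hz s x (fun e => hs e.1) (fun e => hvu e.2)]
          simp [Finsupp.single_apply, Ne.symm hs]
      · by_cases hx2 : x = bar u
        · subst hx2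
          rw [if_neg hx, if_pos rfl]
          by_cases hs : s = bar v
          · subst hs
            simp only [zero_sub, map_neg, map_smul, Basis.repr_self, Finsupp.coe_neg,
              Pi.neg_apply, Finsupp.coe_smul, Pi.smul_apply, Finsupp.single_eq_same, smul_eq_mul,
              mul_one]
            field_simp
            linear_combination hsp
          · rw [hz s (bar u) (fun e => hx e.2) (fun e => hs e.1)]
            simp [Finsupp.single_apply, Ne.symm hs]
        · rw [if_neg hx, if_neg hx2, hz s x (fun e => hx e.2) (fun e => hx2 e.2)]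
          simp
    have h3 : rv b bar c u v = (b.repr (Y (b v)) u)⁻¹ • Y := by
      conv_rhs => rw [hYR]
      rw [smul_smul]
      rw [← hYR, inv_mul_cancel₀ hne, one_smul]
    rw [h3]
    exact 𝔞.smul_mem _ hY

/-- the root relation -/
def Rt (b : Basis S F V) (bar : S → S) (c : S → F) (𝔞 : Submodule F (V →ₗ[F] V)) (u v : S) :
    Prop := u = v ∨ rv b bar c u v ∈ 𝔞

theorem Rt_bar (L : LieData b bar c d 𝔞) {u v : S} (h : Rt b bar c 𝔞 u v) :
    Rt b bar c 𝔞 (bar v) (bar u) := by
  rcases h with h | h
  · left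
    rw [h]
  · right
    have hcv := L.cn v
    have hcu := L.cn u
    have h1 : rv b bar c (bar v) (bar u) = (-(c v / c u)) • rv b bar c u v := by
      rw [rv, rv, L.bb, L.bb, L.cb, L.cb, smul_sub, smul_smul]
      have h2 : -(c v / c u) * (c u / c v) = -1 := by field_simp
      have h3 : -c v / -c u = c v / c u := by rw [neg_div_neg_eq]
      rw [h2, h3]
      module
    rw [h1]
    exact 𝔞.smul_mem _ h

theorem Rt_trans [CharZero F] [Fintype S] (L : LieData b bar c d 𝔞) {u v w : S}
    (huv : Rt b bar c 𝔞 u v) (hvw : Rt b bar c 𝔞 v w) : Rt b bar c 𝔞 u w := by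
  by_cases h1 : u = v
  · rw [h1]
    exact hvw
  by_cases h2 : v = w
  · rw [← h2]
    exact huv
  by_cases h3 : u = w
  · exact Or.inl h3
  have hR1 := huv.resolve_left h1
  have hR2 := hvw.resolve_left h2
  right
  refine L.root_mem (L.bracket _ hR1 _ hR2) h3 ?_
  have hcv := L.cn v
  have hcu := L.cn u
  have hcw := L.cn w
  have e1 : rv b bar c v w (b w) = (1 + if w = bar v then 1 else 0 : F) • b v := by
    rw [rv_apply, if_pos rfl]
    by_cases h : w = bar v
    · rw [if_pos h, if_pos h]
      have : c v / c w = -1 := by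
        have h5 := L.cb v
        rw [← h] at h5
        rw [h5]
        field_simp
      rw [this, h, L.bb]
      module
    · rw [if_neg h, if_neg h]
      module
  have e2 : rv b bar c u v (b v) = (1 + if v = bar u then 1 else 0 : F) • b u := by
    rw [rv_apply, if_pos rfl]
    by_cases h : v = bar u
    · rw [if_pos h, if_pos h]
      have : c u / c v = -1 := by
        have h5 := L.cb u
        rw [← h] at h5
        rw [h5]
        field_simp
      rw [this, h, L.bb]
      module
    · rw [if_neg h, if_neg h]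
      module
  have e3 : rv b bar c v w (rv b bar c u v (b w)) = (if w = bar u then -1 else 0 : F) • b u := by
    rw [rv_apply, if_neg (Ne.symm h2)]
    by_cases h : w = bar u
    · rw [if_pos h, if_pos h, map_sub, map_smul, map_zero, rv_apply]
      have h4 : bar v ≠ w := by
        rw [h]
        exact fun e => h1 ((L.bar_inj).1 e).symm
      have h5 : bar w = u := by rw [h, L.bb]
      have h6 : c w = - c u := by rw [h, L.cb]
      rw [if_neg h4, if_pos rfl, h5, h6, zero_sub, zero_sub, smul_neg, neg_neg, smul_smul]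
      congr 1
      field_simp
    · rw [if_neg h, if_neg h, smul_zero, sub_zero, map_zero, zero_smul]
  rw [LinearMap.sub_apply, LinearMap.comp_apply, LinearMap.comp_apply, e1, map_smul, e2, e3,
    smul_smul, ← sub_smul, map_smul, Finsupp.smul_apply, Basis.repr_self, Finsupp.single_eq_same,
    smul_eq_mul, mul_one]
  split_ifs <;> norm_num

/-- stable subspaces -/
def Stab (𝔞 : Submodule F (V →ₗ[F] V)) (W : Submodule F V) : Prop :=
  ∀ X ∈ 𝔞, ∀ x ∈ W, X x ∈ W

/-- stable subspaces are coordinate subspaces -/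
theorem coord_mem [Fintype S] (L : LieData b bar c d 𝔞) {W : Submodule F V} (hW : Stab 𝔞 W)
    {x : V} (hx : x ∈ W) {s : S} (hs : b.repr x s ≠ 0) : b s ∈ W := by
  obtain ⟨H, hH, hHd⟩ := L.diag
  have key : ∀ Z : Finset S, ∃ y ∈ W, ∀ t, b.repr y t =
      (∏ z ∈ Z, (d t - d z)) * b.repr x t := by
    intro Z
    induction Z using Finset.induction_on with
    | empty => exact ⟨x, hx, fun t => by simp⟩
    | insert z Z hz ih =>
      obtain ⟨y, hy, h⟩ := ih
      refine ⟨H y - d z • y, W.sub_mem (hW H hH y hy) (W.smul_mem _ hy), fun t => ?_⟩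
      rw [Finset.prod_insert hz, map_sub, map_smul, Finsupp.sub_apply, Finsupp.smul_apply,
        diag_repr hHd, h, smul_eq_mul]
      ring
  obtain ⟨y, hy, h⟩ := key (Finset.univ.erase s)
  have h1 : y = b.repr y s • b s := by
    refine b.repr.injective (Finsupp.ext fun t => ?_)
    rw [map_smul, Finsupp.smul_apply, Basis.repr_self, Finsupp.single_apply, smul_eq_mul]
    by_cases ht : s = t
    · rw [if_pos ht, ht, mul_one]
    · rw [if_neg ht, mul_zero, h,
        Finset.prod_eq_zero (Finset.mem_erase.2 ⟨Ne.symm ht, Finset.mem_univ t⟩) (sub_self _),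
        zero_mul]
  have h2 : b.repr y s ≠ 0 := by
    rw [h]
    exact mul_ne_zero (Finset.prod_ne_zero_iff.2 fun z hz =>
      sub_ne_zero.2 (L.d_inj (Finset.ne_of_mem_erase hz).symm)) hs
  have h3 : b s = (b.repr y s)⁻¹ • y := by
    conv_rhs => rw [h1]
    rw [smul_smul, ← h1, inv_mul_cancel₀ h2, one_smul]
  rw [h3]
  exact W.smul_mem _ hy

/-- coordinate subspaces -/
noncomputable def cs (b : Basis S F V) (P : S → Prop) : Submodule F V where
  carrier := {x | ∀ s, b.repr x s ≠ 0 → P s}
  add_mem' := by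
    intro x y hx hy s hs
    by_contra h
    have h1 : b.repr x s = 0 := by
      by_contra h2
      exact h (hx s h2)
    have h3 : b.repr y s = 0 := by
      by_contra h2
      exact h (hy s h2)
    apply hs
    rw [map_add, Finsupp.add_apply, h1, h3, add_zero]
  zero_mem' := by simp
  smul_mem' := by
    intro a x hx s hs
    apply hx s
    intro h
    apply hs
    rw [map_smul, Finsupp.smul_apply, h, smul_zero]

omit [DecidableEq S] in
theorem mem_cs {P : S → Prop} {x : V} : x ∈ cs b P ↔ ∀ s, b.repr x s ≠ 0 → P s := Iff.rfl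

omit [DecidableEq S] in
theorem basis_mem_cs {P : S → Prop} {s : S} : b s ∈ cs b P ↔ P s := by
  rw [mem_cs]
  constructor
  · intro h
    apply h
    rw [Basis.repr_self, Finsupp.single_eq_same]
    exact one_ne_zero
  · intro h t ht
    rw [Basis.repr_self] at ht
    by_cases hst : s = t
    · rw [← hst]
      exact h
    · exact absurd (Finsupp.single_eq_of_ne (Ne.symm hst)) ht

theorem eq_cs [Fintype S] (L : LieData b bar c d 𝔞) {W : Submodule F V} (hW : Stab 𝔞 W) :
    W = cs b (fun s => b s ∈ W) := by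
  ext x
  rw [mem_cs]
  constructor
  · intro hx s hs
    exact L.coord_mem hW hx hs
  · intro h
    rw [← b.sum_repr x]
    refine W.sum_mem fun s _ => ?_
    by_cases hs : b.repr x s = 0
    · rw [hs, zero_smul]
      exact W.zero_mem
    · exact W.smul_mem _ (h s hs)

/-- coordinate subspaces closed under the roots are stable -/
theorem stab_cs [CharZero F] [Fintype S] (L : LieData b bar c d 𝔞) {P : S → Prop}
    (hP : ∀ u v, P v → Rt b bar c 𝔞 u v → P u) : Stab 𝔞 (cs b P) := by
  intro X hX x hx s hs
  rw [← b.sum_repr x, map_sum, map_sum, Finsupp.finset_sum_apply] at hs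
  obtain ⟨v, -, hv⟩ := Finset.exists_ne_zero_of_sum_ne_zero hs
  rw [map_smul, map_smul, Finsupp.smul_apply, smul_eq_mul] at hv
  have h1 : P v := hx v (left_ne_zero_of_mul hv)
  refine hP s v h1 ?_
  by_cases hsv : s = v
  · exact Or.inl hsv
  · exact Or.inr (L.root_mem hX hsv (right_ne_zero_of_mul hv))

/-- symmetry of the roots -/
theorem Rt_symm [CharZero F] [Fintype S] (L : LieData b bar c d 𝔞)
    (hcomp : ∀ W, Stab 𝔞 W → ∃ C, Stab 𝔞 C ∧ IsCompl W C) {u v : S}
    (h : Rt b bar c 𝔞 u v) : Rt b bar c 𝔞 v u := by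
  by_cases huv : u = v
  · exact Or.inl huv.symm
  have hR := h.resolve_left huv
  by_contra hcon
  -- the letters reachable from `u` do not contain `v`
  obtain ⟨C, hC, hWC⟩ := hcomp (cs b fun s => Rt b bar c 𝔞 s u)
    (L.stab_cs fun x y hy hxy => L.Rt_trans hxy hy)
  have hvC : b v ∈ C := by
    have h1 : b v ∈ (cs b fun s => Rt b bar c 𝔞 s u) ⊔ C := by
      rw [hWC.sup_eq_top]
      trivial
    obtain ⟨y, hy, z, hz, hyz⟩ := Submodule.mem_sup.1 h1
    refine L.coord_mem hC hz ?_
    have h2 : b.repr y v = 0 := by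
      by_contra h3
      exact hcon (hy v h3)
    have h4 : b.repr (y + z) v = 1 := by
      rw [hyz, Basis.repr_self, Finsupp.single_eq_same]
    rw [map_add, Finsupp.add_apply, h2, zero_add] at h4
    rw [h4]
    exact one_ne_zero
  have h1 := hC _ hR _ hvC
  have h2 : b u ∈ C := by
    refine L.coord_mem hC h1 ?_
    rw [rv_apply, if_pos rfl, map_sub, Finsupp.sub_apply, Basis.repr_self,
      Finsupp.single_eq_same]
    by_cases hvu : v = bar u
    · have : c u / c v = -1 := by
        have h5 := L.cb u
        rw [← hvu] at h5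
        have := L.cn u
        rw [h5]
        field_simp
      rw [if_pos hvu, this]
      rw [map_smul, Finsupp.smul_apply, hvu, L.bb, Basis.repr_self, Finsupp.single_eq_same]
      norm_num
    · rw [if_neg hvu]
      simp
  have h3 : b u ∈ (cs b fun s => Rt b bar c 𝔞 s u) := basis_mem_cs.2 (Or.inl rfl)
  have h4 : b u ∈ (cs b fun s => Rt b bar c 𝔞 s u) ⊓ C := ⟨h3, h2⟩
  rw [hWC.inf_eq_bot, Submodule.mem_bot] at h4
  exact b.ne_zero u h4

/-- `[X_{u ū}, X_{ū u}] = 4 h_u` -/
theorem h_mem_self [CharZero F] (L : LieData b bar c d 𝔞) {u : S}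
    (h1 : rv b bar c u (bar u) ∈ 𝔞) (h2 : rv b bar c (bar u) u ∈ 𝔞) : rv b bar c u u ∈ 𝔞 := by
  have hcu := L.cn u
  have e1 : rv b bar c u (bar u) = (2 : F) • mu b u (bar u) := by
    rw [rv, L.bb, L.cb]
    have : c u / -c u = -1 := by field_simp
    rw [this]
    module
  have e2 : rv b bar c (bar u) u = (2 : F) • mu b (bar u) u := by
    rw [rv, L.bb, L.cb]
    have : -c u / c u = -1 := by field_simp
    rw [this]
    module
  have e3 : rv b bar c u u = mu b u u - mu b (bar u) (bar u) := by
    rw [rv, div_self hcu, one_smul]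
  have h3 := L.bracket _ h1 _ h2
  rw [e1, e2, LinearMap.smul_comp, LinearMap.comp_smul, LinearMap.smul_comp,
    LinearMap.comp_smul, mu_comp, mu_comp, if_pos rfl, if_pos rfl, smul_smul, smul_smul,
    ← smul_sub, ← e3] at h3
  have h4 : rv b bar c u u = ((2 : F) * 2)⁻¹ • ((2 : F) * 2) • rv b bar c u u := by
    rw [smul_smul, inv_mul_cancel₀ (by norm_num), one_smul]
  rw [h4]
  exact 𝔞.smul_mem _ h3

/-- `[X_{uv}, X_{vu}] = h_u - h_v` -/
theorem h_mem_diff (L : LieData b bar c d 𝔞) {u v : S} (huv : u ≠ v) (hub : v ≠ bar u)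
    (h1 : rv b bar c u v ∈ 𝔞) (h2 : rv b bar c v u ∈ 𝔞) :
    rv b bar c u u - rv b bar c v v ∈ 𝔞 := by
  have hcu := L.cn u
  have hcv := L.cn v
  have hub' : bar v ≠ u := fun e => hub (by rw [← e, L.bb])
  have h3 := L.bracket _ h1 _ h2
  have e : rv b bar c u v ∘ₗ rv b bar c v u - rv b bar c v u ∘ₗ rv b bar c u v =
      rv b bar c u u - rv b bar c v v := by
    simp only [rv, LinearMap.sub_comp, LinearMap.comp_sub, LinearMap.smul_comp,
      LinearMap.comp_smul, mu_comp, if_pos, if_neg hub, if_neg hub', if_neg hub.symm,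
      if_neg hub'.symm, smul_zero, sub_zero, zero_sub, smul_neg, neg_neg, smul_smul,
      div_self hcu, div_self hcv, one_smul]
    have e1 : c v / c u * (c u / c v) = 1 := by field_simp
    have e2 : c u / c v * (c v / c u) = 1 := by field_simp
    simp only [e1, e2, one_smul]
    module
  rw [← e]
  exact h3

end LieData

end Pool.Agent.OneRed
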