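import Pool.Agent.OneRed.Ann
import Pool.Agent.OneRed.Roots
import Mathlib.Algebra.Lie.Sl2

/-!
# One reduction: symmetry of the roots from `𝔰𝔩₂` theory

If the annihilator contains `X` and `H` of a triple `[X, Y] = H`, `[H, X] = 2 X`, `[H, Y] = -2 Y`,
then it contains `Y`.
-/

namespace Pool.Agent.OneRed

open Module Function

variable {F V Γ S : Type*} [Field F] [AddCommGroup V] [Module F V] [Group Γ]

section

variable {n : ℕ}

/-- the action of an endomorphism as a derivation on multilinear forms -/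
def dact (X : V →ₗ[F] V) :
    MultilinearMap F (fun _ : Fin n => V) F →ₗ[F] MultilinearMap F (fun _ : Fin n => V) F where
  toFun f := ∑ k, f.compLinearMap (update (fun _ => LinearMap.id) k X)
  map_add' f g := by
    ext v
    simp [Finset.sum_add_distrib]
  map_smul' a f := by
    ext v
    simp [Finset.mul_sum]

theorem dact_apply (X : V →ₗ[F] V) (f : MultilinearMap F (fun _ : Fin n => V) F)
    (v : Fin n → V) : dact X f v = ∑ k, f (update v k (X (v k))) := by
  change (∑ k, f.compLinearMap (update (fun _ => LinearMap.id) k X)) v = _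
  rw [sum_apply]
  refine Finset.sum_congr rfl fun k _ => ?_
  rw [MultilinearMap.compLinearMap_apply]
  congr 1
  funext i
  by_cases hik : i = k
  · subst hik
    simp
  · simp [update_of_ne hik]

theorem dact_comp (X Y : V →ₗ[F] V) (f : MultilinearMap F (fun _ : Fin n => V) F)
    (v : Fin n → V) : dact X (dact Y f) v = ∑ k, f (update v k (Y (X (v k)))) +
      ∑ k, ∑ l ∈ Finset.univ.erase k, f (update (update v k (X (v k))) l (Y (v l))) := by
  rw [dact_apply, ← Finset.sum_add_distrib]
  refine Finset.sum_congr rfl fun k _ => ?_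
  rw [dact_apply, ← Finset.add_sum_erase _ _ (Finset.mem_univ k)]
  congr 1
  · simp
  · refine Finset.sum_congr rfl fun l hl => ?_
    rw [update_of_ne (Finset.ne_of_mem_erase hl)]

theorem dact_bracket (X Y : V →ₗ[F] V) (f : MultilinearMap F (fun _ : Fin n => V) F) :
    dact X (dact Y f) - dact Y (dact X f) = dact (Y ∘ₗ X - X ∘ₗ Y) f := by
  ext v
  rw [sub_apply, dact_comp, dact_comp, dact_apply]
  have h3 : ∑ l, ∑ k ∈ Finset.univ.erase l, f (update (update v l (Y (v l))) k (X (v k))) =
      ∑ l, ∑ k ∈ Finset.univ.erase l, f (update (update v l (X (v l))) k (Y (v k))) := by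
    rw [Finset.sum_comm' (t' := Finset.univ) (s' := fun k => Finset.univ.erase k)]
    · refine Finset.sum_congr rfl fun k _ => Finset.sum_congr rfl fun l hl => ?_
      rw [update_comm (Finset.ne_of_mem_erase hl)]
    · intro x y
      simp only [Finset.mem_univ, Finset.mem_erase, true_and, and_true]
      exact ne_comm
  rw [h3]
  simp only [LinearMap.sub_apply, LinearMap.comp_apply, MultilinearMap.map_update_sub,
    Finset.sum_sub_distrib]
  ring

theorem dact_sub (X Y : V →ₗ[F] V) (f : MultilinearMap F (fun _ : Fin n => V) F) :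
    dact (X - Y) f = dact X f - dact Y f := by
  ext v
  rw [sub_apply, dact_apply, dact_apply, dact_apply]
  simp only [LinearMap.sub_apply, MultilinearMap.map_update_sub, Finset.sum_sub_distrib]

theorem dact_smul (a : F) (X : V →ₗ[F] V) (f : MultilinearMap F (fun _ : Fin n => V) F) :
    dact (a • X) f = a • dact X f := by
  ext v
  rw [smul_apply, dact_apply, dact_apply]
  simp only [LinearMap.smul_apply, MultilinearMap.map_update_smul, Finset.smul_sum]

attribute [local instance 100] LieRing.ofAssociativeRing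

/-- `𝔰𝔩₂`: a vector killed by `E` and `K = [E, G]` is killed by `G` -/
theorem sl2_abstract {M : Type*} [AddCommGroup M] [Module F M] [CharZero F]
    [FiniteDimensional F M] {E G K : Module.End F M} (e1 : ∀ x, E (G x) - G (E x) = K x)
    (e2 : ∀ x, K (E x) - E (K x) = (2 : F) • E x) (e3 : ∀ x, K (G x) - G (K x) = (-2 : F) • G x)
    {m : M} (hE : E m = 0) (hK : K m = 0) : G m = 0 := by
  have e1' : ⁅E, G⁆ = K := LinearMap.ext e1
  have e2' : ⁅K, E⁆ = 2 • E := by
    refine LinearMap.ext fun x => (e2 x).trans ?_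
    rw [ofNat_smul_eq_nsmul]
    rfl
  have e3' : ⁅K, G⁆ = -(2 • G) := by
    refine LinearMap.ext fun x => (e3 x).trans ?_
    rw [neg_smul, ofNat_smul_eq_nsmul]
    rfl
  by_cases hK0 : K = 0
  · have h1 := e3 m
    rw [hK0, LinearMap.zero_apply, LinearMap.zero_apply, map_zero, sub_zero] at h1
    exact (smul_eq_zero.1 h1.symm).resolve_left (neg_ne_zero.2 two_ne_zero)
  · by_contra hne
    have t : IsSl2Triple K E G := ⟨hK0, e1', e2', e3'⟩
    have hm : m ≠ 0 := by
      rintro rfl
      exact hne (map_zero _)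
    have P : IsSl2Triple.HasPrimitiveVectorWith t m (0 : F) :=
      { ne_zero := hm
        lie_h := by
          change K m = _
          rw [hK, zero_smul]
        lie_e := hE }
    have h5 := P.pow_toEnd_f_eq_zero_of_eq_nat (n := 0) (by simp)
    apply hne
    simpa using h5

/-- a form killed by `X` and by `H = [X, Y]` is killed by `Y` -/
theorem dact_sl2 [CharZero F] [FiniteDimensional F V] {X Y H : V →ₗ[F] V}
    (h1 : X ∘ₗ Y - Y ∘ₗ X = H) (h2 : H ∘ₗ X - X ∘ₗ H = (2 : F) • X)
    (h3 : H ∘ₗ Y - Y ∘ₗ H = (-2 : F) • Y) {f : MultilinearMap F (fun _ : Fin n => V) F}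
    (hX : dact X f = 0) (hH : dact H f = 0) : dact Y f = 0 := by
  have hneg : ∀ (A B : V →ₗ[F] V) (g : MultilinearMap F (fun _ : Fin n => V) F),
      dact (A - B) g = - dact (B - A) g := by
    intro A B g
    rw [dact_sub, dact_sub, neg_sub]
  refine sl2_abstract (E := dact X) (K := - dact H) (G := dact Y) (fun g => ?_) (fun g => ?_)
    (fun g => ?_) hX ?_
  · rw [dact_bracket, ← h1, LinearMap.neg_apply, hneg]
  · rw [LinearMap.neg_apply, LinearMap.neg_apply, map_neg, sub_neg_eq_add, neg_add_eq_sub,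
      dact_bracket, h2, dact_smul]
  · rw [LinearMap.neg_apply, LinearMap.neg_apply, map_neg, sub_neg_eq_add, neg_add_eq_sub,
      dact_bracket, h3, dact_smul]
  · rw [LinearMap.neg_apply, hH, neg_zero]

/-- `𝔰𝔩₂`: the weight of a vector killed by `E` is a natural number -/
theorem sl2_dom {M : Type*} [AddCommGroup M] [Module F M] [CharZero F]
    [FiniteDimensional F M] {E G K : Module.End F M} (e1 : ∀ x, E (G x) - G (E x) = K x)
    (e2 : ∀ x, K (E x) - E (K x) = (2 : F) • E x) (e3 : ∀ x, K (G x) - G (K x) = (-2 : F) • G x)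
    {m : M} {μ : F} (hm : m ≠ 0) (hE : E m = 0) (hK : K m = μ • m) : ∃ n : ℕ, μ = n := by
  have e1' : ⁅E, G⁆ = K := LinearMap.ext e1
  have e2' : ⁅K, E⁆ = 2 • E := by
    refine LinearMap.ext fun x => (e2 x).trans ?_
    rw [ofNat_smul_eq_nsmul]
    rfl
  have e3' : ⁅K, G⁆ = -(2 • G) := by
    refine LinearMap.ext fun x => (e3 x).trans ?_
    rw [neg_smul, ofNat_smul_eq_nsmul]
    rfl
  by_cases hK0 : K = 0
  · rw [hK0, LinearMap.zero_apply] at hK
    exact ⟨0, by rw [Nat.cast_zero]; exact (smul_eq_zero.1 hK.symm).resolve_right hm⟩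
  · have t : IsSl2Triple K E G := ⟨hK0, e1', e2', e3'⟩
    have P : IsSl2Triple.HasPrimitiveVectorWith t m μ :=
      { ne_zero := hm
        lie_h := hK
        lie_e := hE }
    exact P.exists_nat

/-- dominance: the words in the support of a form killed by `X` have weight `≤ 0` -/
theorem dact_dom [Fintype S] [CharZero F] {b : Basis S F V} {X Y H : V →ₗ[F] V}
    (h1 : X ∘ₗ Y - Y ∘ₗ X = H) (h2 : H ∘ₗ X - X ∘ₗ H = (2 : F) • X)
    (h3 : H ∘ₗ Y - Y ∘ₗ H = (-2 : F) • Y) {wt : S → F} (hH : ∀ s, H (b s) = wt s • b s)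
    {f : MultilinearMap F (fun _ : Fin n => V) F} (hX : dact X f = 0) {w₀ : Fin n → S}
    (hw₀ : f (fun k => b (w₀ k)) ≠ 0) : ∃ m : ℕ, ∑ k, wt (w₀ k) = - m := by
  classical
  have : FiniteDimensional F V := b.finiteDimensional_of_finite
  have hneg : ∀ (A B : V →ₗ[F] V) (g : MultilinearMap F (fun _ : Fin n => V) F),
      dact (A - B) g = - dact (B - A) g := by
    intro A B g
    rw [dact_sub, dact_sub, neg_sub]
  have hHw : ∀ (g : MultilinearMap F (fun _ : Fin n => V) F) (w : Fin n → S),
      dact H g (fun k => b (w k)) = (∑ k, wt (w k)) * g (fun k => b (w k)) := by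
    intro g w
    rw [dact_apply, Finset.sum_mul]
    refine Finset.sum_congr rfl fun k _ => ?_
    rw [hH, g.map_update_smul, smul_eq_mul]
    congr 2
    exact update_eq_self k (fun k => b (w k))
  have key : ∀ Z : Finset F, ∃ g : MultilinearMap F (fun _ : Fin n => V) F, dact X g = 0 ∧
      ∀ w : Fin n → S,
        g (fun k => b (w k)) = (∏ z ∈ Z, ((∑ k, wt (w k)) - z)) * f (fun k => b (w k)) := by
    intro Z
    induction Z using Finset.induction_on with
    | empty => exact ⟨f, hX, fun w => by simp⟩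
    | insert z Z hz ih =>
      obtain ⟨g, hg, hgw⟩ := ih
      refine ⟨dact H g - z • g, ?_, fun w => ?_⟩
      · have e1 : dact X (dact H g) = 0 := by
          have e2 := dact_bracket X H g
          rw [hg, map_zero, sub_zero, h2, dact_smul, hg, smul_zero] at e2
          exact e2
        rw [map_sub, map_smul, e1, hg, smul_zero, sub_zero]
      · rw [Finset.prod_insert hz, sub_apply, smul_apply, hHw, hgw, smul_eq_mul]
        ring
  obtain ⟨g, hg, hgw⟩ := key
    ((Finset.univ.image (fun w : Fin n → S => ∑ k, wt (w k))).erase (∑ k, wt (w₀ k)))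
  have hg0 : g ≠ 0 := by
    intro h0
    have h4 := hgw w₀
    rw [h0, zero_apply] at h4
    exact mul_ne_zero (Finset.prod_ne_zero_iff.2 fun z hz =>
      sub_ne_zero.2 (Finset.ne_of_mem_erase hz).symm) hw₀ h4.symm
  have hgH : dact H g = (∑ k, wt (w₀ k)) • g := by
    refine Basis.ext_multilinear (fun _ => b) fun w => ?_
    change dact H g (fun k => b (w k)) = ((∑ k, wt (w₀ k)) • g) (fun k => b (w k))
    rw [hHw, smul_apply, smul_eq_mul]
    by_cases hw : ∑ k, wt (w k) = ∑ k, wt (w₀ k)
    · rw [hw]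
    · have h4 : g (fun k => b (w k)) = 0 := by
        rw [hgw, Finset.prod_eq_zero (Finset.mem_erase.2 ⟨hw,
          Finset.mem_image.2 ⟨w, Finset.mem_univ _, rfl⟩⟩) (sub_self _), zero_mul]
      rw [h4, mul_zero, mul_zero]
  obtain ⟨m, hm⟩ := sl2_dom (E := dact X) (K := - dact H) (G := dact Y) (m := g)
    (μ := - ∑ k, wt (w₀ k)) (fun g => by
      rw [dact_bracket, ← h1, LinearMap.neg_apply, hneg]) (fun g => by
      rw [LinearMap.neg_apply, LinearMap.neg_apply, map_neg, sub_neg_eq_add, neg_add_eq_sub,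
        dact_bracket, h2, dact_smul]) (fun g => by
      rw [LinearMap.neg_apply, LinearMap.neg_apply, map_neg, sub_neg_eq_add, neg_add_eq_sub,
        dact_bracket, h3, dact_smul]) hg0 hg (by
      rw [LinearMap.neg_apply, hgH, neg_smul])
  exact ⟨m, by rw [← hm, neg_neg]⟩

end

variable {D : Rep F V Γ} {b : Basis S F V} {P : ℕ → Prop}

theorem Rep.mem_Ann_iff {X : V →ₗ[F] V} :
    X ∈ D.Ann P ↔ ∀ j, P j → ∀ f, D.TateForm j f → dact X f = 0 := by
  constructor
  · intro h j hj f hf
    ext v
    rw [dact_apply, h j hj f hf v, zero_apply]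
  · intro h j hj f hf v
    rw [← dact_apply, h j hj f hf, zero_apply]

theorem Rep.Ann_sl2 [CharZero F] [FiniteDimensional F V] {X Y H : V →ₗ[F] V}
    (h1 : X ∘ₗ Y - Y ∘ₗ X = H) (h2 : H ∘ₗ X - X ∘ₗ H = (2 : F) • X)
    (h3 : H ∘ₗ Y - Y ∘ₗ H = (-2 : F) • Y) (hX : X ∈ D.Ann P) (hH : H ∈ D.Ann P) :
    Y ∈ D.Ann P := by
  rw [Rep.mem_Ann_iff] at hX hH ⊢
  exact fun j hj f hf => dact_sl2 h1 h2 h3 (hX j hj f hf) (hH j hj f hf)

variable {bar : S → S} {c d : S → F} [DecidableEq S]

theorem rv_self (L : LieData b bar c d (D.Ann P)) (u : S) :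
    rv b bar c u u = mu b u u - mu b (bar u) (bar u) := by
  rw [rv, div_self (L.cn u), one_smul]

/-- the triple of a long root -/
theorem triple_long (L : LieData b bar c d (D.Ann P)) (u : S) :
    mu b u (bar u) ∘ₗ mu b (bar u) u - mu b (bar u) u ∘ₗ mu b u (bar u) = rv b bar c u u ∧
    rv b bar c u u ∘ₗ mu b u (bar u) - mu b u (bar u) ∘ₗ rv b bar c u u =
      (2 : F) • mu b u (bar u) ∧
    rv b bar c u u ∘ₗ mu b (bar u) u - mu b (bar u) u ∘ₗ rv b bar c u u =
      (-2 : F) • mu b (bar u) u := by
  have hb1 := L.bn u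
  have hb2 := (L.bn u).symm
  refine ⟨?_, ?_, ?_⟩
  · rw [rv_self L, mu_comp, mu_comp, if_pos rfl, if_pos rfl]
  · rw [rv_self L, LinearMap.sub_comp, LinearMap.comp_sub]
    simp only [mu_comp, if_pos, if_neg hb2]
    module
  · rw [rv_self L, LinearMap.sub_comp, LinearMap.comp_sub]
    simp only [mu_comp, if_pos, if_neg hb1]
    module

/-- the triple of a short root -/
theorem triple_short (L : LieData b bar c d (D.Ann P)) {u v : S} (huv : u ≠ v)
    (hvu : v ≠ bar u) :
    rv b bar c u v ∘ₗ rv b bar c v u - rv b bar c v u ∘ₗ rv b bar c u v =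
      rv b bar c u u - rv b bar c v v ∧
    (rv b bar c u u - rv b bar c v v) ∘ₗ rv b bar c u v -
      rv b bar c u v ∘ₗ (rv b bar c u u - rv b bar c v v) = (2 : F) • rv b bar c u v ∧
    (rv b bar c u u - rv b bar c v v) ∘ₗ rv b bar c v u -
      rv b bar c v u ∘ₗ (rv b bar c u u - rv b bar c v v) = (-2 : F) • rv b bar c v u := by
  have hcu := L.cn u
  have hcv := L.cn v
  have hub' : bar v ≠ u := fun e => hvu (by rw [← e, L.bb])
  have hbuv : bar u ≠ bar v := fun e => huv (L.bar_inj.1 e)
  have hb1 := L.bn u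
  have hb2 := L.bn v
  refine ⟨?_, ?_, ?_⟩
  · simp only [rv, LinearMap.sub_comp, LinearMap.comp_sub, LinearMap.smul_comp,
      LinearMap.comp_smul, mu_comp, if_pos, if_neg hvu, if_neg hub', if_neg (Ne.symm hvu),
      if_neg hub'.symm, smul_zero, sub_zero, zero_sub, smul_neg, smul_smul,
      div_self hcu, div_self hcv, one_smul]
    have e1 : c v / c u * (c u / c v) = 1 := by field_simp
    have e2 : c u / c v * (c v / c u) = 1 := by field_simp
    simp only [e1, e2, one_smul]
    module
  · rw [rv_self L, rv_self L]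
    simp only [rv, LinearMap.sub_comp, LinearMap.comp_sub, LinearMap.smul_comp,
      LinearMap.comp_smul, mu_comp, if_pos, if_neg hvu, if_neg hub', if_neg (Ne.symm hvu),
      if_neg hub'.symm, if_neg huv, if_neg (Ne.symm huv), if_neg hbuv, if_neg hbuv.symm,
      if_neg hb1, if_neg hb1.symm, if_neg hb2, if_neg hb2.symm, smul_zero, sub_zero, zero_sub]
    module
  · rw [rv_self L, rv_self L]
    simp only [rv, LinearMap.sub_comp, LinearMap.comp_sub, LinearMap.smul_comp,
      LinearMap.comp_smul, mu_comp, if_pos, if_neg hvu, if_neg hub', if_neg (Ne.symm hvu),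
      if_neg hub'.symm, if_neg huv, if_neg (Ne.symm huv), if_neg hbuv, if_neg hbuv.symm,
      if_neg hb1, if_neg hb1.symm, if_neg hb2, if_neg hb2.symm, smul_zero, sub_zero, zero_sub]
    module

/-- the long root vectors are multiples of matrix units -/
theorem rv_long (L : LieData b bar c d (D.Ann P)) (u : S) :
    rv b bar c u (bar u) = (2 : F) • mu b u (bar u) ∧
      rv b bar c (bar u) u = (2 : F) • mu b (bar u) u := by
  have hcu := L.cn u
  refine ⟨?_, ?_⟩
  · rw [rv, L.bb, L.cb]
    have : c u / -c u = -1 := by field_simp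
    rw [this]
    module
  · rw [rv, L.bb, L.cb]
    have : -c u / c u = -1 := by field_simp
    rw [this]
    module

theorem mu_mem [CharZero F] (L : LieData b bar c d (D.Ann P)) {u : S}
    (h : rv b bar c u (bar u) ∈ D.Ann P) : mu b u (bar u) ∈ D.Ann P := by
  have h1 : mu b u (bar u) = (2 : F)⁻¹ • rv b bar c u (bar u) := by
    rw [(rv_long L u).1, smul_smul, inv_mul_cancel₀ two_ne_zero, one_smul]
  rw [h1]
  exact Submodule.smul_mem _ _ h

/-- symmetry of the roots if the annihilator contains all `h_u` -/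
theorem Rt_symm_of_h [CharZero F] [Fintype S] (L : LieData b bar c d (D.Ann P))
    (hh : ∀ u, rv b bar c u u ∈ D.Ann P) {u v : S} (h : LieData.Rt b bar c (D.Ann P) u v) :
    LieData.Rt b bar c (D.Ann P) v u := by
  have : FiniteDimensional F V := b.finiteDimensional_of_finite
  by_cases huv : u = v
  · exact Or.inl huv.symm
  have hR := h.resolve_left huv
  right
  by_cases hvu : v = bar u
  · subst hvu
    rw [(rv_long L u).2]
    obtain ⟨h1, h2, h3⟩ := triple_long L u
    exact Submodule.smul_mem _ _ (Rep.Ann_sl2 h1 h2 h3 (mu_mem L hR) (hh u))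
  · obtain ⟨h1, h2, h3⟩ := triple_short L huv hvu
    exact Rep.Ann_sl2 h1 h2 h3 hR (Submodule.sub_mem _ (hh u) (hh v))

/-- dominance -/
theorem Rt_dom [CharZero F] [Fintype S] (L : LieData b bar c d (D.Ann P)) {u v : S}
    (h : LieData.Rt b bar c (D.Ann P) u v) {j : ℕ} (hj : P j)
    {f : MultilinearMap F (fun _ : Fin (2 * j) => V) F} (hf : D.TateForm j f)
    {w : Fin (2 * j) → S} (hw : f (fun k => b (w k)) ≠ 0) :
    ((Finset.univ.filter (fun k => w k = u)).card : ℤ) -
        (Finset.univ.filter (fun k => w k = bar u)).card ≤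
      ((Finset.univ.filter (fun k => w k = v)).card : ℤ) -
        (Finset.univ.filter (fun k => w k = bar v)).card := by
  by_cases huv : u = v
  · rw [huv]
  have hR := h.resolve_left huv
  have hwt : ∀ u s, rv b bar c u u (b s) =
      ((if s = u then (1 : F) else 0) - (if s = bar u then 1 else 0)) • b s := by
    intro u s
    rw [rv_self L, LinearMap.sub_apply, mu_apply, mu_apply]
    by_cases h1 : s = u
    · have h2 : s ≠ bar u := by
        rw [h1]
        exact (L.bn u).symm
      rw [if_pos h1, if_pos h1, if_neg h2, if_neg h2, sub_zero, sub_zero, one_smul, h1]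
    · rw [if_neg h1, if_neg h1]
      by_cases h2 : s = bar u
      · rw [if_pos h2, if_pos h2, h2, zero_sub, zero_sub, neg_smul, one_smul]
      · rw [if_neg h2, if_neg h2, sub_zero, sub_zero, zero_smul]
  have hsum : ∀ u, ∑ k, ((if w k = u then (1 : F) else 0) - (if w k = bar u then 1 else 0)) =
      ((Finset.univ.filter (fun k => w k = u)).card : F) -
        (Finset.univ.filter (fun k => w k = bar u)).card := by
    intro u
    rw [Finset.sum_sub_distrib, Finset.card_filter, Finset.card_filter]
    push_cast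
    rfl
  by_cases hvu : v = bar u
  · subst hvu
    obtain ⟨h1, h2, h3⟩ := triple_long L u
    obtain ⟨m, hm⟩ := dact_dom h1 h2 h3 (hwt u)
      (Rep.mem_Ann_iff.1 (mu_mem L hR) j hj f hf) hw
    rw [hsum] at hm
    have h4 : ((Finset.univ.filter (fun k => w k = u)).card : ℤ) -
        (Finset.univ.filter (fun k => w k = bar u)).card = - m := by exact_mod_cast hm
    rw [L.bb]
    omega
  · obtain ⟨h1, h2, h3⟩ := triple_short L huv hvu
    obtain ⟨m, hm⟩ := dact_dom (b := b) h1 h2 h3 (wt := fun s =>
      ((if s = u then (1 : F) else 0) - (if s = bar u then 1 else 0)) -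
        ((if s = v then (1 : F) else 0) - (if s = bar v then 1 else 0)))
      (fun s => by rw [LinearMap.sub_apply, hwt, hwt, ← sub_smul])
      (Rep.mem_Ann_iff.1 hR j hj f hf) hw
    rw [Finset.sum_sub_distrib, hsum, hsum] at hm
    have h4 : (((Finset.univ.filter (fun k => w k = u)).card : ℤ) -
        (Finset.univ.filter (fun k => w k = bar u)).card) -
        (((Finset.univ.filter (fun k => w k = v)).card : ℤ) -
          (Finset.univ.filter (fun k => w k = bar v)).card) = - m := by exact_mod_cast hm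
    omega

end Pool.Agent.OneRed
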