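import Pool.Agent.OneRed.Defs
import Pool.Agent.OneRed.FFTDefs

/-!
# One reduction: from words back to forms
-/

namespace Pool.Agent.OneRed

open Module Function

variable {F V Γ S T : Type*} [Field F] [AddCommGroup V] [Module F V] [Group Γ]
  [DecidableEq S] [DecidableEq T]

/-- products of bilinear forms over the pairs of a matching, as a multilinear form -/
def prodForm {J : Type*} [DecidableEq J] {n : ℕ} (σ : Fin n × Fin 2 ≃ J)
    (ω : Fin n → V →ₗ[F] V →ₗ[F] F) : MultilinearMap F (fun _ : J => V) F :=
  MultilinearMap.mk' (fun v => ∏ i, ω i (v (σ (i, 0))) (v (σ (i, 1)))) (by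
    intro v k x y
    obtain ⟨⟨i, e⟩, rfl⟩ := σ.surjective k
    rw [← Finset.mul_prod_erase _ _ (Finset.mem_univ i),
      ← Finset.mul_prod_erase (a := i) _ (fun i' => ω i' (update v (σ (i, e)) x (σ (i', 0)))
        (update v (σ (i, e)) x (σ (i', 1)))) (Finset.mem_univ i),
      ← Finset.mul_prod_erase (a := i) _ (fun i' => ω i' (update v (σ (i, e)) y (σ (i', 0)))
        (update v (σ (i, e)) y (σ (i', 1)))) (Finset.mem_univ i)]
    have h1 : ∀ z, ∏ i' ∈ Finset.univ.erase i, ω i' (update v (σ (i, e)) z (σ (i', 0)))
        (update v (σ (i, e)) z (σ (i', 1))) =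
          ∏ i' ∈ Finset.univ.erase i, ω i' (v (σ (i', 0))) (v (σ (i', 1))) := by
      intro z
      refine Finset.prod_congr rfl fun i' hi' => ?_
      have hne := Finset.ne_of_mem_erase hi'
      rw [update_of_ne (fun h => hne (congrArg Prod.fst (σ.injective h))),
        update_of_ne (fun h => hne (congrArg Prod.fst (σ.injective h)))]
    rw [h1, h1, h1, ← add_mul]
    congr 1
    fin_cases e
    · simp
    · simp) (by
    intro v k a x
    obtain ⟨⟨i, e⟩, rfl⟩ := σ.surjective k
    rw [← Finset.mul_prod_erase _ _ (Finset.mem_univ i),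
      ← Finset.mul_prod_erase (a := i) _ (fun i' => ω i' (update v (σ (i, e)) x (σ (i', 0)))
        (update v (σ (i, e)) x (σ (i', 1)))) (Finset.mem_univ i)]
    have h1 : ∀ z, ∏ i' ∈ Finset.univ.erase i, ω i' (update v (σ (i, e)) z (σ (i', 0)))
        (update v (σ (i, e)) z (σ (i', 1))) =
          ∏ i' ∈ Finset.univ.erase i, ω i' (v (σ (i', 0))) (v (σ (i', 1))) := by
      intro z
      refine Finset.prod_congr rfl fun i' hi' => ?_
      have hne := Finset.ne_of_mem_erase hi'
      rw [update_of_ne (fun h => hne (congrArg Prod.fst (σ.injective h))),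
        update_of_ne (fun h => hne (congrArg Prod.fst (σ.injective h)))]
    rw [h1, h1, smul_eq_mul, ← mul_assoc]
    congr 1
    fin_cases e
    · simp
    · simp)

/-- `Mon` in terms of an injection of pairs -/
theorem mon_exists {J : Type*} [DecidableEq J] {B : T → S → S → F} {A : Finset J}
    {t : (J → S) → F} (h : Mon B A t) :
    ∃ (n : ℕ) (σ : Fin n × Fin 2 → J) (τ : Fin n → T), Injective σ ∧
      (∀ x, x ∈ A ↔ ∃ p, σ p = x) ∧
      ∀ w, t w = ∏ i, B (τ i) (w (σ (i, 0))) (w (σ (i, 1))) := by
  induction h with
  | nil =>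
    refine ⟨0, fun p => p.1.elim0, fun i => i.elim0, fun p => p.1.elim0, fun x => ?_, fun w => ?_⟩
    · constructor
      · intro hx
        simp at hx
      · rintro ⟨p, -⟩
        exact p.1.elim0
    · simp
  | @cons A t a k τ₀ ha hk hak h ih =>
    obtain ⟨n, σ, τ, hinj, hA, ht⟩ := ih
    have hsA : ∀ p, σ p ∈ A := fun p => (hA _).2 ⟨p, rfl⟩
    let σ' : Fin (n + 1) × Fin 2 → J := fun p =>
      Fin.cases (if p.2 = 0 then a else k) (fun i => σ (i, p.2)) p.1
    have h0 : ∀ e, σ' (0, e) = if e = 0 then a else k := fun e => rfl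
    have h1 : ∀ i e, σ' (Fin.succ i, e) = σ (i, e) := fun i e => rfl
    refine ⟨n + 1, σ', Fin.cases τ₀ τ, ?_, ?_, ?_⟩
    · rintro ⟨i, e⟩ ⟨i', e'⟩ he
      refine Fin.cases ?_ (fun i he => ?_) i he
      · intro he
        refine Fin.cases ?_ (fun i' he => ?_) i' he
        · intro he
          rw [h0, h0] at he
          fin_cases e <;> fin_cases e' <;> simp_all
        · rw [h0, h1] at he
          exfalso
          have := hsA (i', e')
          rw [← he] at this
          split_ifs at this
          · exact ha this
          · exact hk this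
      · refine Fin.cases ?_ (fun i' he => ?_) i' he
        · intro he
          rw [h0, h1] at he
          exfalso
          have := hsA (i, e)
          rw [he] at this
          split_ifs at this
          · exact ha this
          · exact hk this
        · rw [h1, h1] at he
          have h2 := hinj he
          rw [Prod.mk.injEq] at h2
          rw [h2.1, h2.2]
    · intro x
      rw [Finset.mem_insert, Finset.mem_insert]
      constructor
      · rintro (rfl | rfl | hx)
        · exact ⟨(0, 0), by rw [h0, if_pos rfl]⟩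
        · exact ⟨(0, 1), by rw [h0, if_neg (by decide)]⟩
        · obtain ⟨⟨i, e⟩, rfl⟩ := (hA x).1 hx
          exact ⟨(i.succ, e), by rw [h1]⟩
      · rintro ⟨⟨i, e⟩, rfl⟩
        refine Fin.cases ?_ (fun i => ?_) i
        · rw [h0]
          split_ifs
          · left; rfl
          · right; left; rfl
        · rw [h1]
          right; right
          exact hsA _
    · intro w
      change B τ₀ (w a) (w k) * t w = _
      rw [Fin.prod_univ_succ, ht]
      rfl

/-- a form whose coordinates are in the span of the matching products is in the span of the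
products of bilinear Tate forms -/
theorem mem_span_prodForm [Fintype S] {D : Rep F V Γ} {b : Basis S F V} {B : T → S → S → F}
    (ω : T → V →ₗ[F] V →ₗ[F] F) (hω : ∀ τ, D.TateBil (ω τ))
    (hB : ∀ τ s s', ω τ (b s) (b s') = B τ s s') {j : ℕ}
    (f : MultilinearMap F (fun _ : Fin (2 * j) => V) F)
    (hf : (fun w : Fin (2 * j) → S => f (fun k => b (w k))) ∈
      Submodule.span F {g | Mon B Finset.univ g}) :
    f ∈ Submodule.span F {g | D.ProdForm j g} := by
  let Φ : MultilinearMap F (fun _ : Fin (2 * j) => V) F →ₗ[F] ((Fin (2 * j) → S) → F) :=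
    { toFun := fun f w => f (fun k => b (w k))
      map_add' := fun f g => rfl
      map_smul' := fun a f => rfl }
  have hle : Submodule.span F {g | Mon B Finset.univ g} ≤
      (Submodule.span F {g | D.ProdForm j g}).map Φ := by
    rw [Submodule.span_le]
    intro g hg
    obtain ⟨n, σ, τ, hinj, hA, ht⟩ := mon_exists hg
    have hsurj : Surjective σ := fun x => (hA x).1 (Finset.mem_univ x)
    have hcard := Fintype.card_of_bijective (f := σ) ⟨hinj, hsurj⟩
    rw [Fintype.card_prod, Fintype.card_fin, Fintype.card_fin, Fintype.card_fin] at hcard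
    have hn : n = j := by omega
    subst hn
    let σ' := Equiv.ofBijective σ ⟨hinj, hsurj⟩
    refine ⟨prodForm σ' fun i => ω (τ i), Submodule.subset_span
      ⟨σ', fun i => ω (τ i), fun i => hω _, fun v => rfl⟩, ?_⟩
    funext w
    rw [ht]
    change ∏ i, ω (τ i) (b (w (σ (i, 0)))) (b (w (σ (i, 1)))) = _
    exact Finset.prod_congr rfl fun i _ => hB _ _ _
  obtain ⟨g, hg, hfg⟩ := hle hf
  have : g = f := Basis.ext_multilinear (fun _ => b) fun w => congrFun hfg w
  rw [← this]
  exact hg

end Pool.Agent.OneRed
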