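import Pool.Agent.OneRed.Blocks
import Pool.Agent.OneRed.Sl2
import Pool.Agent.OneRed.Span
import Pool.Agent.OneRed.Casimir
import Pool.Agent.OneRed.Bridge

/-!
# One reduction: main theorems
-/

namespace Pool.Agent.OneRed

open Module Function

variable {F V Γ S : Type*} [Field F] [AddCommGroup V] [Module F V] [Group Γ]
  [Fintype S] [DecidableEq S] {D : Rep F V Γ} {b : Basis S F V} {bar : S → S} {c d : S → F}
  {P : ℕ → Prop}

omit [Fintype S] in
/-- the action of a root vector on a word -/
theorem word_rv {j : ℕ} (f : MultilinearMap F (fun _ : Fin (2 * j) => V) F) (u v : S)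
    (w : Fin (2 * j) → S) :
    ∑ k, f (update (fun i => b (w i)) k (rv b bar c u v (b (w k)))) =
      ∑ k ∈ Finset.univ.filter (fun k => w k = v), f (fun i => b (update w k u i)) -
        ∑ k ∈ Finset.univ.filter (fun k => w k = bar u),
          c u / c v * f (fun i => b (update w k (bar v) i)) := by
  rw [Finset.sum_filter, Finset.sum_filter, ← Finset.sum_sub_distrib]
  refine Finset.sum_congr rfl fun k _ => ?_
  have e1 : ∀ u, f (update (fun i => b (w i)) k (b u)) = f (fun i => b (update w k u i)) := by
    intro u
    congr 1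
    funext i
    by_cases hik : i = k
    · subst hik
      simp
    · simp [update_of_ne hik]
  rw [rv_apply, f.map_update_sub, f.map_update_smul, smul_eq_mul]
  congr 1
  · split_ifs
    · rw [e1]
    · rw [f.map_update_zero]
  · split_ifs
    · rw [e1]
    · rw [f.map_update_zero, mul_zero]

omit [Fintype S] in
/-- `h_u` acts on a word by the difference of the numbers of `u` and `ū` -/
theorem word_h (hc : ∀ s, c s ≠ 0) {j : ℕ}
    (f : MultilinearMap F (fun _ : Fin (2 * j) => V) F) (u : S) (w : Fin (2 * j) → S) :
    ∑ k, f (update (fun i => b (w i)) k (rv b bar c u u (b (w k)))) =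
      (((Finset.univ.filter (fun k => w k = u)).card : F) -
        (Finset.univ.filter (fun k => w k = bar u)).card) * f (fun i => b (w i)) := by
  rw [word_rv, sub_mul]
  have e1 : ∀ k, ∀ u, w k = u → f (fun i => b (update w k u i)) = f (fun i => b (w i)) := by
    intro k u h
    rw [← h, update_eq_self]
  congr 1
  · rw [Finset.sum_congr rfl (fun k hk => e1 k u (Finset.mem_filter.1 hk).2), Finset.sum_const,
      nsmul_eq_mul]
  · rw [div_self (hc u)]
    simp only [one_mul]
    rw [Finset.sum_congr rfl (fun k hk => e1 k (bar u) (Finset.mem_filter.1 hk).2),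
      Finset.sum_const, nsmul_eq_mul]

variable [CharZero F]

/-- a Tate form on which all `h_u` act as zero is a combination of products of bilinear ones -/
theorem core (hsymm : ∀ u v, LieData.Rt b bar c (D.Ann P) u v →
      LieData.Rt b bar c (D.Ann P) v u) (L : LieData b bar c d (D.Ann P))
    (hψ : ∀ s s', D.ψ (b s) (b s') = if s' = bar s then c s else 0) {j : ℕ} (hj : P j)
    {f : MultilinearMap F (fun _ : Fin (2 * j) => V) F} (hf : D.TateForm j f)
    (hh : ∀ u (w : Fin (2 * j) → S), f (fun i => b (w i)) ≠ 0 →
      (Finset.univ.filter (fun k => w k = u)).card =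
        (Finset.univ.filter (fun k => w k = bar u)).card) :
    f ∈ Submodule.span F {g | D.ProdForm j g} := by
  obtain ⟨Γ₀, hfi, hcomm⟩ := blockProj_comm hsymm L
  refine mem_span_prodForm (b := b)
    (B := blockForm bar c (block b bar c (D.Ann P)))
    (fun τ => D.ψ ∘ₗ blockProj b bar c (D.Ann P) τ)
    (fun τ => Rep.tateBil_comp hfi (hcomm τ)) (fun τ s s' => ?_) f ?_
  · rw [LinearMap.comp_apply, blockProj_basis, map_smul, LinearMap.smul_apply, smul_eq_mul, hψ,
      blockForm]
    by_cases h1 : block b bar c (D.Ann P) s = τ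
    · by_cases h2 : s' = bar s
      · rw [if_pos h1, if_pos h2, if_pos ⟨h1, h2⟩, one_mul]
      · rw [if_neg h2, mul_zero, if_neg fun h : _ ∧ _ => h2 h.2]
    · rw [if_neg h1, zero_mul, if_neg fun h : _ ∧ _ => h1 h.1]
  · refine fft bar c (block b bar c (D.Ann P)) L.bb L.bn L.cn L.cb
      (fun s s' h => block_bar hsymm L h) _ ?_
    intro u v huv w
    rw [← sub_eq_zero, ← word_rv]
    by_cases h : u = v
    · subst h
      rw [word_h L.cn]
      by_cases hw : f (fun i => b (w i)) = 0
      · rw [hw, mul_zero]
      · rw [hh u w hw, sub_self, zero_mul]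
    · exact (((block_eq_iff hsymm L).1 huv).resolve_left h) j hj f hf _

omit [CharZero F] [Fintype S] in
theorem NoRelation.mono {α : S → F} {q : F} {i i' : ℕ} (h : NoRelation α q i) (hi : i' ≤ i) :
    NoRelation α q i' := fun j hj => h j (hj.trans hi)

omit [Fintype S] [DecidableEq S] [CharZero F] in
theorem divisorial_zero (D : Rep F V Γ) {r : ℕ} {x : Coh F V r} (hx : D.IsTate r 0 x) :
    D.IsDivisorial r x := by
  have h1 : x ∈ (1 : Submodule F (Coh F V r)) := by
    have h2 := hx.1
    rwa [mul_zero, ExteriorAlgebra.exteriorPower, pow_zero] at h2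
  obtain ⟨a, rfl⟩ := Submodule.mem_one.1 h1
  exact Subalgebra.algebraMap_mem _ a

omit [CharZero F] [DecidableEq S] in
/-- minimal elements below a letter -/
theorem exists_minimal (R : S → S → Prop) (hrefl : ∀ s, R s s)
    (htrans : ∀ {u v w}, R u v → R v w → R u w) (u : S) :
    ∃ u₁, R u₁ u ∧ ∀ s, R s u₁ → R u₁ s := by
  classical
  obtain ⟨u₁, hu₁, hmin⟩ := Finset.exists_min_image (Finset.univ.filter fun s => R s u)
    (fun s => (Finset.univ.filter fun x => R x s).card)
    ⟨u, Finset.mem_filter.2 ⟨Finset.mem_univ _, hrefl u⟩⟩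
  have h1 := (Finset.mem_filter.1 hu₁).2
  refine ⟨u₁, h1, fun s hs => ?_⟩
  have h2 := hmin s (Finset.mem_filter.2 ⟨Finset.mem_univ _, htrans hs h1⟩)
  have h3 : (Finset.univ.filter fun x => R x s) ⊆ (Finset.univ.filter fun x => R x u₁) := by
    intro x hx
    exact Finset.mem_filter.2 ⟨Finset.mem_univ _, htrans (Finset.mem_filter.1 hx).2 hs⟩
  have h4 := Finset.eq_of_subset_of_card_le h3 h2
  have h5 : u₁ ∈ (Finset.univ.filter fun x => R x s) := by
    rw [h4]
    exact Finset.mem_filter.2 ⟨Finset.mem_univ _, hrefl u₁⟩
  exact (Finset.mem_filter.1 h5).2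

/-- **One reduction.** One Frobenius element without nontrivial relations of length at most `4`
between its eigenvalues and without relations of Weil type of length at most `2 i`: the Tate classes
of codimension at most `i` on all powers are combinations of products of Tate classes of
codimension one. -/
theorem main_C (D : Rep F V Γ) (b : Basis S F V) (α : S → F) (φ : Γ)
    (hφ : ∀ s, D.ρ φ (b s) = α s • b s) (h : NoRelation α (D.χ φ : F) 2) {i : ℕ}
    (hW : D.NoWeilRelation b α (D.χ φ : F) i) {r j : ℕ} (hji : j ≤ i)
    {x : Coh F V r} (hx : D.IsTate r j x) : D.IsDivisorial r x := by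
  classical
  rcases Nat.eq_zero_or_pos j with hj0 | hj0
  · subst hj0
    exact divisorial_zero D hx
  have : FiniteDimensional F V := b.finiteDimensional_of_finite
  obtain ⟨bar, hbb, hbn, hαb, hψ, hinj⟩ := exists_bar hφ one_le_two h
  obtain ⟨d, L⟩ := exists_lieData hφ h hbb hbn hαb hψ (P := fun j' => j' ≤ j) hj0
  set c : S → F := fun s => D.ψ (b s) (b (bar s)) with hc
  have hψ' : ∀ s s', D.ψ (b s) (b s') = if s' = bar s then c s else 0 := by
    intro s s'
    by_cases hs : s' = bar s
    · rw [if_pos hs, hs]
    · rw [if_neg hs]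
      by_contra hne
      exact hs ((hψ s s').1 hne)
  have hpartner : ∀ s s', α s * α s' = (D.χ φ : F) → s' = bar s := by
    intro s s' hs
    apply hinj
    exact mul_left_cancel₀ (alpha_ne_zero hφ s) (hs.trans (hαb s).symm)
  set R : S → S → Prop := LieData.Rt b bar c (D.Ann fun j' => j' ≤ j) with hR
  have htrans : ∀ {u v w}, R u v → R v w → R u w := fun h1 h2 => L.Rt_trans h1 h2
  obtain ⟨Γ₀, hfi, hfix⟩ := exists_fix L
  -- minimal letters
  have hmin : ∀ u, (∀ s, R s u → R u s) → ∀ j', j' ≤ j →
      ∀ f : MultilinearMap F (fun _ : Fin (2 * j') => V) F, D.TateForm j' f →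
      ∀ w : Fin (2 * j') → S, f (fun i => b (w i)) ≠ 0 →
        (Finset.univ.filter (fun k => w k = u)).card =
          (Finset.univ.filter (fun k => w k = bar u)).card := by
    intro u hu j' hj' f hf w hw
    by_cases hub : R (bar u) u
    · have h1 := (hu _ hub).resolve_left (hbn u).symm
      have h2 := hub.resolve_left (hbn u)
      have h3 := L.h_mem_self h1 h2 j' hj' f hf (fun i => b (w i))
      rw [word_h L.cn] at h3
      have h4 := (mul_eq_zero.1 h3).resolve_right hw
      exact_mod_cast sub_eq_zero.1 h4
    · have hnb : ∀ s t, R s u → R t u → t ≠ bar s := by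
        rintro s t hs ht rfl
        have h1 : R (bar u) (bar (bar s)) := L.Rt_bar ht
        rw [hbb] at h1
        exact hub (htrans h1 hs)
      have hT : Submodule.span F (b '' ((Finset.univ.filter fun s => R s u : Finset S) : Set S)) =
          LieData.cs b fun s => R s u := by
        apply le_antisymm
        · rw [Submodule.span_le]
          rintro _ ⟨s, hs, rfl⟩
          exact LieData.basis_mem_cs.2 (Finset.mem_filter.1 hs).2
        · intro x hx
          rw [← b.sum_repr x]
          refine Submodule.sum_mem _ fun s _ => ?_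
          by_cases hs : b.repr x s = 0
          · rw [hs, zero_smul]
            exact Submodule.zero_mem _
          · exact Submodule.smul_mem _ _ (Submodule.subset_span
              ⟨s, Finset.mem_coe.2 (Finset.mem_filter.2 ⟨Finset.mem_univ _, hx s hs⟩), rfl⟩)
      have hnW := hW (Finset.univ.filter fun s => R s u)
        ⟨u, Finset.mem_filter.2 ⟨Finset.mem_univ _, Or.inl rfl⟩⟩ ?_ ?_ j' (hj'.trans hji) w
        (rel_of_ne_zero hφ hf hw)
        (((Finset.univ.filter (fun k => w k = u)).card : ℤ) -
          (Finset.univ.filter (fun k => w k = bar u)).card) ?_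
      · omega
      · rw [hT]
        intro x hx y hy
        rw [← b.sum_repr x, ← b.sum_repr y]
        simp only [map_sum, map_smul, LinearMap.sum_apply, LinearMap.smul_apply]
        refine Finset.sum_eq_zero fun t _ => ?_
        by_cases ht : b.repr y t = 0
        · rw [ht, zero_smul]
        rw [Finset.sum_eq_zero fun s _ => ?_, smul_zero]
        by_cases hs : b.repr x s = 0
        · rw [hs, zero_smul]
        rw [hψ', if_neg (hnb s t (hx s hs) (hy t ht)), smul_zero]
      · rw [hT]
        exact ⟨Γ₀, hfi, hfix _ (L.stab_cs fun x y hy hxy => htrans hxy hy)⟩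
      · intro v hv v' hvv'
        have hv := (Finset.mem_filter.1 hv).2
        rw [hpartner v v' hvv']
        by_cases huv : u = v
        · rw [huv]
        · have h1 := (hu v hv).resolve_left huv
          have h2 := hv.resolve_left (Ne.symm huv)
          have h3 := L.h_mem_diff huv (hnb u v (Or.inl rfl) hv) h1 h2 j' hj' f hf
            (fun i => b (w i))
          simp only [LinearMap.sub_apply, MultilinearMap.map_update_sub,
            Finset.sum_sub_distrib] at h3
          rw [word_h L.cn, word_h L.cn, ← sub_mul] at h3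
          have h4 := sub_eq_zero.1 ((mul_eq_zero.1 h3).resolve_right hw)
          exact_mod_cast h4.symm
  -- all letters, by dominance
  have hall : ∀ j', j' ≤ j →
      ∀ f : MultilinearMap F (fun _ : Fin (2 * j') => V) F, D.TateForm j' f →
      ∀ w : Fin (2 * j') → S, f (fun i => b (w i)) ≠ 0 → ∀ u,
        (Finset.univ.filter (fun k => w k = u)).card =
          (Finset.univ.filter (fun k => w k = bar u)).card := by
    intro j' hj' f hf w hw u
    have hnn : ∀ u, (0 : ℤ) ≤ ((Finset.univ.filter (fun k => w k = u)).card : ℤ) -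
        (Finset.univ.filter (fun k => w k = bar u)).card := by
      intro u
      obtain ⟨u₁, h1, h2⟩ := exists_minimal R (fun s => Or.inl rfl) htrans u
      have h3 := hmin u₁ h2 j' hj' f hf w hw
      have h4 := Rt_dom L h1 hj' hf hw
      rw [h3, sub_self] at h4
      exact h4
    have h1 := hnn u
    have h2 := hnn (bar u)
    rw [hbb] at h2
    omega
  have hh : ∀ u, rv b bar c u u ∈ D.Ann (fun j' => j' ≤ j) := by
    intro u j' hj' f' hf' v
    refine sum_update_eq_zero (b := b) f' _ (fun w => ?_) v
    rw [word_h L.cn]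
    by_cases hw : f' (fun i => b (w i)) = 0
    · rw [hw, mul_zero]
    · rw [hall j' hj' f' hf' w hw u, sub_self, zero_mul]
  exact bridge D j (fun f hf => core (P := fun j' => j' ≤ j) (fun u v => Rt_symm_of_h L hh) L
    hψ' le_rfl hf fun u w hw => hall j le_rfl f hf w hw u) r x hx

/-- **(B)** One Frobenius element without nontrivial relations of length at most `2 i` between
its eigenvalues: the Tate classes of codimension at most `i` on all powers are combinations of
products of Tate classes of codimension one. -/
theorem main_B (D : Rep F V Γ) (b : Basis S F V) (α : S → F) (φ : Γ)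
    (hφ : ∀ s, D.ρ φ (b s) = α s • b s) {i : ℕ} (h : NoRelation α (D.χ φ : F) i)
    {r j : ℕ} (hj : j ≤ i) {x : Coh F V r} (hx : D.IsTate r j x) : D.IsDivisorial r x := by
  rcases Nat.lt_or_ge j 2 with hj2 | hj2
  · interval_cases j
    · exact divisorial_zero D hx
    · exact Algebra.subset_adjoin hx
  have hi : 2 ≤ i := hj2.trans hj
  obtain ⟨bar, hbb, hbn, hαb, hψ, hinj⟩ := exists_bar hφ (by omega) h
  refine main_C D b α φ hφ (h.mono hi) (i := i) (fun T hT _ _ j' hj' w hw m hm => ?_) hj hx
  obtain ⟨s, hs⟩ := hT
  rw [← hm s hs (bar s) (hαb s), h j' hj' w hw s (bar s) (hαb s), sub_self]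

/-- **(A)** One Frobenius element without nontrivial relations of length at most `4` between its
eigenvalues: the Tate classes of codimension `j` on all powers are combinations of products of
Tate classes of codimension one if all nonzero isotropic subspaces which are stable under a
subgroup of finite index have dimension larger than `2 j`. -/
theorem main_A (D : Rep F V Γ) (b : Basis S F V) (α : S → F) (φ : Γ)
    (hφ : ∀ s, D.ρ φ (b s) = α s • b s) (h : NoRelation α (D.χ φ : F) 2) {r j : ℕ}
    (hW : ∀ W : Submodule F V, W ≠ ⊥ → D.Isotropic W → D.Stable W → 2 * j < Module.finrank F W)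
    {x : Coh F V r} (hx : D.IsTate r j x) : D.IsDivisorial r x := by
  classical
  obtain ⟨bar, hbb, hbn, hαb, hψ, hinj⟩ := exists_bar hφ one_le_two h
  refine main_C D b α φ hφ h (i := j) (fun T hT hiso hst j' hj' w hw m hm => ?_) le_rfl hx
  by_contra hm0
  have hdim := hW _ ?_ hiso hst
  rotate_left
  · obtain ⟨s, hs⟩ := hT
    intro h0
    have h1 : b s ∈ Submodule.span F (b '' (T : Set S)) :=
      Submodule.subset_span ⟨s, Finset.mem_coe.2 hs, rfl⟩
    rw [h0, Submodule.mem_bot] at h1
    exact b.ne_zero s h1
  have hcard : Module.finrank F (Submodule.span F (b '' (T : Set S))) ≤ T.card := by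
    have h1 := finrank_span_finset_le_card (R := F) (T.image b)
    rw [Finset.coe_image] at h1
    exact h1.trans Finset.card_image_le
  have hnb : ∀ s ∈ T, ∀ t ∈ T, t ≠ bar s := by
    rintro s hs t ht rfl
    exact (hψ s (bar s)).2 rfl (hiso _ (Submodule.subset_span ⟨s, Finset.mem_coe.2 hs, rfl⟩) _
      (Submodule.subset_span ⟨bar s, Finset.mem_coe.2 ht, rfl⟩))
  have hk : ∀ v : T, ∃ k, w k = v.1 ∨ w k = bar v.1 := by
    rintro ⟨v, hv⟩
    by_contra hcon
    push Not at hcon
    apply hm0
    rw [← hm v hv (bar v) (hαb v), Finset.filter_eq_empty_iff.2 fun k _ => (hcon k).1,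
      Finset.filter_eq_empty_iff.2 fun k _ => (hcon k).2, sub_self]
  choose g hg using hk
  have hginj : Injective g := by
    rintro ⟨v, hv⟩ ⟨v', hv'⟩ he
    apply Subtype.ext
    have h1 := hg ⟨v, hv⟩
    have h2 := hg ⟨v', hv'⟩
    rw [← he] at h2
    rcases h1 with h1 | h1 <;> rcases h2 with h2 | h2
    · exact h1.symm.trans h2
    · exact absurd (h1.symm.trans h2) (hnb v' hv' v hv)
    · exact absurd (h2.symm.trans h1) (hnb v hv v' hv')
    · have h3 := h1.symm.trans h2
      have h4 : bar v = bar v' := h3
      have h5 : v = v' := by rw [← hbb v, h4, hbb]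
      exact h5
  have h3 := Fintype.card_le_of_injective g hginj
  rw [Fintype.card_fin, Fintype.card_coe] at h3
  omega

end Pool.Agent.OneRed
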