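import Mathlib
import Pool.Agent.OneRed.Defs
import Pool.Agent.LCD.OrdDefs
import Pool.Agent.LCD.OrdLow

set_option autoImplicit false
set_option linter.unusedSectionVars false

/-!
# From Tate weights of a product of abelian varieties over a finite field to relations
-/

namespace Pool.Agent.OneRed

open NumberField Finset Module
open Pool.Agent.CMT (QBar cc cc_cc)
open Pool.Agent.FFT (Idx TateWeight Divisorial conj IsWeil)
open Pool.Agent.FFT.CF_ (conj_conj)
open Pool.Agent.LCD (LowTate NoCommonPower)

section
variable {J : Type} [Fintype J] {K : J → Type} [∀ j, Field (K j)] [∀ j, NumberField (K j)]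
  [∀ j, IsCMField (K j)]

theorem mul_conj (q : ℕ) (π : ∀ j, K j) (hW : ∀ j, IsWeil q (π j)) (x : Σ j, K j →+* QBar) :
    x.2 (π x.1) * (conj x).2 (π (conj x).1) = (q : QBar) := by
  show x.2 (π x.1) * x.2 (IsCMField.complexConj (K x.1) (π x.1)) = q
  rw [← map_mul, (hW x.1).2, map_natCast]

theorem noRelation_of_lowTate [DecidableEq (Σ j, K j →+* QBar)] {F : Type*} [Field F] (e : QBar →+* F) (q : ℕ)
    (hq : 0 < q) (π : ∀ j, K j) (hW : ∀ j, IsWeil q (π j)) (hNC : NoCommonPower π) (i : ℕ)
    (hT : LowTate q π i) :
    NoRelation (fun x : Σ j, K j →+* QBar => e (x.2 (π x.1))) (q : F) i := by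
  classical
  intro j hj w hrel s s' hss
  have hq0 : (q : QBar) ≠ 0 := by exact_mod_cast hq.ne'
  have hne : ∀ x : Σ j, K j →+* QBar, x.2 (π x.1) ≠ 0 := by
    intro x h0
    have := mul_conj q π hW x
    rw [h0, zero_mul] at this
    exact hq0 this.symm
  -- `s' = conj s`
  have hss' : s' = conj s := by
    apply hNC s' (conj s) 1 one_pos
    rw [pow_one, pow_one]
    have h1 : s.2 (π s.1) * s'.2 (π s'.1) = (q : QBar) := by
      apply e.injective
      rw [map_mul, map_natCast]
      exact hss
    apply mul_left_cancel₀ (hne s)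
    rw [h1, mul_conj q π hW s]
  obtain ⟨N, hN, hrel⟩ := hrel
  have hrel' : (∏ k, (w k).2 (π (w k).1)) ^ N = (q : QBar) ^ (j * N) := by
    apply e.injective
    rw [map_pow, map_prod, map_pow, map_natCast]
    exact hrel
  let n : J → ℕ := fun _ => 2 * j
  let f : Fin (2 * j) → Idx K n := fun k => ⟨(w k).1, (w k).2, k⟩
  have hf : Function.Injective f := by
    intro k k' h
    have : (k : ℕ) = (k' : ℕ) := congrArg (fun z : Idx K n => (z.2.2 : ℕ)) h
    exact Fin.ext this
  let Δ : Finset (Idx K n) := Finset.univ.image f
  have hΔ : TateWeight q π j Δ := by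
    refine ⟨?_, N, hN, ?_⟩
    · show (Finset.univ.image f).card = _
      rw [Finset.card_image_of_injective _ hf, Finset.card_univ, Fintype.card_fin]
    · show (∏ x ∈ Finset.univ.image f, x.2.1 (π x.1)) ^ N = _
      rw [Finset.prod_image (fun a _ b _ h => hf h)]
      exact hrel'
  obtain ⟨D, hD1, hD2, hD3⟩ := hT n j Δ hj hΔ
  let em : Idx K n → Σ j, K j →+* QBar := fun z => ⟨z.1, z.2.1⟩
  -- the count over one block
  have hB : ∀ B ∈ D, (B.filter (fun z => em z = s)).card = (B.filter (fun z => em z = s')).card := by
    intro B hB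
    obtain ⟨hc, M, hM, hprod⟩ := hD3 B hB
    obtain ⟨x, y, hxy, rfl⟩ := Finset.card_eq_two.1 hc
    rw [Finset.prod_pair hxy, one_mul] at hprod
    have hy : em y = conj (em x) := by
      apply hNC (em y) (conj (em x)) M hM
      have h1 : ((em x).2 (π (em x).1)) ^ M * ((em y).2 (π (em y).1)) ^ M = (q : QBar) ^ M := by
        rw [← mul_pow]; exact hprod
      have h2 : ((em x).2 (π (em x).1)) ^ M * ((conj (em x)).2 (π (conj (em x)).1)) ^ M =
          (q : QBar) ^ M := by
        rw [← mul_pow, mul_conj q π hW (em x)]
      exact mul_left_cancel₀ (pow_ne_zero M (hne (em x))) (h1.trans h2.symm)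
    have c1 : ∀ t, (({x, y} : Finset (Idx K n)).filter (fun z => em z = t)).card =
        (if em x = t then 1 else 0) + (if em y = t then 1 else 0) := by
      intro t
      rw [Finset.card_filter, Finset.sum_pair hxy]
    rw [c1, c1, hss', hy]
    have e1 : (em x = conj s) ↔ (conj (em x) = s) := by
      constructor
      · intro h; rw [h, conj_conj]
      · intro h; rw [← h, conj_conj]
    have e2 : (conj (em x) = conj s) ↔ (em x = s) := by
      constructor
      · intro h; rw [← conj_conj (em x), h, conj_conj]
      · intro h; rw [h]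
    simp only [e1, e2]
    rw [add_comm]
  have hcount : ∀ t, (Finset.univ.filter (fun k => w k = t)).card =
      ∑ B ∈ D, (B.filter (fun z => em z = t)).card := by
    intro t
    have h1 : (Finset.univ.filter (fun k => w k = t)).card =
        (Δ.filter (fun z => em z = t)).card := by
      show _ = ((Finset.univ.image f).filter (fun z => em z = t)).card
      rw [Finset.filter_image, Finset.card_image_of_injective _ hf]
    have h2 : Δ = D.biUnion id := by
      ext x
      rw [hD2 x, Finset.mem_biUnion]
      rfl
    rw [h1, h2, Finset.filter_biUnion, Finset.card_biUnion]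
    · rfl
    · intro B hB B' hB' hne
      have := hD1 hB hB' hne
      exact Finset.disjoint_filter_filter this
  have := hcount s
  have h3 := hcount s'
  rw [Finset.sum_congr rfl hB] at this
  rw [← h3] at this
  convert this using 2

end

end Pool.Agent.OneRed
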