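import Mathlib
import Pool.Agent.OneRed.NoRel
import Pool.Agent.LCD.OrdLow
import Pool.Agent.CMV.OrdFinal

set_option autoImplicit false
set_option linter.unusedSectionVars false

/-!
# One ordinary reduction of a given type: definitions and relations
-/

namespace Pool.Agent.OneRed

open NumberField Finset Module
open Pool.Agent.CMT (QBar IsCMType cc cc_cc)
open Pool.Agent.CMTP (NDeg HG toPerm)
open Pool.Agent.CMV (IsOrdinary HasType)
open Pool.Agent.FFT (Idx TateWeight Divisorial conj IsWeil act)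
open Pool.Agent.FFT.CF_ (conj_conj sg)
open Pool.Agent.LCD (LowTate NoCommonPower Low low_tate)

/-- The abelian variety `A` (with the data `D`) has an ordinary reduction of type `(K j, Φ j)`: for
some place `v` of good reduction, not over `ℓ`, with residue field of `q` elements, a power of `p`,
and Frobenius element `φ`, the eigenvalues of `φ` on the Tate module are the conjugates `x (π j)` of
ordinary Weil `q`-numbers `π j` in the fields `K j`, where `Φ j` is the set of the embeddings `x`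
of `K j` for which `x (π j)` is not a unit with respect to an embedding `ι` of the algebraic numbers
into the algebraic closure of the `p`-adic numbers; `e` is an embedding of the algebraic numbers
into the field `F` of the coefficients. -/
def HasOrdinaryReduction {F V Γ : Type*} [Field F] [AddCommGroup V] [Module F V] [Group Γ]
    (D : Rep F V Γ) {J : Type} {K : J → Type} [∀ j, Field (K j)] [∀ j, NumberField (K j)]
    [∀ j, IsCMField (K j)] (Φ : ∀ j, Finset (K j →+* QBar)) : Prop :=
  ∃ (p : ℕ) (_ : Fact p.Prime) (q : ℕ) (π : ∀ j, K j) (ι : QBar →+* PadicAlgCl p) (e : QBar →+* F)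
    (b : Basis (Σ j, K j →+* QBar) F V) (φ : Γ),
    (∀ j, IsOrdinary p q (π j) ∧ HasType ι (π j) (Φ j)) ∧
      (∀ x, D.ρ φ (b x) = e (x.2 (π x.1)) • b x) ∧ (D.χ φ : F) = q

section
variable {J : Type} [Fintype J] {K : J → Type} [∀ j, Field (K j)] [∀ j, NumberField (K j)]
  [∀ j, IsCMField (K j)]

theorem noRelation_of_low [DecidableEq (Σ j, K j →+* QBar)] {F : Type*} [Field F]
    (e : QBar →+* F) (p : ℕ) [Fact p.Prime] (q : ℕ) (π : ∀ j, K j) (hπ : ∀ j, IsOrdinary p q (π j))
    (ι : QBar →+* PadicAlgCl p) (Φ : ∀ j, Finset (K j →+* QBar)) (hcm : ∀ j, IsCMType (K j) (Φ j))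
    (hΦ : ∀ j, HasType ι (π j) (Φ j)) (i : ℕ) (hi : 1 ≤ i) (hlow : Low Φ i) :
    NoRelation (fun x : Σ j, K j →+* QBar => e (x.2 (π x.1))) (q : F) i := by
  intro j hj w hrel s s' hss
  have ha := (hπ s.1).1
  have hq : 0 < q := by
    obtain ⟨a, _, rfl⟩ := ha
    exact pow_pos (Fact.out : p.Prime).pos a
  obtain ⟨h1, h2⟩ := low_tate p q π hπ ha ι Φ hcm hΦ i hi hlow
  exact noRelation_of_lowTate e q hq π (fun j => (hπ j).2.1) h1 i h2 j hj w hrel s s' hss

end

/-- nondegenerate types satisfy no relation at all -/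
theorem low_of_ndeg {K : Type} [Field K] [NumberField K] [IsCMField K] (Φ : Finset (K →+* QBar))
    (h : NDeg (HG K) cc Φ) (i : ℕ) :
    Low (J := Unit) (K := fun _ => K) (fun _ => Φ) i := by
  classical
  intro f hodd _ hf
  have h1 : (fun φ : K →+* QBar => f ⟨(), φ⟩) = 0 := by
    apply h
    · intro φ
      exact hodd ⟨(), φ⟩
    · rintro σ ⟨τ, rfl⟩
      have h2 := hf τ⁻¹
      have h3 : ∑ x : Σ _ : Unit, K →+* QBar, sg (K := fun _ => K) (fun _ => Φ)
          (act (fun _ => K) τ⁻¹ x) * f x =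
          ∑ φ : K →+* QBar, (if toPerm K τ⁻¹ φ ∈ Φ then 1 else -1) * f ⟨(), φ⟩ := by
        rw [Fintype.sum_sigma]
        simp only [Finset.univ_unique, Finset.sum_singleton]
        rfl
      rw [h3] at h2
      have h4 : ∑ φ : K →+* QBar, f ⟨(), φ⟩ = 0 := by
        have h5 : ∑ φ : K →+* QBar, f ⟨(), cc φ⟩ = ∑ φ : K →+* QBar, f ⟨(), φ⟩ := by
          have hinv : Function.Involutive (cc (K := K)) := cc_cc
          exact Fintype.sum_equiv hinv.toPerm _ _ fun x => rfl
        have h6 : ∑ φ : K →+* QBar, f ⟨(), cc φ⟩ = - ∑ φ : K →+* QBar, f ⟨(), φ⟩ := by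
          rw [← Finset.sum_neg_distrib]
          exact Finset.sum_congr rfl fun φ _ => hodd ⟨(), φ⟩
        omega
      have h7 : ∑ φ : K →+* QBar, (if toPerm K τ⁻¹ φ ∈ Φ then 1 else -1) * f ⟨(), φ⟩ =
          2 * (∑ φ : K →+* QBar, (if toPerm K τ⁻¹ φ ∈ Φ then 1 else 0) * f ⟨(), φ⟩) -
            ∑ φ : K →+* QBar, f ⟨(), φ⟩ := by
        rw [Finset.mul_sum, ← Finset.sum_sub_distrib]
        refine Finset.sum_congr rfl fun φ _ => ?_
        by_cases hφ : toPerm K τ⁻¹ φ ∈ Φ
        · rw [if_pos hφ, if_pos hφ]; ring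
        · rw [if_neg hφ, if_neg hφ]; ring
      rw [h7, h4] at h2
      have h8 : ∑ φ : K →+* QBar, (if toPerm K τ⁻¹ φ ∈ Φ then 1 else 0) * f ⟨(), φ⟩ =
          ∑ φ ∈ Φ, f ⟨(), toPerm K τ φ⟩ := by
        rw [← Equiv.sum_comp (toPerm K τ)]
        have h9 : ∀ φ, toPerm K τ⁻¹ (toPerm K τ φ) = φ := by
          intro φ
          rw [map_inv]
          simp
        simp only [h9]
        simp only [ite_mul, one_mul, zero_mul]
        rw [Finset.sum_ite_mem, Finset.univ_inter]
      rw [← h8]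
      omega
  funext x
  obtain ⟨⟨⟩, φ⟩ := x
  exact congrFun h1 φ

end Pool.Agent.OneRed
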