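import Pool.Agent.OneRed.Defs

/-!
# One reduction: the annihilator of the Tate forms

`Ann D P`: the endomorphisms of `V` which kill (as derivations) all Tate forms of the degrees
`2 j` with `P j`; it is closed under brackets and under conjugation by `Γ`, and it commutes
with all endomorphisms which commute with a finite index subgroup of `Γ`.
-/

namespace Pool.Agent.OneRed

open Module Function

variable {F V Γ S : Type*} [Field F] [AddCommGroup V] [Module F V] [Group Γ]

/-- the endomorphisms which kill (as derivations) the Tate forms of the degrees in `P` -/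
def Rep.Ann (D : Rep F V Γ) (P : ℕ → Prop) : Submodule F (V →ₗ[F] V) where
  carrier := {X | ∀ j, P j → ∀ f, D.TateForm j f → ∀ v : Fin (2 * j) → V,
    ∑ k, f (update v k (X (v k))) = 0}
  add_mem' := by
    intro X Y hX hY j hj f hf v
    simp only [LinearMap.add_apply, MultilinearMap.map_update_add, Finset.sum_add_distrib]
    rw [hX j hj f hf v, hY j hj f hf v, add_zero]
  zero_mem' := by
    intro j hj f hf v
    simp
  smul_mem' := by
    intro a X hX j hj f hf v
    simp only [LinearMap.smul_apply, MultilinearMap.map_update_smul, ← Finset.smul_sum]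
    rw [hX j hj f hf v, smul_zero]

theorem Rep.mem_Ann {D : Rep F V Γ} {P : ℕ → Prop} {X : V →ₗ[F] V} :
    X ∈ D.Ann P ↔ ∀ j, P j → ∀ f, D.TateForm j f → ∀ v : Fin (2 * j) → V,
      ∑ k, f (update v k (X (v k))) = 0 := Iff.rfl

/-- brackets -/
theorem Rep.Ann_bracket {D : Rep F V Γ} {P : ℕ → Prop} {X Y : V →ₗ[F] V}
    (hX : X ∈ D.Ann P) (hY : Y ∈ D.Ann P) : X ∘ₗ Y - Y ∘ₗ X ∈ D.Ann P := by
  intro j hj f hf v
  have key : ∀ X Y : V →ₗ[F] V, X ∈ D.Ann P →
      ∑ l, f (update v l (X (Y (v l)))) +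
        ∑ l, ∑ k ∈ Finset.univ.erase l, f (update (update v l (Y (v l))) k (X (v k))) = 0 := by
    intro X Y hX
    rw [← Finset.sum_add_distrib]
    refine Finset.sum_eq_zero fun l _ => ?_
    have h := hX j hj f hf (update v l (Y (v l)))
    rw [← Finset.add_sum_erase _ _ (Finset.mem_univ l)] at h
    rw [← h]
    congr 1
    · simp
    · refine Finset.sum_congr rfl fun k hk => ?_
      have hkl : k ≠ l := Finset.ne_of_mem_erase hk
      rw [update_of_ne hkl]
  have h1 := key X Y hX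
  have h2 := key Y X hY
  have h3 : ∑ l, ∑ k ∈ Finset.univ.erase l, f (update (update v l (Y (v l))) k (X (v k))) =
      ∑ l, ∑ k ∈ Finset.univ.erase l, f (update (update v l (X (v l))) k (Y (v k))) := by
    rw [Finset.sum_comm' (t' := Finset.univ) (s' := fun k => Finset.univ.erase k)]
    · refine Finset.sum_congr rfl fun k _ => Finset.sum_congr rfl fun l hl => ?_
      rw [update_comm (Finset.ne_of_mem_erase hl)]
    · intro x y
      simp only [Finset.mem_univ, Finset.mem_erase, true_and, and_true]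
      exact ne_comm
  simp only [LinearMap.sub_apply, LinearMap.comp_apply, MultilinearMap.map_update_sub,
    Finset.sum_sub_distrib]
  rw [eq_neg_of_add_eq_zero_left h1, eq_neg_of_add_eq_zero_left h2, h3, sub_self]

/-- conjugation by `Γ` -/
theorem Rep.Ann_conj {D : Rep F V Γ} {P : ℕ → Prop} {X : V →ₗ[F] V} (hX : X ∈ D.Ann P) (γ : Γ) :
    (D.ρ γ).toLinearMap ∘ₗ X ∘ₗ (D.ρ γ⁻¹).toLinearMap ∈ D.Ann P := by
  intro j hj f hf v
  obtain ⟨Γ', hΓ', h⟩ := hf
  have hf' : D.TateForm j (f.compLinearMap (fun _ => (D.ρ γ).toLinearMap)) := by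
    refine ⟨Γ'.normalCore, inferInstance, fun δ hδ w => ?_⟩
    have h1 : γ * δ * γ⁻¹ ∈ Γ' := Subgroup.normalCore_le _
      ((Subgroup.normalCore_normal Γ').conj_mem δ hδ γ)
    have h2 := h _ h1 (fun k => D.ρ γ (w k))
    simp only [MultilinearMap.compLinearMap_apply, LinearEquiv.coe_coe]
    have h3 : ∀ k, D.ρ (γ * δ * γ⁻¹) (D.ρ γ (w k)) = D.ρ γ (D.ρ δ (w k)) := by
      intro k
      simp [map_mul]
    simp only [h3] at h2
    rw [h2]
    congr 2
    simp only [map_mul, map_inv, Units.val_mul, Units.val_inv_eq_inv_val]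
    field_simp
  have h4 := hX j hj _ hf' (fun k => D.ρ γ⁻¹ (v k))
  rw [← h4]
  refine Finset.sum_congr rfl fun k _ => ?_
  rw [MultilinearMap.compLinearMap_apply]
  congr 1
  funext l
  by_cases hlk : l = k
  · subst hlk
    simp
  · simp [update_of_ne hlk]

/-- bilinear Tate forms -/
theorem Rep.Ann_bil {D : Rep F V Γ} {P : ℕ → Prop} (hP : P 1) {X : V →ₗ[F] V}
    (hX : X ∈ D.Ann P) {ω : V →ₗ[F] V →ₗ[F] F} (hω : D.TateBil ω) (x y : V) :
    ω (X x) y + ω x (X y) = 0 := by
  obtain ⟨Γ', hΓ', h⟩ := hω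
  let f : MultilinearMap F (fun _ : Fin (2 * 1) => V) F :=
    MultilinearMap.mk' (fun v => ω (v (0 : Fin 2)) (v (1 : Fin 2)))
      (by
        intro v i x y
        fin_cases i
        · simp
        · simp)
      (by
        intro v i a x
        fin_cases i
        · simp
        · simp)
  have hf : D.TateForm 1 f := by
    refine ⟨Γ', hΓ', fun γ hγ v => ?_⟩
    rw [pow_one]
    exact h γ hγ _ _
  have h1 := hX 1 hP f hf ![x, y]
  have h2 : ∑ k : Fin 2, f (update ![x, y] k (X (![x, y] k))) = ω (X x) y + ω x (X y) := by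
    rw [Fin.sum_univ_two]
    simp [f]
  rw [← h2]
  exact h1

theorem Rep.tateBil_psi (D : Rep F V Γ) : D.TateBil D.ψ :=
  ⟨⊤, inferInstance, fun γ _ x y => D.equivariant γ x y⟩

/-- endomorphisms which commute with a finite index subgroup give bilinear Tate forms -/
theorem Rep.tateBil_comp {D : Rep F V Γ} {Γ' : Subgroup Γ} (hΓ' : Γ'.FiniteIndex)
    {π : V →ₗ[F] V} (hπ : ∀ γ ∈ Γ', ∀ x, π (D.ρ γ x) = D.ρ γ (π x)) :
    D.TateBil (D.ψ ∘ₗ π) :=
  ⟨Γ', hΓ', fun γ hγ x y => by
    simp only [LinearMap.comp_apply]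
    rw [hπ γ hγ, D.equivariant]⟩

/-- the annihilator commutes with the endomorphisms -/
theorem Rep.Ann_commute {D : Rep F V Γ} {P : ℕ → Prop} (hP : P 1) {X : V →ₗ[F] V}
    (hX : X ∈ D.Ann P) {Γ' : Subgroup Γ} (hΓ' : Γ'.FiniteIndex)
    {π : V →ₗ[F] V} (hπ : ∀ γ ∈ Γ', ∀ x, π (D.ρ γ x) = D.ρ γ (π x)) (x : V) :
    π (X x) = X (π x) := by
  have h1 := fun y => Rep.Ann_bil hP hX (Rep.tateBil_comp hΓ' hπ) x y
  have h2 := fun y => Rep.Ann_bil hP hX D.tateBil_psi (π x) y
  rw [← sub_eq_zero]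
  apply D.nondeg
  intro y
  have h3 := h1 y
  have h4 := h2 y
  simp only [LinearMap.comp_apply] at h3
  rw [map_sub, LinearMap.sub_apply]
  linear_combination h3 - h4

end Pool.Agent.OneRed
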