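import Pool.Agent.OneRed.Setup

/-!
# One reduction: a finite index subgroup which fixes the stable subspaces; blocks
-/

namespace Pool.Agent.OneRed

open Module Function

variable {F V Γ S : Type*} [Field F] [AddCommGroup V] [Module F V] [Group Γ]
  {D : Rep F V Γ} {b : Basis S F V} {bar : S → S} {c d : S → F} {P : ℕ → Prop}

/-- the action of `Γ` on the stable subspaces -/
@[instance_reducible]
def stabMulAction (D : Rep F V Γ) (P : ℕ → Prop) :
    MulAction Γ {W : Submodule F V // LieData.Stab (D.Ann P) W} where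
  smul γ W := ⟨W.1.map (D.ρ γ).toLinearMap, by
    rintro X hX _ ⟨y, hy, rfl⟩
    have h1 := Rep.Ann_conj hX γ⁻¹
    rw [inv_inv] at h1
    refine ⟨_, W.2 _ h1 y hy, ?_⟩
    simp⟩
  one_smul W := by
    apply Subtype.ext
    change W.1.map (D.ρ 1).toLinearMap = W.1
    rw [map_one]
    exact Submodule.map_id _
  mul_smul γ δ W := by
    apply Subtype.ext
    change W.1.map (D.ρ (γ * δ)).toLinearMap =
      (W.1.map (D.ρ δ).toLinearMap).map (D.ρ γ).toLinearMap
    rw [← Submodule.map_comp, map_mul]
    rfl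

variable [Fintype S] [DecidableEq S]

/-- a finite index subgroup which fixes all stable subspaces -/
theorem exists_fix (L : LieData b bar c d (D.Ann P)) :
    ∃ Γ₀ : Subgroup Γ, Γ₀.FiniteIndex ∧ ∀ W, LieData.Stab (D.Ann P) W →
      ∀ γ ∈ Γ₀, ∀ x ∈ W, D.ρ γ x ∈ W := by
  let := stabMulAction D P
  have hfin : Finite {W : Submodule F V // LieData.Stab (D.Ann P) W} := by
    refine Finite.of_injective (fun W => {s | b s ∈ W.1}) fun W W' h => Subtype.ext ?_
    rw [L.eq_cs W.2, L.eq_cs W'.2]
    congr 1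
  refine ⟨(MulAction.toPermHom Γ {W : Submodule F V // LieData.Stab (D.Ann P) W}).ker,
    inferInstance, fun W hW γ hγ x hx => ?_⟩
  have h1 := Equiv.Perm.ext_iff.1 (MonoidHom.mem_ker.1 hγ) ⟨W, hW⟩
  have h2 : W.map (D.ρ γ).toLinearMap = W := congrArg Subtype.val h1
  rw [← h2]
  exact ⟨x, hx, rfl⟩

/-- the block of a letter -/
noncomputable def block (b : Basis S F V) (bar : S → S) (c : S → F)
    (𝔞 : Submodule F (V →ₗ[F] V)) (s : S) : Finset S := by
  classical exact Finset.univ.filter fun t => LieData.Rt b bar c 𝔞 t s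

variable [CharZero F]

theorem block_eq_iff (hsymm : ∀ u v, LieData.Rt b bar c (D.Ann P) u v →
    LieData.Rt b bar c (D.Ann P) v u) (L : LieData b bar c d (D.Ann P)) {s t : S} :
    block b bar c (D.Ann P) s = block b bar c (D.Ann P) t ↔
      LieData.Rt b bar c (D.Ann P) s t := by
  constructor
  · intro h
    have h1 : s ∈ block b bar c (D.Ann P) s := by
      simp only [block, Finset.mem_filter, Finset.mem_univ, true_and]
      exact Or.inl rfl
    rw [h] at h1
    simpa only [block, Finset.mem_filter, Finset.mem_univ, true_and] using h1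
  · intro h
    ext x
    simp only [block, Finset.mem_filter, Finset.mem_univ, true_and]
    exact ⟨fun h1 => L.Rt_trans h1 h, fun h1 => L.Rt_trans h1 (hsymm _ _ h)⟩

theorem block_bar (hsymm : ∀ u v, LieData.Rt b bar c (D.Ann P) u v →
    LieData.Rt b bar c (D.Ann P) v u) (L : LieData b bar c d (D.Ann P)) {s t : S}
    (h : block b bar c (D.Ann P) s = block b bar c (D.Ann P) t) :
    block b bar c (D.Ann P) (bar s) = block b bar c (D.Ann P) (bar t) := by
  rw [block_eq_iff hsymm L] at h ⊢
  exact hsymm _ _ (L.Rt_bar h)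

/-- a coordinate subspace given by a set of blocks is fixed by `Γ₀` -/
theorem stab_block (hsymm : ∀ u v, LieData.Rt b bar c (D.Ann P) u v →
    LieData.Rt b bar c (D.Ann P) v u) (L : LieData b bar c d (D.Ann P)) (Q : Finset S → Prop) :
    LieData.Stab (D.Ann P) (LieData.cs b fun s => Q (block b bar c (D.Ann P) s)) :=
  L.stab_cs fun u v hv huv => by
    rw [(block_eq_iff hsymm L).2 huv]
    exact hv

/-- projector on a block -/
noncomputable def blockProj (b : Basis S F V) (bar : S → S) (c : S → F)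
    (𝔞 : Submodule F (V →ₗ[F] V)) (τ : Finset S) : V →ₗ[F] V :=
  b.constr F fun s => (if block b bar c 𝔞 s = τ then (1 : F) else 0) • b s

omit [CharZero F] in
theorem blockProj_basis (τ : Finset S) (𝔞 : Submodule F (V →ₗ[F] V)) (s : S) :
    blockProj b bar c 𝔞 τ (b s) = (if block b bar c 𝔞 s = τ then (1 : F) else 0) • b s := by
  rw [blockProj, Basis.constr_basis]

omit [CharZero F] in
theorem blockProj_repr (τ : Finset S) (𝔞 : Submodule F (V →ₗ[F] V)) (x : V) (s : S) :
    b.repr (blockProj b bar c 𝔞 τ x) s =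
      (if block b bar c 𝔞 s = τ then (1 : F) else 0) * b.repr x s :=
  diag_repr (fun s => blockProj_basis τ 𝔞 s) x s

/-- the projectors on the blocks commute with a finite index subgroup -/
theorem blockProj_comm (hsymm : ∀ u v, LieData.Rt b bar c (D.Ann P) u v →
    LieData.Rt b bar c (D.Ann P) v u) (L : LieData b bar c d (D.Ann P)) :
    ∃ Γ₀ : Subgroup Γ, Γ₀.FiniteIndex ∧ ∀ τ, ∀ γ ∈ Γ₀, ∀ x,
      blockProj b bar c (D.Ann P) τ (D.ρ γ x) = D.ρ γ (blockProj b bar c (D.Ann P) τ x) := by
  obtain ⟨Γ₀, hfi, h⟩ := exists_fix L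
  refine ⟨Γ₀, hfi, fun τ γ hγ x => ?_⟩
  have key : blockProj b bar c (D.Ann P) τ ∘ₗ (D.ρ γ).toLinearMap =
      (D.ρ γ).toLinearMap ∘ₗ blockProj b bar c (D.Ann P) τ := by
    refine b.ext fun s => b.repr.injective (Finsupp.ext fun t => ?_)
    rw [LinearMap.comp_apply, LinearMap.comp_apply, blockProj_repr, blockProj_basis, map_smul,
      map_smul, Finsupp.smul_apply, smul_eq_mul, LinearEquiv.coe_coe]
    by_cases hs : block b bar c (D.Ann P) s = τ
    · have h1 := h _ (stab_block hsymm L (fun τ' => τ' = τ)) γ hγ (b s)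
        (LieData.basis_mem_cs.2 hs)
      rw [if_pos hs, one_mul]
      by_cases ht : block b bar c (D.Ann P) t = τ
      · rw [if_pos ht, one_mul]
      · rw [if_neg ht, zero_mul]
        by_contra h2
        exact ht (h1 t (Ne.symm h2))
    · have h1 := h _ (stab_block hsymm L (fun τ' => τ' ≠ τ)) γ hγ (b s)
        (LieData.basis_mem_cs.2 hs)
      rw [if_neg hs, zero_mul]
      by_cases ht : block b bar c (D.Ann P) t = τ
      · rw [if_pos ht, one_mul]
        by_contra h2
        exact h1 t h2 ht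
      · rw [if_neg ht, zero_mul]
  exact LinearMap.congr_fun key x

end Pool.Agent.OneRed
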