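import Mathlib
import Pool.Agent.OneRed.Classes
import Pool.Agent.OneRed.OrdRed
import Pool.Agent.OneRed.Main
import Pool.Agent.LCD.Final
import Pool.Agent.CMV.Final

set_option autoImplicit false
set_option linter.unusedSectionVars false

/-!
# One ordinary reduction of a given type: Tate classes
-/

namespace Pool.Agent.OneRed

open NumberField Finset Module
open Pool.Agent.CMT (QBar IsCMType cc)
open Pool.Agent.CMTP (NDeg HG)
open Pool.Agent.LCD (Low)

/-- No nonzero subspace of dimension at most `m` of the Tate module is totally isotropic for the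
Weil pairing and stable under a subgroup of finite index. -/
def Rep.NoSmallIsotropic {F V Γ : Type*} [Field F] [AddCommGroup V] [Module F V] [Group Γ]
    (D : Rep F V Γ) (m : ℕ) : Prop :=
  ∀ W : Submodule F V, W ≠ ⊥ → D.Isotropic W → D.Stable W → m < Module.finrank F W

/-- The tuple of types `Φ j` is good for `i`: for all abelian varieties (given by `D`) with an
ordinary reduction of type `(K j, Φ j)`, the Tate classes of codimension `j` on the powers are
divisorial if `j ≤ i`, and also if `i ≥ 2` and there is no small isotropic subspace. -/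
def GoodTypes {J : Type} {K : J → Type} [∀ j, Field (K j)] [∀ j, NumberField (K j)]
    [∀ j, IsCMField (K j)] (i : ℕ) (Φ : ∀ j, Finset (K j →+* QBar)) : Prop :=
  ∀ (F V Γ : Type) [Field F] [CharZero F] [AddCommGroup V] [Module F V] [Group Γ]
    (D : Rep F V Γ), HasOrdinaryReduction D Φ →
    ∀ (n j : ℕ) (x : HH F V n), D.TateClass n j x →
      j ≤ i ∨ (2 ≤ i ∧ D.NoSmallIsotropic (2 * j)) → D.ByDivisors n x

/-- The type `Φ` is good: for all abelian varieties (given by `D`) with an ordinary reduction of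
type `(K, Φ)`, all Tate classes on all powers are divisorial. -/
def GoodType {K : Type} [Field K] [NumberField K] [IsCMField K] (Φ : Finset (K →+* QBar)) : Prop :=
  ∀ (F V Γ : Type) [Field F] [CharZero F] [AddCommGroup V] [Module F V] [Group Γ]
    (D : Rep F V Γ), HasOrdinaryReduction (J := Unit) (K := fun _ => K) D (fun _ => Φ) →
    ∀ (n j : ℕ) (x : HH F V n), D.TateClass n j x → D.ByDivisors n x

theorem goodTypes_of_low {J : Type} [Fintype J] {K : J → Type} [∀ j, Field (K j)]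
    [∀ j, NumberField (K j)] [∀ j, IsCMField (K j)] (i : ℕ) (hi : 1 ≤ i)
    (Φ : ∀ j, Finset (K j →+* QBar)) (hcm : ∀ j, IsCMType (K j) (Φ j)) (hlow : Low Φ i) :
    GoodTypes i Φ := by
  classical
  intro F V Γ _ _ _ _ _ D hD r j x hx hj
  obtain ⟨p, hp, q, π, ι, e, b, φ, h1, h2, h3⟩ := hD
  have hrel : ∀ i', 1 ≤ i' → i' ≤ i → NoRelation (fun x : Σ j, K j →+* QBar => e (x.2 (π x.1)))
      (q : F) i' := by
    intro i' hi' hii'
    refine noRelation_of_low e p q π (fun j => (h1 j).1) ι Φ hcm (fun j => (h1 j).2) i' hi' ?_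
    intro f hf1 hf2 hf3
    exact hlow f hf1 (by omega) hf3
  rcases hj with hj | ⟨hi2, hj⟩
  · exact (byDivisors_iff D r x).2 (main_B D b _ φ h2 (i := i)
      (by rw [h3]; exact hrel i hi le_rfl) hj ((tateClass_iff D r j x).1 hx))
  · exact (byDivisors_iff D r x).2 (main_A D b _ φ h2
      (by rw [h3]; exact hrel 2 one_le_two hi2) hj ((tateClass_iff D r j x).1 hx))

theorem goodType_of_ndeg {K : Type} [Field K] [NumberField K] [IsCMField K]
    (Φ : Finset (K →+* QBar)) (hcm : IsCMType K Φ) (h : NDeg (HG K) cc Φ) : GoodType Φ := by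
  intro F V Γ _ _ _ _ _ D hD n j x hx
  exact goodTypes_of_low (J := Unit) (K := fun _ => K) (j + 1) (by omega) (fun _ => Φ)
    (fun _ => hcm) (low_of_ndeg Φ h (j + 1)) F V Γ D hD n j x hx (Or.inl (Nat.le_succ j))

/-- low codimension -/
theorem card_low : ∃ c : ℝ, 0 < c ∧ ∀ (r : ℕ) (K : Fin r → Type) [∀ j, Field (K j)]
    [∀ j, NumberField (K j)] [∀ j, IsCMField (K j)] (g i : ℕ), 1 ≤ i →
    (∀ j, 2 * g ≤ finrank ℚ (K j)) →
    i * (1 + Real.log (∑ j, finrank ℚ (K j) : ℕ)) ^ 4 ≤ c * g →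
    (Nat.card {Φ : ∀ j, Finset (K j →+* QBar) // (∀ j, IsCMType (K j) (Φ j)) ∧
        ¬ GoodTypes i Φ} : ℝ) ≤
      Real.exp (-(c * g / (i * (1 + Real.log (∑ j, finrank ℚ (K j) : ℕ))))) *
        Nat.card {Φ : ∀ j, Finset (K j →+* QBar) // ∀ j, IsCMType (K j) (Φ j)} := by
  classical
  obtain ⟨c, hc, h⟩ := Pool.Agent.LCD.cnt
  refine ⟨c, hc, ?_⟩
  intro r K _ _ _ g i hi hg hlog
  refine le_trans ?_ (h (Fin r) K g i hi hg hlog)
  have h1 : Nat.card {Φ : ∀ j, Finset (K j →+* QBar) // (∀ j, IsCMType (K j) (Φ j)) ∧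
        ¬ GoodTypes i Φ} ≤
      Nat.card {Φ : ∀ j, Finset (K j →+* QBar) // (∀ j, IsCMType (K j) (Φ j)) ∧ ¬ Low Φ i} := by
    refine Nat.card_le_card_of_injective (fun Φ => ⟨Φ.1, Φ.2.1, fun hlow => Φ.2.2
      (goodTypes_of_low i hi Φ.1 Φ.2.1 hlow)⟩) ?_
    intro Φ Ψ hΦΨ
    exact Subtype.ext (congrArg (fun x : {Φ : ∀ j, Finset (K j →+* QBar) //
      (∀ j, IsCMType (K j) (Φ j)) ∧ ¬ Low Φ i} => x.1) hΦΨ)
  exact_mod_cast h1

/-- all codimensions -/
theorem card_few : ∃ C : ℝ, 0 < C ∧ ∀ (K : Type) [Field K] [NumberField K] [IsCMField K],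
    8 * finrank ℚ (IntermediateField.normalClosure ℚ (maximalRealSubfield K) QBar) ≤
      finrank ℚ (IntermediateField.normalClosure ℚ K QBar) →
    (Nat.card {Φ : Finset (K →+* QBar) // IsCMType K Φ ∧ ¬ GoodType Φ} : ℝ) *
      √((finrank ℚ K : ℝ) * finrank ℚ (IntermediateField.normalClosure ℚ K QBar)) ≤
    C * √(finrank ℚ (IntermediateField.normalClosure ℚ (maximalRealSubfield K) QBar) : ℝ) *
      Nat.card {Φ : Finset (K →+* QBar) // IsCMType K Φ} := by
  classical
  obtain ⟨C, hC, h⟩ := Pool.Agent.CMV.few_degenerate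
  refine ⟨C, hC, ?_⟩
  intro K _ _ _ h8
  refine le_trans ?_ (h K h8)
  refine mul_le_mul_of_nonneg_right ?_ (Real.sqrt_nonneg _)
  have h1 : Nat.card {Φ : Finset (K →+* QBar) // IsCMType K Φ ∧ ¬ GoodType Φ} ≤
      Nat.card {Φ : Finset (K →+* QBar) // IsCMType K Φ ∧ ¬ NDeg (HG K) cc Φ} := by
    refine Nat.card_le_card_of_injective (fun Φ => ⟨Φ.1, Φ.2.1, fun hnd => Φ.2.2
      (goodType_of_ndeg Φ.1 Φ.2.1 hnd)⟩) ?_
    intro Φ Ψ hΦΨ
    exact Subtype.ext (congrArg (fun x : {Φ : Finset (K →+* QBar) // IsCMType K Φ ∧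
      ¬ NDeg (HG K) cc Φ} => x.1) hΦΨ)
  exact_mod_cast h1

end Pool.Agent.OneRed
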