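import Pool.Agent.OneRed.Classes
import Pool.Agent.RFC.Targets

set_option autoImplicit false

/-!
# One typical reduction: the definitions of the statement
-/

namespace Pool.Agent.OneRed

open Polynomial NumberField
open Pool.Agent.AWP (poly)
open Pool.Agent.RFC (IsWeil WBalanced)

section

variable {F V Γ : Type*} [Field F] [AddCommGroup V] [Module F V] [Group Γ]

/-- All Tate classes, of all codimensions on all powers, are linear combinations of products of
Tate classes of codimension one. -/
def Rep.AllByDivisors (D : Rep F V Γ) : Prop :=
  ∀ (r j : ℕ) (x : HH F V r), D.TateClass r j x → D.ByDivisors r x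

/-- The same for the codimensions `j < g / 2`. -/
def Rep.LowByDivisors (D : Rep F V Γ) (g : ℕ) : Prop :=
  ∀ (r j : ℕ) (x : HH F V r), 2 * j < g → D.TateClass r j x → D.ByDivisors r x

/-- No nonzero totally isotropic subspace is stable under a subgroup of finite index (by Faltings:
there is no factor of type IV). -/
def Rep.NoTypeIV (D : Rep F V Γ) : Prop :=
  ∀ W : Submodule F V, D.Isotropic W → D.Stable W → W = ⊥

/-- Some element of the group (the Frobenius of a place with `q` elements in the residue field)
has the value `q` of the character `χ` and the characteristic polynomial `P` on `V`. -/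
def Rep.HasFrobenius [FiniteDimensional F V] (D : Rep F V Γ) (q : ℕ) (P : F[X]) : Prop :=
  ∃ φ : Γ, (D.χ φ : F) = q ∧ ((D.ρ φ : V ≃ₗ[F] V) : V →ₗ[F] V).charpoly = P

end

/-- Every abelian variety over a number field with the Weil polynomial `P` at one place with `q`
elements in the residue field has only divisorial Tate classes. -/
def AllLifts (q : ℕ) (P : ℤ[X]) : Prop :=
  ∀ (F V Γ : Type) [Field F] [IsAlgClosed F] [CharZero F] [AddCommGroup V] [Module F V]
    [FiniteDimensional F V] [Group Γ] (D : Rep F V Γ),
    D.HasFrobenius q (P.map (Int.castRingHom F)) → D.AllByDivisors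

/-- All powers of `π` generate the field `K`. -/
def Generates {K : Type} [Field K] [NumberField K] (π : K) : Prop :=
  ∀ m : ℕ, 0 < m → IntermediateField.adjoin ℚ {π ^ m} = ⊤

/-- Every abelian variety over a number field, of dimension `g`, with the Weil `u`-number `π` at
one place has only divisorial Tate classes in the codimensions `j < g / 2`, and in all codimensions
if it has no factor of type IV or `π` is not balanced over an imaginary quadratic subfield. -/
def WeilLifts {K : Type} [Field K] [NumberField K] (g u : ℕ) (π : K) : Prop :=
  ∀ (F V Γ : Type) [Field F] [IsAlgClosed F] [CharZero F] [AddCommGroup V] [Module F V]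
    [FiniteDimensional F V] [Group Γ] (D : Rep F V Γ),
    D.HasFrobenius u ((minpoly ℚ π).map (algebraMap ℚ F)) →
      D.LowByDivisors g ∧ (D.NoTypeIV ∨ ¬ WBalanced u π → D.AllByDivisors)

/-- For all CM fields `K` of degree `2 g` which contain a root of the polynomial with the
coefficients `b`, all `u > 0` and all Weil `u`-numbers of `K` all powers of which generate `K`. -/
def AllLiftsCM {g : ℕ} (b : Fin g → ℤ) : Prop :=
  ∀ (K : Type) [Field K] [NumberField K] [IsCMField K], Module.finrank ℚ K = 2 * g →
    (∃ β : K, aeval β (poly b) = 0) → ∀ (u : ℕ) (π : K), 0 < u → IsWeil u π → Generates π →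
      WeilLifts g u π

end Pool.Agent.OneRed
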