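import Mathlib

set_option autoImplicit false

/-!
# Eigenbases of operators with a separable characteristic polynomial
-/

namespace Pool.Agent.OneRed.Rnd

open Polynomial Module

/-- an operator whose characteristic polynomial has the different roots `α s` has a basis of
eigenvectors -/
theorem eigbasis {F V S : Type*} [Field F] [AddCommGroup V] [Module F V] [FiniteDimensional F V]
    [Fintype S] (T : Module.End F V) (α : S → F) (hα : Function.Injective α)
    (h : T.charpoly = ∏ s, (X - C (α s))) : ∃ b : Basis S F V, ∀ s, T (b s) = α s • b s := by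
  classical
  have h1 : ∀ s, ∃ v, T.HasEigenvector (α s) v := by
    intro s
    have h2 : T.HasEigenvalue (α s) := by
      rw [Module.End.hasEigenvalue_iff_isRoot_charpoly, h, IsRoot.def, eval_prod]
      exact Finset.prod_eq_zero (Finset.mem_univ s) (by simp)
    exact h2.exists_hasEigenvector
  choose v hv using h1
  have hli : LinearIndependent F v :=
    Module.End.eigenvectors_linearIndependent' T α hα v hv
  have hcard : Fintype.card S = finrank F V := by
    have h2 := T.charpoly_natDegree
    rw [h, natDegree_prod_of_monic _ _ (fun s _ => monic_X_sub_C _)] at h2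
    simpa using h2
  have hsp : ⊤ ≤ Submodule.span F (Set.range v) :=
    (hli.span_eq_top_of_card_eq_finrank' hcard).ge
  refine ⟨Basis.mk hli hsp, fun s => ?_⟩
  rw [Basis.mk_apply]
  exact (hv s).apply_eq_smul

/-- a monic separable polynomial over an algebraically closed field -/
theorem prod_roots {F : Type*} [Field F] [IsAlgClosed F] (P : F[X]) (hm : P.Monic)
    (hs : P.Separable) (S : Type*) [Fintype S] (α : S → F) (hα : Function.Injective α)
    (h1 : ∀ s, P.IsRoot (α s)) (h2 : ∀ x, P.IsRoot x → ∃ s, α s = x) :
    P = ∏ s, (X - C (α s)) := by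
  classical
  have hsp : P.Splits := IsAlgClosed.splits P
  have h3 : P = (P.roots.map (fun a => X - C a)).prod := by
    conv_lhs => rw [hsp.eq_prod_roots_of_monic hm]
  have h4 : P.roots = (Finset.univ : Finset S).val.map α := by
    refine Multiset.Nodup.ext (nodup_roots hs) ?_ |>.2 ?_
    · exact Multiset.Nodup.map hα Finset.univ.nodup
    · intro x
      rw [mem_roots hm.ne_zero]
      constructor
      · intro hx
        obtain ⟨s, hs⟩ := h2 x hx
        exact Multiset.mem_map.2 ⟨s, Finset.mem_univ s, hs⟩
      · intro hx
        obtain ⟨s, -, hs⟩ := Multiset.mem_map.1 hx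
        rw [← hs]
        exact h1 s
  rw [h4, Multiset.map_map] at h3
  exact h3

end Pool.Agent.OneRed.Rnd
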