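import Pool.Agent.OneRed.Defs
import Pool.Agent.OneRed.RndEig
import Pool.Agent.FQW.GD
import Pool.Agent.RFC.Targets2
import Pool.Agent.RFC.WC

set_option autoImplicit false

/-!
# Relations between the roots of Weil polynomials and between the conjugates of Weil numbers
-/

namespace Pool.Agent.OneRed.Rnd

open Polynomial Finset
open Pool.Agent.CMT (QBar)
open Pool.Agent.AWP (poly IsRealWeil weil Root)
open Pool.Agent.FQW (HZ P IsRt Indep)
open Pool.Agent.RFC (WTateWeight WDivisorial IsWeil)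

/-- the only multiplicative relations between the roots of the Weil polynomial are the trivial
ones -/
def IndW {g : ℕ} (q : ℕ) (b : Fin g → ℤ) : Prop :=
  ∀ R : Finset QBar, (∀ α, α ∈ R ↔ aeval α (weil q b) = 0) → ∀ e : QBar → ℤ,
    (∃ N : ℕ, 0 < N ∧ ∃ s : ℤ, (∏ α ∈ R, α ^ e α) ^ N = (q : QBar) ^ s) →
      ∀ α ∈ R, e α = e (q / α)

theorem indW_of {q g : ℕ} (hq : 0 < q) {a b : Fin g → ℤ} (hb : poly b = HZ q a)
    (h : Indep q a) : IndW q b := by
  intro R hR e he α hα
  exact h R (fun β => (hR β).trans (Pool.Agent.FQW.IRW_.isRt_iff hq hb β).symm) e he α hα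

theorem finite_root {q g : ℕ} (b : Fin g → ℤ) : Finite (Root q b) := by
  classical
  have h : ∀ α : QBar, aeval α (weil q b) = 0 ↔ α ∈ ((weil q b).aroots QBar).toFinset := by
    intro α
    rw [Multiset.mem_toFinset, mem_aroots]
    exact ⟨fun h => ⟨(Pool.Agent.AWP.ROIR_.weil_monic q b).ne_zero, h⟩, fun h => h.2⟩
  exact Set.Finite.to_subtype (s := {α : QBar | aeval α (weil q b) = 0})
    ((Finset.finite_toSet _).subset fun α hα => (h α).1 hα)

/-- no relations between the eigenvalues of Frobenius -/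
theorem noRel_root {F : Type*} [Field F] {q g : ℕ} (hq : 0 < q) {b : Fin g → ℤ}
    (h : IndW q b) (ι : QBar →+* F) [Fintype (Root q b)] [DecidableEq (Root q b)] (i : ℕ) :
    NoRelation (fun s : Root q b => ι s.1) (q : F) i := by
  classical
  intro j _ w hw s s' hss
  obtain ⟨N, hN, hprod⟩ := hw
  have hprod' : (∏ k, (w k).1) ^ N = (q : QBar) ^ (j * N) := by
    apply ι.injective
    rw [map_pow, map_prod, map_pow, map_natCast]
    exact hprod
  have hss' : s.1 * s'.1 = (q : QBar) := by
    apply ι.injective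
    rw [map_mul, map_natCast]
    exact hss
  have hs0 : s.1 ≠ 0 := Pool.Agent.AWP.ROIR_.ne_zero hq s.2
  have hs' : s'.1 = (q : QBar) / s.1 := by
    rw [eq_div_iff hs0, mul_comm]
    exact hss'
  obtain ⟨R, hR⟩ : ∃ R : Finset QBar, ∀ α, α ∈ R ↔ aeval α (weil q b) = 0 := by
    refine ⟨((weil q b).aroots QBar).toFinset, fun α => ?_⟩
    rw [Multiset.mem_toFinset, mem_aroots]
    exact ⟨fun h => h.2, fun h => ⟨(Pool.Agent.AWP.ROIR_.weil_monic q b).ne_zero, h⟩⟩
  have hmaps : ∀ k ∈ (univ : Finset (Fin (2 * j))), ((w k).1 : QBar) ∈ R :=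
    fun k _ => (hR _).2 (w k).2
  have hfib := Finset.prod_fiberwise_of_maps_to hmaps (fun k => ((w k).1 : QBar))
  have hpr : ∏ β ∈ R, β ^ ((((univ.filter fun k => ((w k).1 : QBar) = β).card : ℕ) : ℤ)) =
      ∏ k, ((w k).1 : QBar) := by
    rw [← hfib]
    refine prod_congr rfl fun β _ => ?_
    rw [zpow_natCast, prod_congr rfl (g := fun _ => β), prod_const]
    intro x hx
    exact (mem_filter.1 hx).2
  have hkey := h R hR (fun β => (((univ.filter fun k => ((w k).1 : QBar) = β).card : ℕ) : ℤ))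
    ⟨N, hN, ((j * N : ℕ) : ℤ), by rw [hpr, hprod', zpow_natCast]⟩ s.1 ((hR _).2 s.2)
  have hkey' : (univ.filter fun k => ((w k).1 : QBar) = s.1).card =
      (univ.filter fun k => ((w k).1 : QBar) = q / s.1).card := by exact_mod_cast hkey
  have e1 : (univ.filter fun k => w k = s) = (univ.filter fun k => ((w k).1 : QBar) = s.1) :=
    filter_congr fun x _ => Subtype.ext_iff
  have e2 : (univ.filter fun k => w k = s') =
      (univ.filter fun k => ((w k).1 : QBar) = q / s.1) := by
    refine filter_congr fun x _ => ?_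
    rw [← hs']
    exact Subtype.ext_iff
  rw [e1, e2]
  exact hkey'

/-- the characteristic polynomial of Frobenius -/
theorem weil_prod {F : Type*} [Field F] {q g : ℕ} {b : Fin g → ℤ}
    (hirr : Irreducible (weil q b)) (ι : QBar →+* F) [Fintype (Root q b)] :
    (weil q b).map (Int.castRingHom F) = ∏ s : Root q b, (X - C (ι s.1)) := by
  have hm := Pool.Agent.AWP.ROIR_.weil_monic q b
  have hirrQ : Irreducible ((weil q b).map (algebraMap ℤ ℚ)) :=
    (hm.irreducible_iff_irreducible_map_fraction_map).1 hirr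
  have hsep : ((weil q b).map (algebraMap ℤ QBar)).Separable := by
    have h1 := hirrQ.separable.map (f := algebraMap ℚ QBar)
    rw [Polynomial.map_map, ← IsScalarTower.algebraMap_eq ℤ ℚ QBar] at h1
    exact h1
  have h1 := prod_roots ((weil q b).map (algebraMap ℤ QBar)) (hm.map _) hsep (Root q b)
    (fun s => s.1) Subtype.val_injective
    (fun s => by
      rw [IsRoot.def, eval_map_algebraMap]
      exact s.2)
    (fun x hx => ⟨⟨x, by rwa [IsRoot.def, eval_map_algebraMap] at hx⟩, rfl⟩)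
  have h2 : (weil q b).map (Int.castRingHom F) =
      ((weil q b).map (algebraMap ℤ QBar)).map ι := by
    rw [Polynomial.map_map]
    congr 1
    exact RingHom.ext_int _ _
  rw [h2, h1, Polynomial.map_prod]
  simp

/-! ### Weil numbers in CM fields -/

section CM

open NumberField
open Pool.Agent.CMT (cc)

variable {K : Type} [Field K] [NumberField K]

theorem eq_of_pow {π : K} (h : ∀ m : ℕ, 0 < m → IntermediateField.adjoin ℚ {π ^ m} = ⊤)
    {f f' : K →+* QBar} {m : ℕ} (hm : 0 < m) (hff : f π ^ m = f' π ^ m) : f = f' := by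
  ext x
  have hx : x ∈ IntermediateField.adjoin ℚ {π ^ m} := by
    rw [h m hm]
    trivial
  refine IntermediateField.adjoin_induction ℚ (p := fun x _ => f x = f' x) ?_ ?_ ?_ ?_ ?_ hx
  · intro y hy
    rw [Set.mem_singleton_iff] at hy
    rw [hy, map_pow, map_pow, hff]
  · intro r
    simp
  · intro y z _ _ hy hz
    rw [map_add, map_add, hy, hz]
  · intro y _ hy
    rw [map_inv₀, map_inv₀, hy]
  · intro y z _ _ hy hz
    rw [map_mul, map_mul, hy, hz]

variable [IsCMField K]

open Classical in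
/-- the two conjugate embeddings occur equally often in a divisorial Tate weight -/
theorem count_eq {q : ℕ} (hq : 0 < q) {π : K} (hπ : IsWeil q π)
    (h : ∀ m : ℕ, 0 < m → IntermediateField.adjoin ℚ {π ^ m} = ⊤) {n : ℕ}
    {Δ : Finset ((K →+* QBar) × Fin n)} (hΔ : WDivisorial q π Δ) (f : K →+* QBar) :
    (Δ.filter fun x => x.1 = f).card = (Δ.filter fun x => x.1 = cc f).card := by
  obtain ⟨D, hD1, hD2, hD3⟩ := hΔ
  have hbi : ∀ f : K →+* QBar, (Δ.filter fun x => x.1 = f).card =
      ∑ B ∈ D, (B.filter fun x => x.1 = f).card := by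
    intro f
    rw [← card_biUnion]
    · congr 1
      ext x
      rw [mem_filter, mem_biUnion, hD2]
      constructor
      · rintro ⟨⟨B, hB, hx⟩, hxf⟩
        exact ⟨B, hB, mem_filter.2 ⟨hx, hxf⟩⟩
      · rintro ⟨B, hB, hx⟩
        rw [mem_filter] at hx
        exact ⟨⟨B, hB, hx.1⟩, hx.2⟩
    · intro B hB B' hB' hne
      exact disjoint_filter_filter (hD1 hB hB' hne)
  rw [hbi, hbi]
  refine sum_congr rfl fun B hB => ?_
  obtain ⟨hc, N, hN, hprod⟩ := hD3 B hB
  obtain ⟨x, y, hxy, rfl⟩ := card_eq_two.1 hc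
  rw [prod_pair hxy, one_mul] at hprod
  have hq0 : (q : QBar) ≠ 0 := by exact_mod_cast hq.ne'
  have hmul := Pool.Agent.RFC.WC_.mul_cc hπ x.1
  have hx0 : x.1 π ≠ 0 := by
    intro h0
    rw [h0, zero_mul] at hmul
    exact hq0 hmul.symm
  have hy : y.1 = cc x.1 := by
    refine eq_of_pow h hN ?_
    have h1 : x.1 π ^ N * y.1 π ^ N = x.1 π ^ N * (cc x.1) π ^ N := by
      rw [← mul_pow, ← mul_pow, hprod, hmul]
    exact mul_left_cancel₀ (pow_ne_zero N hx0) h1
  have hcc : ∀ f : K →+* QBar, cc (cc f) = f := Pool.Agent.CMT.cc_cc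
  have e1 : (y.1 = f) ↔ (x.1 = cc f) := by
    rw [hy]
    exact ⟨fun h => by rw [← h, hcc], fun h => by rw [h, hcc]⟩
  have e2 : (y.1 = cc f) ↔ (x.1 = f) := by
    rw [hy]
    exact ⟨fun h => by rw [← hcc x.1, h, hcc], fun h => by rw [h]⟩
  have hcard : ∀ P : (K →+* QBar) × Fin n → Prop, (({x, y} : Finset _).filter P).card =
      (if P x then 1 else 0) + (if P y then 1 else 0) := by
    intro P
    rw [card_filter, sum_pair hxy]
  rw [hcard, hcard]
  simp only [e1, e2]
  rw [add_comm]

/-- no relations between the conjugates of a Weil number -/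
theorem noRel_cm {F : Type*} [Field F] {q : ℕ} (hq : 0 < q) {π : K} (hπ : IsWeil q π)
    (h : ∀ m : ℕ, 0 < m → IntermediateField.adjoin ℚ {π ^ m} = ⊤) (i : ℕ)
    (hT : ∀ j ≤ i, ∀ (n : ℕ) (Δ : Finset ((K →+* QBar) × Fin n)), WTateWeight q π j Δ →
      WDivisorial q π Δ) (ι : QBar →+* F) [DecidableEq (K →+* QBar)] :
    NoRelation (fun f : K →+* QBar => ι (f π)) (q : F) i := by
  intro j hj w hw s s' hss
  obtain ⟨N, hN, hprod⟩ := hw
  have hq0 : (q : QBar) ≠ 0 := by exact_mod_cast hq.ne'
  have hprod' : (∏ k, (w k) π) ^ N = (q : QBar) ^ (j * N) := by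
    apply ι.injective
    rw [map_pow, map_prod, map_pow, map_natCast]
    exact hprod
  have hss' : s π * s' π = (q : QBar) := by
    apply ι.injective
    rw [map_mul, map_natCast]
    exact hss
  have hmul := Pool.Agent.RFC.WC_.mul_cc hπ s
  have hs0 : s π ≠ 0 := by
    intro h0
    rw [h0, zero_mul] at hmul
    exact hq0 hmul.symm
  have hs' : s' = cc s := by
    refine eq_of_pow h one_pos ?_
    rw [pow_one, pow_one]
    exact mul_left_cancel₀ hs0 (hss'.trans hmul.symm)
  set emb : Fin (2 * j) ↪ (K →+* QBar) × Fin (2 * j) :=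
    ⟨fun k => (w k, k), fun k l hkl => congrArg Prod.snd hkl⟩ with hemb
  have hΔ : WTateWeight q π j (univ.map emb) := by
    refine ⟨by rw [card_map, card_univ, Fintype.card_fin], N, hN, ?_⟩
    rw [prod_map]
    exact hprod'
  have hcount := count_eq hq hπ h (hT j hj (2 * j) _ hΔ) s
  have hc : ∀ f : K →+* QBar, ((univ.map emb).filter fun x => x.1 = f).card =
      (univ.filter fun k => w k = f).card := by
    intro f
    rw [filter_map, card_map]
    rfl
  rw [hs']
  have h1 := hc s
  have h2 := hc (cc s)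
  convert hcount using 1
  · rw [← h1]
    congr!
  · rw [← h2]
    congr!

/-- the characteristic polynomial of Frobenius -/
theorem minpoly_prod {F : Type*} [Field F] [CharZero F] {π : K}
    (h : ∀ m : ℕ, 0 < m → IntermediateField.adjoin ℚ {π ^ m} = ⊤) (ι : QBar →+* F) :
    (minpoly ℚ π).map (algebraMap ℚ F) = ∏ f : K →+* QBar, (X - C (ι (f π))) := by
  have hint : IsIntegral ℚ π := Algebra.IsIntegral.isIntegral π
  have hsep : ((minpoly ℚ π).map (algebraMap ℚ QBar)).Separable :=
    ((minpoly.irreducible hint).separable).map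
  have hroot : ∀ x : QBar, ((minpoly ℚ π).map (algebraMap ℚ QBar)).IsRoot x ↔
      ∃ f : K →+* QBar, f π = x := by
    intro x
    have h1 := NumberField.Embeddings.range_eval_eq_rootSet_minpoly K QBar π
    have h2 : x ∈ (minpoly ℚ π).rootSet QBar ↔ ∃ f : K →+* QBar, f π = x := by
      rw [← h1]
      rfl
    rw [← h2, mem_rootSet, IsRoot.def, eval_map_algebraMap]
    exact ⟨fun h => ⟨minpoly.ne_zero hint, h⟩, fun h => h.2⟩
  have h1 := prod_roots ((minpoly ℚ π).map (algebraMap ℚ QBar))
    ((minpoly.monic hint).map _) hsep (K →+* QBar) (fun f => f π)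
    (fun f f' hff => eq_of_pow h one_pos (by rw [pow_one, pow_one]; exact hff))
    (fun f => (hroot _).2 ⟨f, rfl⟩) (fun x hx => (hroot x).1 hx)
  have h2 : (minpoly ℚ π).map (algebraMap ℚ F) =
      ((minpoly ℚ π).map (algebraMap ℚ QBar)).map ι := by
    rw [Polynomial.map_map]
    congr 1
    exact RingHom.ext_rat _ _
  rw [h2, h1, Polynomial.map_prod]
  simp

end CM

end Pool.Agent.OneRed.Rnd
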