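import Pool.Agent.OneRed.RndCount
import Pool.Agent.OneRed.RndRel
import Pool.Agent.FQW.TOP
import Pool.Agent.FQW.FINP
import Pool.Agent.FQW.STEP
import Pool.Agent.FQW.LOWER
import Pool.Agent.FQW.LOWA
import Pool.Agent.FQW.STAR
import Pool.Agent.FQW.LAT
import Pool.Agent.FQW.DET
import Pool.Agent.FQW.TLOW
import Pool.Agent.FQW.TLA
import Pool.Agent.FQW.TUP
import Pool.Agent.FQW.TUA
import Pool.Agent.FQW.TUB
import Pool.Agent.FQW.PAIRS
import Pool.Agent.FQW.PAA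
import Pool.Agent.FQW.PAB
import Pool.Agent.FQW.TYP
import Pool.Agent.FQW.KPA
import Pool.Agent.FQW.CLUS
import Pool.Agent.FQW.E2A
import Pool.Agent.FQW.E2B
import Pool.Agent.FQW.E2C
import Pool.Agent.FQW.LAM
import Pool.Agent.FQW.E4
import Pool.Agent.FQW.E5A
import Pool.Agent.FQW.E5B
import Pool.Agent.FQW.E5
import Pool.Agent.FQW.E6A
import Pool.Agent.FQW.E6B
import Pool.Agent.FQW.KP
import Pool.Agent.FQW.E7
import Pool.Agent.FQW.E8
import Pool.Agent.FQW.PD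
import Pool.Agent.FQW.VC
import Pool.Agent.FQW.CNT
import Pool.Agent.FQW.IRC
import Pool.Agent.FQW.PDV
import Pool.Agent.FQW.BOX
import Pool.Agent.FQW.SM
import Pool.Agent.FQW.SMA
import Pool.Agent.FQW.RED
import Pool.Agent.FQW.REDA
import Pool.Agent.FQW.PRG
import Pool.Agent.FQW.FRB1
import Pool.Agent.FQW.FRB2
import Pool.Agent.FQW.IRW
import Pool.Agent.FQW.RELA
import Pool.Agent.FQW.RELB
import Pool.Agent.FQW.RELC
import Pool.Agent.FQW.CV
import Pool.Agent.RFC.ABS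
import Pool.Agent.RFC.LCELL
import Pool.Agent.RFC.EMB
import Pool.Agent.RFC.QUAD
import Pool.Agent.RFC.ABS2
import Pool.Agent.RFC.SPLIT
import Pool.Agent.RFC.LOW
import Pool.Agent.RFC.WC2

set_option autoImplicit false

/-!
# Random Weil polynomials: almost all of them have no relations and a long cycle
-/

namespace Pool.Agent.OneRed.Rnd

open Polynomial Finset
open Pool.Agent.CMT (QBar)
open Pool.Agent.AWP (poly IsRealWeil weil Root)
open Pool.Agent.FQW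
open Pool.Agent.RFC (Long GoodW2 T_WC2 tWC2 tEMB tQUAD tABS2 tABS tSPLIT tLOW)

theorem q_TOP : T_TOP := tTOP tFINP tSTEP

theorem q_LOWER : T_LOWER := tLOWER tLOWA tFINP

theorem q_STAR : T_STAR := tSTAR tFINP q_TOP tLAT tDET

theorem q_TLOW : T_TLOW := tTLOW tFINP q_LOWER q_STAR tTLA

theorem q_TUP : T_TUP := tTUP tTUA tTUB

theorem q_PAIRS : T_PAIRS := tPAIRS tFINP q_LOWER q_STAR (tPAA q_TUP) tPAB

theorem q_TYP : T_TYP := tTYP tFINP q_TLOW q_PAIRS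

theorem q_KPA : T_KPA := tKPA tFINP tCLUS q_TUP (tE2A tCLUS) (tE2B tCLUS) (tE2C tCLUS q_TUP)
  (tE4 tLAM) (tE5 tE5A tE5B) tE6A tE6B

theorem q_KP : T_KP := tKP tFINP tCLUS tE7 tE8 q_KPA

theorem q_PD : T_PD := tPD tVC tCNT tIRC (tPDV tVC tCNT)

theorem q_BOX : T_BOX := tBOX q_PD (tSM tSMA)

theorem q_WC2 : T_WC2 := tWC2 tEMB tQUAD (tABS2 tABS) tSPLIT tLOW

/-- irreducible Weil polynomial without relations, and a long cycle -/
theorem stat (q : ℕ) (hq : 2 ≤ q) : ∃ c : ℝ, 0 < c ∧ ∃ g₀ : ℕ, ∀ g : ℕ, g₀ ≤ g →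
    {b : Fin g → ℤ | IsRealWeil q b}.Finite ∧ 0 < {b : Fin g → ℤ | IsRealWeil q b}.ncard ∧
    (({b : Fin g → ℤ | IsRealWeil q b ∧
      ¬ (Long b ∧ Irreducible (weil q b) ∧ IndW q b)}.ncard : ℕ) : ℝ) ≤
      Real.exp (-(c * g)) * ({b : Fin g → ℤ | IsRealWeil q b}.ncard : ℕ) := by
  refine tMAING tFINP q_LOWER q_TYP q_KP tCV q hq
    (fun g b => Long b ∧ Irreducible (weil q b) ∧ IndW q b) ?_
  refine tCELLG (tRED tFINP q_TOP tREDA) tPRG q_BOX q hq _ ?_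
  intro g p l _ hl hlq hp hp3 hgp hpg a ha hirr hpat b hb
  obtain ⟨hT, hc, hs, hw⟩ := tIRW q g hq (by omega) a ha hirr
  obtain ⟨τ, ρ, hcyc⟩ := tFRB1 q g p l hq hl hlq hp hp3 hgp hpg a hpat
  have hinv := tFRB2 q g p l hq hl hlq a hpat
  have h1 := tRELB q g p hq hp hp3 hgp hpg a hT hc hinv τ ρ hcyc
  have h2 := tRELC q g p hq hp hp3 hgp hpg a hT hc hs hinv τ ρ hcyc h1
  exact ⟨Pool.Agent.RFC.LCELL_.long_of_pattern tFRB1 q g p l hq hl hlq hp hp3 hgp hpg a hirr hpat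
    b hb, hw b hb, indW_of (by omega) hb (tRELA q g hq a hT h2)⟩

end Pool.Agent.OneRed.Rnd
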