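import Pool.Agent.AWP.MAIN
import Pool.Agent.AWP.FIN

set_option autoImplicit false

/-!
# Tuples of random Weil polynomials: the count for a general property
-/

namespace Pool.Agent.OneRed.Rnd

open Polynomial Finset
open Pool.Agent.CMT (QBar)
open Pool.Agent.AWP
open Pool.Agent.AWP.MAIN_
open scoped BigOperators

/-- the outcome of the algebra: a tuple without exceptions is good -/
theorem good_ofG (h6 : T_FROB) (h7 : T_TRANS) (h8 : T_CONJ) (h9 : T_ROU) (h11 : T_IRR)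
    {r : ℕ} (g : Fin r → ℕ) (hg : ∀ j, 1 ≤ g j) (q : ℕ) (hq : 0 < q)
    (G : ℕ → (∀ j, Fin (g j) → ℤ) → Prop)
    (h12 : ∀ q : ℕ, 0 < q → ∀ b : ∀ j, Fin (g j) → ℤ, (∀ j, Irreducible (weil q (b j))) →
      (∀ (j : Fin r) (y : QBar), aeval y (poly (b j)) = 0 → HasFlip q b j y) →
      (∀ (j : Fin r) (α : QBar), aeval α (weil q (b j)) = 0 → ∀ N : ℕ, 0 < N →
        (α ^ 2) ^ N ≠ (q : QBar) ^ N) → G q b)
    (P : Finset ℕ) (hP : ∀ l ∈ P, l.Prime ∧ 3 ≤ l ∧ ¬ l ∣ q) (b : ∀ j, Fin (g j) → ℤ)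
    (hb : b ∈ Tuples g q) (hb1 : ∀ j, ∃ l ∈ P, Pattern l q j (red l b))
    (hb2 : ∀ j, ∃ l ∈ P, Irreducible (poly (fun i => (b j i : ZMod l))))
    (hb3 : ∀ j, b j ∉ SS (g j) q) : G q b := by
  have hflip : ∀ (j : Fin r) (y : QBar), aeval y (poly (b j)) = 0 → HasFlip q b j y := by
    intro j y hy
    obtain ⟨l, hl, hpat⟩ := hb1 j
    obtain ⟨y₀, hy₀⟩ := h6 r g q b j l (hP l hl).1 (hP l hl).2.1 (hP l hl).2.2 hpat
    obtain ⟨l', hl', hirr⟩ := hb2 j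
    exact h8 r g q b j y₀ y hy₀ ((h7 (g j) (hg j) (b j) l' (hP l' hl').1 hirr).2 y₀ y hy₀.1 hy)
  have hirr : ∀ j, Irreducible (weil q (b j)) := by
    intro j
    obtain ⟨l', hl', hirr⟩ := hb2 j
    exact h11 r g q hq b j (hg j) (h7 (g j) (hg j) (b j) l' (hP l' hl').1 hirr).1 (hflip j)
  refine h12 q hq b hirr hflip ?_
  intro j α hα N hN h
  by_cases h2 : 2 ≤ g j
  · exact h9 r g q hq b j h2 (hirr j) (hflip j) α hα N hN h
  · have h1 := hg j
    exact hb3 j ⟨by omega, hb j, α, hα, N, hN, h⟩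

/-- almost all tuples have a property which follows from the flips -/
theorem tupG (h1 : T_LOWER) (h2 : T_UPPER) (h3 : T_CRTB) (h4 : T_PAT) (h5 : T_IRRD)
    (h6 : T_FROB) (h7 : T_TRANS) (h8 : T_CONJ) (h9 : T_ROU) (h10 : T_ONE) (h11 : T_IRR)
    (r : ℕ) (g : Fin r → ℕ) (hg : ∀ j, 1 ≤ g j) (G : ℕ → (∀ j, Fin (g j) → ℤ) → Prop)
    (h12 : ∀ q : ℕ, 0 < q → ∀ b : ∀ j, Fin (g j) → ℤ, (∀ j, Irreducible (weil q (b j))) →
      (∀ (j : Fin r) (y : QBar), aeval y (poly (b j)) = 0 → HasFlip q b j y) →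
      (∀ (j : Fin r) (α : QBar), aeval α (weil q (b j)) = 0 → ∀ N : ℕ, 0 < N →
        (α ^ 2) ^ N ≠ (q : QBar) ^ N) → G q b) (ε : ℝ) (hε : 0 < ε) :
    ∃ q₀ : ℕ, ∀ p a q : ℕ, p.Prime → q = p ^ a → q₀ ≤ q →
      (Tuples g q).Finite ∧ 0 < (Tuples g q).ncard ∧
      (({b ∈ Tuples g q | ¬ G q b}.ncard : ℕ) : ℝ) ≤ ε * ((Tuples g q).ncard : ℕ) := by
  classical
  choose c hc0 qc hc using h1
  choose δ1 hδ10 hδ11 L1 hL1 using h4 r g hg
  choose δ2 hδ20 hδ21 L2 hL2 using fun j => h5 (g j) (hg j)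
  -- constants
  set cc : ℝ := ∏ j, c (g j) with hcc
  have hcc0 : 0 < cc := prod_pos fun j _ => hc0 _
  set C' : ℝ := ∏ j, Kc (g j) with hC'
  have hC'0 : 0 < C' := prod_pos fun j _ => lt_of_lt_of_le one_pos (Kc_one_le _)
  set η : ℝ := ε * cc / (4 * (r + 1) * C') with hη
  have hη0 : 0 < η := by positivity
  obtain ⟨k1, hk1⟩ := exists_pow δ1 hδ10 hδ11 η hη0
  obtain ⟨k2, hk2⟩ := exists_pow δ2 hδ20 hδ21 η hη0
  obtain ⟨P0, hP0, hP0c⟩ := exists_primes (∑ j, (L1 j + L2 j) + 3) (k1 + k2 + 1)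
  have hL1le : ∀ j, L1 j ≤ ∑ j, (L1 j + L2 j) := fun j =>
    le_trans (Nat.le_add_right _ _) (single_le_sum (f := fun j => L1 j + L2 j)
      (fun i _ => Nat.zero_le _) (mem_univ j))
  have hL2le : ∀ j, L2 j ≤ ∑ j, (L1 j + L2 j) := fun j =>
    le_trans (Nat.le_add_left _ _) (single_le_sum (f := fun j => L1 j + L2 j)
      (fun i _ => Nat.zero_le _) (mem_univ j))
  set Q0 : ℝ := ∏ l ∈ P0, (l : ℝ) with hQ0
  have hQ01 : 1 ≤ Q0 := by
    have h13 : 1 ≤ ∏ l ∈ P0, l := Nat.succ_le_of_lt (prod_pos fun l hl => (hP0 l hl).1.pos)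
    rw [hQ0, ← Nat.cast_prod]
    exact_mod_cast h13
  -- the threshold
  obtain ⟨qs, hqs⟩ : ∃ qs : ℕ, ∀ q : ℕ, qs ≤ q → 1 + Q0 ≤ Real.sqrt q ∧
      9 / Real.sqrt q ≤ 2 * η := by
    obtain ⟨N, hN⟩ := exists_nat_ge ((1 + Q0 + 9 / (2 * η)) ^ 2)
    refine ⟨N, fun q hq => ?_⟩
    have h13 : (1 + Q0 + 9 / (2 * η)) ^ 2 ≤ (q : ℝ) := hN.trans (by exact_mod_cast hq)
    have h14 : 0 ≤ 9 / (2 * η) := by positivity
    have h15 : 1 + Q0 + 9 / (2 * η) ≤ Real.sqrt q := Real.le_sqrt_of_sq_le h13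
    refine ⟨by linarith, ?_⟩
    have h16 : 0 < Real.sqrt q := by linarith
    have h17 : 9 / (2 * η) ≤ Real.sqrt q := by linarith
    rw [div_le_iff₀ h16]
    rw [div_le_iff₀ (by positivity)] at h17
    linarith
  refine ⟨qs + ∑ j, qc (g j) + 1, ?_⟩
  intro p a q hp hqpa hq
  have hqpos : 0 < q := by omega
  obtain ⟨hs1, hs2⟩ := hqs q (by omega)
  have hs3 : 2 ≤ Real.sqrt q := by linarith
  have hs4 : 1 ≤ Real.sqrt q := by linarith
  have hqc : ∀ j, qc (g j) ≤ q := by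
    intro j
    have : qc (g j) ≤ ∑ j, qc (g j) :=
      single_le_sum (f := fun j => qc (g j)) (fun i _ => Nat.zero_le _) (mem_univ j)
    omega
  -- the number of tuples
  obtain ⟨hTf, hTc⟩ := ncard_pi (fun j => RW (g j) q) (fun j => finite_RW h2 _ q)
  have hT : {b : ∀ j, Fin (g j) → ℤ | ∀ j, b j ∈ RW (g j) q} = Tuples g q := rfl
  rw [hT] at hTf hTc
  set V : ℝ := ∏ j, VV (g j) q with hV
  have hV0 : 0 < V := prod_pos fun j _ => VV_pos _ q hs4
  have hlow : cc * V ≤ (((Tuples g q).ncard : ℕ) : ℝ) := by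
    rw [hTc, hcc, hV, ← prod_mul_distrib]
    push_cast
    refine prod_le_prod (fun j _ => mul_nonneg (hc0 _).le (VV_pos _ q hs4).le) fun j _ => ?_
    exact hc (g j) q (hqc j)
  have hpos : (0 : ℝ) < (((Tuples g q).ncard : ℕ) : ℝ) :=
    lt_of_lt_of_le (mul_pos hcc0 hV0) hlow
  refine ⟨hTf, by exact_mod_cast hpos, ?_⟩
  -- the primes
  set P : Finset ℕ := P0.erase p with hPdef
  have hPsub : P ⊆ P0 := erase_subset _ _
  have hPcard : k1 + k2 ≤ P.card := by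
    have h13 : P0.card - 1 ≤ P.card := pred_card_le_card_erase
    omega
  have hPdvd : ∀ l ∈ P, ¬ l ∣ q := by
    intro l hl hdvd
    rw [hqpa] at hdvd
    have h13 := (hP0 l (hPsub hl)).1.dvd_of_dvd_pow hdvd
    have h14 := (Nat.prime_dvd_prime_iff_eq (hP0 l (hPsub hl)).1 hp).1 h13
    exact (ne_of_mem_erase hl) h14
  have hPQ : 1 + ∏ l ∈ P, (l : ℝ) ≤ Real.sqrt q := by
    have h13 : ∏ l ∈ P, (l : ℝ) ≤ Q0 := by
      have h14 : ∏ l ∈ P, l ≤ ∏ l ∈ P0, l := by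
        refine prod_le_prod_of_subset_of_one_le' hPsub ?_
        intro l hl _
        exact (hP0 l hl).1.one_le
      rw [hQ0, ← Nat.cast_prod, ← Nat.cast_prod]
      exact_mod_cast h14
    linarith
  have hpr : ∀ l ∈ P, l.Prime := fun l hl => (hP0 l (hPsub hl)).1
  have hpow1 : ∀ j, (1 - δ1 j) ^ P.card ≤ η := fun j =>
    (pow_le_pow_of_le_one (by linarith [hδ11 j]) (by linarith [hδ10 j]) (by omega)).trans (hk1 j)
  have hpow2 : ∀ j, (1 - δ2 j) ^ P.card ≤ η := fun j =>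
    (pow_le_pow_of_le_one (by linarith [hδ21 j]) (by linarith [hδ20 j]) (by omega)).trans (hk2 j)
  have hVV0 : ∀ i, 0 ≤ Kc (g i) * VV (g i) q := fun i =>
    mul_nonneg (le_trans zero_le_one (Kc_one_le _)) (VV_pos _ q hs4).le
  have hCV : ∏ i, (Kc (g i) * VV (g i) q) = C' * V := by rw [prod_mul_distrib]
  -- the exceptions
  set B1 : Fin r → Set (∀ j, Fin (g j) → ℤ) :=
    fun j => {b ∈ Tuples g q | ∀ l ∈ P, ¬ Pattern l q j (red l b)} with hB1
  set B2 : Fin r → Set (∀ j, Fin (g j) → ℤ) :=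
    fun j => {b ∈ Tuples g q | b j ∈ {x ∈ RW (g j) q |
      ∀ l ∈ P, ¬ Irreducible (poly (fun i => (x i : ZMod l)))}} with hB2
  set B3 : Fin r → Set (∀ j, Fin (g j) → ℤ) :=
    fun j => {b ∈ Tuples g q | b j ∈ SS (g j) q} with hB3
  have hB1f : ∀ j, (B1 j).Finite := fun j => hTf.subset fun b hb => hb.1
  have hB2f : ∀ j, (B2 j).Finite := fun j => hTf.subset fun b hb => hb.1
  have hB3f : ∀ j, (B3 j).Finite := fun j => hTf.subset fun b hb => hb.1
  have hn1 : ∀ j, (((B1 j).ncard : ℕ) : ℝ) ≤ η * (C' * V) := by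
    intro j
    refine (bad1 h2 h3 g q j P hpr (δ1 j) (hδ11 j) (fun l hl => ?_) hPQ).trans ?_
    · refine hL1 j l (hpr l hl) ?_ q (hPdvd l hl)
      have h13 := (hP0 l (hPsub hl)).2
      have h14 := hL1le j
      omega
    · rw [hCV]
      exact mul_le_mul_of_nonneg_right (hpow1 j) (mul_pos hC'0 hV0).le
  have hn2 : ∀ j, (((B2 j).ncard : ℕ) : ℝ) ≤ η * (C' * V) := by
    intro j
    rw [← hCV]
    refine one_cond h2 h3 g q hs3 j {x ∈ RW (g j) q |
      ∀ l ∈ P, ¬ Irreducible (poly (fun i => (x i : ZMod l)))} (fun x hx => hx.1) η ?_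
    refine (bad2 h2 h3 (g j) q P hpr (δ2 j) (hδ21 j) (fun l hl => ?_) hPQ).trans ?_
    · refine hL2 j l (hpr l hl) ?_
      have h13 := (hP0 l (hPsub hl)).2
      have h14 := hL2le j
      omega
    · exact mul_le_mul_of_nonneg_right (hpow2 j) (hVV0 j)
  have hn3 : ∀ j, (((B3 j).ncard : ℕ) : ℝ) ≤ (2 * η) * (C' * V) := by
    intro j
    rw [← hCV]
    refine one_cond h2 h3 g q hs3 j (SS (g j) q) (fun x hx => hx.2.1) (2 * η) ?_
    exact (bad3 h10 (g j) q hqpos hs4).trans (mul_le_mul_of_nonneg_right hs2 (hVV0 j))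
  -- the union
  have hsub : {b ∈ Tuples g q | ¬ G q b} ⊆
      ((univ.biUnion fun j => (hB1f j).toFinset ∪ (hB2f j).toFinset ∪ (hB3f j).toFinset :
        Finset (∀ j, Fin (g j) → ℤ)) : Set (∀ j, Fin (g j) → ℤ)) := by
    rintro b ⟨hbT, hbG⟩
    by_contra hnot
    apply hbG
    have hnot' : ∀ j, b ∉ B1 j ∧ b ∉ B2 j ∧ b ∉ B3 j := by
      intro j
      refine ⟨fun h => hnot ?_, fun h => hnot ?_, fun h => hnot ?_⟩
      · exact mem_coe.2 (mem_biUnion.2 ⟨j, mem_univ j,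
          mem_union_left _ (mem_union_left _ ((hB1f j).mem_toFinset.2 h))⟩)
      · exact mem_coe.2 (mem_biUnion.2 ⟨j, mem_univ j,
          mem_union_left _ (mem_union_right _ ((hB2f j).mem_toFinset.2 h))⟩)
      · exact mem_coe.2 (mem_biUnion.2 ⟨j, mem_univ j,
          mem_union_right _ ((hB3f j).mem_toFinset.2 h)⟩)
    refine good_ofG h6 h7 h8 h9 h11 g hg q hqpos G h12 P
      (fun l hl => ⟨hpr l hl, ?_, hPdvd l hl⟩) b
      hbT (fun j => ?_) (fun j => ?_) (fun j => ?_)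
    · have := (hP0 l (hPsub hl)).2
      omega
    · by_contra hne
      push Not at hne
      exact (hnot' j).1 ⟨hbT, hne⟩
    · by_contra hne
      push Not at hne
      exact (hnot' j).2.1 ⟨hbT, hbT j, hne⟩
    · exact fun h => (hnot' j).2.2 ⟨hbT, h⟩
  have hle : {b ∈ Tuples g q | ¬ G q b}.ncard ≤
      ∑ j, ((B1 j).ncard + (B2 j).ncard + (B3 j).ncard) := by
    refine (Set.ncard_le_ncard hsub (Finset.finite_toSet _)).trans ?_
    rw [Set.ncard_coe_finset]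
    refine card_biUnion_le.trans (sum_le_sum fun j _ => ?_)
    refine (card_union_le _ _).trans ?_
    rw [Set.ncard_eq_toFinset_card _ (hB1f j), Set.ncard_eq_toFinset_card _ (hB2f j),
      Set.ncard_eq_toFinset_card _ (hB3f j)]
    exact Nat.add_le_add_right (card_union_le _ _) _
  have hle2 : (({b ∈ Tuples g q | ¬ G q b}.ncard : ℕ) : ℝ) ≤ r * (4 * η * (C' * V)) := by
    have h13 : (({b ∈ Tuples g q | ¬ G q b}.ncard : ℕ) : ℝ) ≤
        ∑ j, ((((B1 j).ncard : ℕ) : ℝ) + (((B2 j).ncard : ℕ) : ℝ) + (((B3 j).ncard : ℕ) : ℝ)) := by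
      exact_mod_cast hle
    refine h13.trans ?_
    calc ∑ j, ((((B1 j).ncard : ℕ) : ℝ) + (((B2 j).ncard : ℕ) : ℝ) + (((B3 j).ncard : ℕ) : ℝ))
        ≤ ∑ _j : Fin r, (4 * η * (C' * V)) := by
          refine sum_le_sum fun j _ => ?_
          linarith [hn1 j, hn2 j, hn3 j]
      _ = r * (4 * η * (C' * V)) := by
          rw [sum_const, card_univ, Fintype.card_fin, nsmul_eq_mul]
  refine hle2.trans ?_
  have h13 : (r : ℝ) * (4 * η * (C' * V)) ≤ ε * (cc * V) := by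
    have h14 : (4 : ℝ) * η * C' * (r + 1) = ε * cc := by
      rw [hη]
      field_simp
    have h15 : 0 ≤ 4 * η * (C' * V) := by positivity
    calc (r : ℝ) * (4 * η * (C' * V)) ≤ (r + 1) * (4 * η * (C' * V)) := by nlinarith
      _ = (4 * η * C' * (r + 1)) * V := by ring
      _ = ε * (cc * V) := by rw [h14]; ring
  exact h13.trans (mul_le_mul_of_nonneg_left hlow hε.le)


end Pool.Agent.OneRed.Rnd
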