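import Pool.Agent.OneRed.RndRel
import Pool.Agent.OneRed.TupCount
import Pool.Agent.AWP.LOWER
import Pool.Agent.AWP.UPPER
import Pool.Agent.AWP.CRTB
import Pool.Agent.AWP.PAT
import Pool.Agent.AWP.IRRD
import Pool.Agent.AWP.FROB
import Pool.Agent.AWP.TRCO
import Pool.Agent.AWP.ROIR
import Pool.Agent.AWP.ONE

set_option autoImplicit false

/-!
# Tuples of random Weil polynomials: no relations between the eigenvalues
-/

namespace Pool.Agent.OneRed.Rnd

open Polynomial Finset
open Pool.Agent.CMT (QBar)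
open Pool.Agent.AWP

/-- the eigenvalues of Frobenius of a product -/
abbrev TRoot {r : ℕ} {g : Fin r → ℕ} (q : ℕ) (b : ∀ j, Fin (g j) → ℤ) : Type :=
  Σ j, Root q (b j)

/-- flips, irreducibility, not supersingular -/
def Flippy {r : ℕ} {g : Fin r → ℕ} (q : ℕ) (b : ∀ j, Fin (g j) → ℤ) : Prop :=
  (∀ j, Irreducible (weil q (b j))) ∧
  (∀ (j : Fin r) (y : QBar), aeval y (poly (b j)) = 0 → HasFlip q b j y) ∧
  ∀ (j : Fin r) (α : QBar), aeval α (weil q (b j)) = 0 → ∀ N : ℕ, 0 < N →
    (α ^ 2) ^ N ≠ (q : QBar) ^ N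

open Pool.Agent.AWP.FIN_

variable {r : ℕ} {g : Fin r → ℕ} {q : ℕ} {b : ∀ j, Fin (g j) → ℤ}

/-- a root of one polynomial is not a root of another polynomial -/
theorem index_eq (hq : 0 < q) (h : Flippy q b) {s s' : TRoot q b} (hs : s'.2.1 = s.2.1) :
    s' = s := by
  obtain ⟨j, α⟩ := s
  obtain ⟨j', β⟩ := s'
  have hs' : β.1 = α.1 := hs
  by_cases hj : j' = j
  · subst hj
    rw [Subtype.ext hs']
  · exfalso
    have hα := root_ne_zero hq α.2
    obtain ⟨-, hf2, τ, hτ1, hτ2⟩ := h.2.1 j _ (root_poly hq α.2)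
    have e1 := hτ1 α.1 (quad hα)
    have hβp : aeval (β.1 + q / β.1) (poly (b j')) = 0 := root_poly hq β.2
    have e2 : τ β.1 = β.1 :=
      hτ2 j' (β.1 + q / β.1) hβp (Or.inl hj) β.1 (quad (root_ne_zero hq β.2))
    rw [hs'] at e2
    rw [e1] at e2
    apply hf2
    have h3 : (q : QBar) / α.1 = α.1 := by linear_combination e2
    have h4 : (q : QBar) = α.1 * α.1 := (div_eq_iff hα).1 h3
    rw [h3, h4]
    ring

/-- no relations between the eigenvalues of Frobenius of a product -/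
theorem noRel_tuple {F : Type*} [Field F] (hq : 0 < q) (h : Flippy q b) (ι : QBar →+* F)
    [Fintype (TRoot q b)] [DecidableEq (TRoot q b)] (i : ℕ) :
    NoRelation (fun s : TRoot q b => ι s.2.1) (q : F) i := by
  intro m _ w hw s s' hss
  obtain ⟨N, hN, hprod⟩ := hw
  have hq0 : (q : QBar) ≠ 0 := by exact_mod_cast hq.ne'
  have hR : (∏ k, (w k).2.1) ^ N = (q : QBar) ^ (m * N) := by
    apply ι.injective
    rw [map_pow, map_prod, map_pow, map_natCast]
    exact hprod
  have hss' : s.2.1 * s'.2.1 = (q : QBar) := by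
    apply ι.injective
    rw [map_mul, map_natCast]
    exact hss
  have hα₀ := root_ne_zero hq s.2.2
  have hs' : s'.2.1 = (q : QBar) / s.2.1 := by
    rw [eq_div_iff hα₀, mul_comm]
    exact hss'
  obtain ⟨hf1, hf2, τ, hτ1, hτ2⟩ := h.2.1 s.1 _ (root_poly hq s.2.2)
  have e0 : τ s.2.1 = q / s.2.1 := by
    rw [hτ1 _ (quad hα₀)]
    ring
  have e1 : τ (q / s.2.1) = s.2.1 := by
    rw [hτ1 _ (quad_conj hα₀)]
    ring
  have hne := ne_conj hα₀ hf2
  have hF : ∀ k ∈ (univ : Finset (Fin (2 * m))), (w k).2.1 / τ (w k).2.1 =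
      (if w k = s then s.2.1 ^ 2 / (q : QBar) else 1) *
      (if w k = s' then (s.2.1 ^ 2 / (q : QBar))⁻¹ else 1) := by
    intro k _
    by_cases h1 : w k = s
    · have h2 : w k ≠ s' := by
        rintro h2
        apply hne
        rw [← hs', ← h2, h1]
      rw [if_pos h1, if_neg h2, h1, e0, mul_one]
      field_simp
    · rw [if_neg h1, one_mul]
      by_cases h2 : w k = s'
      · rw [if_pos h2, h2, hs', e1]
        field_simp
      · rw [if_neg h2]
        have hx0 := root_ne_zero hq (w k).2.2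
        have h3 : τ (w k).2.1 = (w k).2.1 := by
          refine hτ2 (w k).1 ((w k).2.1 + q / (w k).2.1) (root_poly hq (w k).2.2) ?_ _ (quad hx0)
          by_contra h4
          push Not at h4
          obtain ⟨h5, h6⟩ := h4
          have h7 := quad (q := q) hx0
          rw [h6] at h7
          rcases quad_roots hα₀ h7 with h8 | h8
          · exact h1 (index_eq hq h h8)
          · exact h2 (index_eq hq h (h8.trans hs'.symm))
        rw [h3, div_self hx0]
  have h1 : (∏ k, ((w k).2.1 / τ (w k).2.1)) ^ N = 1 := by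
    rw [Finset.prod_div_distrib, ← map_prod, div_pow, ← map_pow, hR]
    have : τ ((q : QBar) ^ (m * N)) = (q : QBar) ^ (m * N) := by
      rw [map_pow, map_natCast]
    rw [this]
    exact div_self (pow_ne_zero _ hq0)
  rw [Finset.prod_congr rfl hF, Finset.prod_mul_distrib, ← Finset.prod_filter,
    ← Finset.prod_filter, Finset.prod_const, Finset.prod_const] at h1
  exact expo hq hα₀ N hN (h.2.2 s.1 s.2.1 s.2.2) _ _ h1

/-- the characteristic polynomial of Frobenius of a product -/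
theorem tuple_prod {F : Type*} [Field F] (h : Flippy q b) (ι : QBar →+* F)
    [inst : Fintype (TRoot q b)] :
    ∏ j, (weil q (b j)).map (Int.castRingHom F) = ∏ s : TRoot q b, (X - C (ι s.2.1)) := by
  classical
  have : ∀ j, Finite (Root q (b j)) := fun j => Rnd.finite_root (b j)
  let : ∀ j, Fintype (Root q (b j)) := fun j => Fintype.ofFinite _
  have h1 : ∏ s : TRoot q b, (X - C (ι s.2.1)) =
      ∏ j, ∏ s : Root q (b j), (X - C (ι s.1)) := by
    have e : inst = Sigma.instFintype := Subsingleton.elim _ _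
    rw [e]
    exact Fintype.prod_sigma (fun s : TRoot q b => (X - C (ι s.2.1)))
  rw [h1]
  exact Finset.prod_congr rfl fun j _ => weil_prod (h.1 j) ι

/-- almost all tuples, `q` to infinity -/
theorem tupStat (r : ℕ) (g : Fin r → ℕ) (hg : ∀ j, 1 ≤ g j) (ε : ℝ) (hε : 0 < ε) :
    ∃ q₀ : ℕ, ∀ p a q : ℕ, p.Prime → q = p ^ a → q₀ ≤ q →
      (Tuples g q).Finite ∧ 0 < (Tuples g q).ncard ∧
      (({b ∈ Tuples g q | ¬ Flippy q b}.ncard : ℕ) : ℝ) ≤ ε * ((Tuples g q).ncard : ℕ) :=
  tupG (p_LOWER p_UPPER) p_UPPER p_CRTB p_PAT p_IRRD p_FROB p_TRANS p_CONJ p_ROU p_ONE p_IRR r g hg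
    (fun q b => Flippy q b) (fun _ _ _ h1 h2 h3 => ⟨h1, h2, h3⟩) ε hε

end Pool.Agent.OneRed.Rnd
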