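import Pool.Agent.OneRed.LiftDefs
import Pool.Agent.OneRed.Main
import Pool.Agent.OneRed.RndStat
import Pool.Agent.OneRed.TupRel

set_option autoImplicit false

/-!
# One typical reduction: proofs
-/

namespace Pool.Agent.OneRed

open Polynomial NumberField
open Pool.Agent.CMT (QBar)
open Pool.Agent.AWP (poly IsRealWeil weil Root Tuples)
open Pool.Agent.RFC (IsWeil WBalanced)

open Rnd

/-- an embedding of the algebraic numbers -/
theorem exists_emb (F : Type*) [Field F] [IsAlgClosed F] [CharZero F] : Nonempty (QBar →+* F) := by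
  have : Algebra.IsAlgebraic ℚ QBar := Pool.Agent.AWP.ROIR_.isAlg
  exact ⟨((IsAlgClosed.lift : QBar →ₐ[ℚ] F) : QBar →+* F)⟩

/-- the abstract step: all relations are trivial -/
theorem all_of {F V Γ S : Type} [Field F] [CharZero F] [AddCommGroup V]
    [Module F V] [FiniteDimensional F V] [Group Γ] [Fintype S] [DecidableEq S] (D : Rep F V Γ)
    (φ : Γ) {q : ℕ} (hχ : (D.χ φ : F) = q) (α : S → F) (hα : Function.Injective α)
    (hP : ((D.ρ φ : V ≃ₗ[F] V) : V →ₗ[F] V).charpoly = ∏ s, (X - C (α s))) {i : ℕ}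
    (h : NoRelation α (q : F) i) {r j : ℕ} (hj : j ≤ i) {x : HH F V r}
    (hx : D.TateClass r j x) : D.ByDivisors r x := by
  obtain ⟨b, hb⟩ := eigbasis _ α hα hP
  exact (byDivisors_iff D r x).2
    (main_B D b α φ hb (by rw [hχ]; exact h) hj ((tateClass_iff D r j x).1 hx))

theorem allLifts_of {q g : ℕ} (hq : 0 < q) {b : Fin g → ℤ} (hirr : Irreducible (weil q b))
    (h : IndW q b) : AllLifts q (weil q b) := by
  classical
  intro F V Γ _ _ _ _ _ _ _ D hD r j x hx
  obtain ⟨φ, hχ, hP⟩ := hD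
  obtain ⟨ι⟩ := exists_emb F
  have : Finite (Root q b) := Rnd.finite_root b
  let := Fintype.ofFinite (Root q b)
  refine all_of D φ hχ (fun s : Root q b => ι s.1)
    (fun s s' hs => Subtype.ext (ι.injective hs)) ?_ (noRel_root hq h ι j) le_rfl hx
  rw [hP]
  exact weil_prod hirr ι

theorem allLifts_tuple {r : ℕ} {g : Fin r → ℕ} {q : ℕ} (hq : 0 < q) {b : ∀ j, Fin (g j) → ℤ}
    (h : Flippy q b) : AllLifts q (∏ j, weil q (b j)) := by
  classical
  intro F V Γ _ _ _ _ _ _ _ D hD n j x hx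
  obtain ⟨φ, hχ, hP⟩ := hD
  obtain ⟨ι⟩ := exists_emb F
  have : ∀ j, Finite (Root q (b j)) := fun j => Rnd.finite_root (b j)
  let := Fintype.ofFinite (TRoot q b)
  refine all_of D φ hχ (fun s : TRoot q b => ι s.2.1)
    (fun s s' hs => index_eq hq h (ι.injective hs)) ?_ (noRel_tuple hq h ι j) le_rfl hx
  rw [hP, Polynomial.map_prod]
  exact tuple_prod h ι

theorem allLiftsCM_of {g : ℕ} (hg : 5 ≤ g) {b : Fin g → ℤ} (h : Pool.Agent.RFC.GoodW2 b) :
    AllLiftsCM b := by
  classical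
  intro K _ _ _ hK hβ q π hq hπ hgen F V Γ _ _ _ _ _ _ _ D hD
  obtain ⟨φ, hχ, hP⟩ := hD
  obtain ⟨ι⟩ := exists_emb F
  obtain ⟨h1, h2⟩ := h K hK hβ q π hq hπ
  have hinj : Function.Injective (fun f : K →+* QBar => ι (f π)) := fun f f' hff =>
    eq_of_pow hgen one_pos (by rw [pow_one, pow_one]; exact ι.injective hff)
  have hP' : ((D.ρ φ : V ≃ₗ[F] V) : V →ₗ[F] V).charpoly =
      ∏ f : K →+* QBar, (X - C (ι (f π))) := by
    rw [hP]
    exact minpoly_prod hgen ι
  refine ⟨fun r j x hj hx => ?_, fun h3 r j x hx => ?_⟩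
  · refine all_of D φ hχ _ hinj hP' (i := j) ?_ le_rfl hx
    exact noRel_cm hq hπ hgen j (fun j' hj' n Δ => h2 n j' Δ (by omega)) ι
  · rcases h3 with h3 | h3
    · obtain ⟨bb, hb⟩ := eigbasis _ _ hinj hP'
      refine (byDivisors_iff D r x).2 (main_A D bb _ φ hb ?_
        (fun W hW hi hs => absurd (h3 W hi hs) hW) ((tateClass_iff D r j x).1 hx))
      rw [hχ]
      exact noRel_cm hq hπ hgen 2 (fun j' hj' n Δ => h2 n j' Δ (by omega)) ι
    · have h4 : Pool.Agent.RFC.WTateByDivisors q π := by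
        rcases h1 with h1 | ⟨δ, r, hr, hδ, hs, -⟩
        · exact h1
        · exact absurd ⟨δ, r, hr, hδ, hs⟩ h3
      refine all_of D φ hχ _ hinj hP' (i := j) ?_ le_rfl hx
      exact noRel_cm hq hπ hgen j (fun j' _ n Δ => h4 n j' Δ) ι

end Pool.Agent.OneRed
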