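import Pool.Agent.FQW.CELL
import Pool.Agent.FQW.Basic

set_option autoImplicit false

/-!
# Random Weil polynomials: the count for a general property
-/

namespace Pool.Agent.OneRed.Rnd

open Polynomial Finset
open Pool.Agent.CMT (QBar)
open Pool.Agent.AWP (poly IsRealWeil weil Root)
open Pool.Agent.FQW
open scoped BigOperators

open Pool.Agent.FQW.CELL_ in
/-- in one box almost all real Weil polynomials have a property which follows from the pattern -/
theorem tCELLG (hR : T_RED) (hPR : T_PRG) (hBX : T_BOX) (q : ℕ) (hq : 2 ≤ q)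
    (G : (g : ℕ) → (Fin g → ℤ) → Prop)
    (hG : ∀ (g p l : ℕ) [Fact l.Prime], 3 ≤ l → ¬ l ∣ q → p.Prime → 3 ≤ p → g < 2 * p → p < g →
      ∀ a : Fin g → ℤ, a ∈ P q g → Irreducible (HZ q a) →
        Pat q p ((HZ q a).map (Int.castRingHom (ZMod l))) →
          ∀ b : Fin g → ℤ, poly b = HZ q a → G g b) :
    ∃ γ c : ℝ, 0 < γ ∧ 0 < c ∧ ∃ g₀ : ℕ, ∀ g : ℕ, g₀ ≤ g →
      ∃ n : ℕ, n ≤ g ∧ g ≤ 2 * n ∧ ∃ B : Fin n → ℕ, (∀ j, 1 ≤ B j) ∧
      (∀ j : Fin n, (B j : ℝ) ≤ √(q : ℝ) ^ (g - (j : ℕ)) * Real.exp (-(γ * g))) ∧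
      ∀ d : Fin g → ℤ,
        (({a ∈ P q g | idx n B a = d ∧
          ¬ ∀ b : Fin g → ℤ, poly b = HZ q a → G g b}.ncard : ℕ) : ℝ) ≤
          Real.exp (-(c * g)) * ∏ j, (B j : ℝ) := by
  have hQ : 1 < √(q : ℝ) := by
    rw [Real.lt_sqrt (by norm_num)]
    have : (2 : ℝ) ≤ q := by exact_mod_cast hq
    linarith
  obtain ⟨lam, hlam⟩ : ∃ lam, lam = Real.log √(q : ℝ) := ⟨_, rfl⟩
  have hlam0 : 0 < lam := hlam ▸ Real.log_pos hQ
  have hQe : √(q : ℝ) = Real.exp lam := by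
    rw [hlam, Real.exp_log (by linarith)]
  obtain ⟨g₁, h₁⟩ := hR q hq (lam / 120) (by positivity) (by rw [← hlam]; linarith)
  obtain ⟨g₂, h₂⟩ := hPR
  obtain ⟨c, hc, g₃, h₃⟩ := hBX q hq (lam / 240) (by positivity)
  obtain ⟨g₄, h₄⟩ := large (lam / 240) (by positivity)
  obtain ⟨g₅, h₅⟩ := large (min (lam / 120) c / 2) (by positivity)
  have hmin : 0 < min (lam / 120) c := lt_min (by positivity) hc
  refine ⟨lam / 120, min (lam / 120) c / 2, by positivity, by positivity,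
    g₁ + g₂ + g₃ + g₄ + g₅ + 1800, fun g hg => ?_⟩
  obtain ⟨p, hp, hgp, hpg⟩ := h₂ g (by omega)
  have hn1 : 59 * g / 60 ≤ g := by omega
  have hn2 : g ≤ 2 * (59 * g / 60) := by omega
  have hpn : p + 4 ≤ 59 * g / 60 := by omega
  have he2 : 2 ≤ Real.exp (lam / 240 * g) := h₄ g (by omega)
  have he3 : 2 ≤ Real.exp (min (lam / 120) c / 2 * g) := h₅ g (by omega)
  -- the sides of the box
  obtain ⟨B, hB1, hBle, hhalf, hBc⟩ : ∃ B : Fin (59 * g / 60) → ℕ, (∀ j, 1 ≤ B j) ∧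
      (∀ j : Fin (59 * g / 60), (B j : ℝ) ≤
        √(q : ℝ) ^ (g - (j : ℕ)) * Real.exp (-(lam / 120 * g))) ∧
      (∀ j : Fin (59 * g / 60), √(q : ℝ) ^ (g - (j : ℕ)) * Real.exp (-(lam / 120 * g)) ≤
        2 * (B j : ℝ)) ∧
      ∀ j, Real.exp (lam / 240 * g) ≤ (B j : ℝ) := by
    have hE2 : Real.exp (lam / 120 * g) =
        Real.exp (lam / 240 * g) * Real.exp (lam / 240 * g) := by
      rw [← Real.exp_add]
      congr 1
      ring
    have hbig : 2 * Real.exp (lam / 240 * g) ≤ Real.exp (lam / 120 * g) := by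
      rw [hE2]
      exact mul_le_mul_of_nonneg_right he2 (Real.exp_pos _).le
    have hkey : ∀ j : Fin (59 * g / 60), Real.exp (lam / 120 * g) ≤
        √(q : ℝ) ^ (g - (j : ℕ)) * Real.exp (-(lam / 120 * g)) := by
      intro j
      rw [hQe, ← Real.exp_nat_mul, ← Real.exp_add]
      refine Real.exp_le_exp.2 ?_
      have hj := j.2
      have h1 : g ≤ 60 * (g - (j : ℕ)) := by omega
      have h2 : (g : ℝ) ≤ 60 * ((g - (j : ℕ) : ℕ) : ℝ) := by exact_mod_cast h1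
      have h3 : lam * (g : ℝ) ≤ lam * (60 * ((g - (j : ℕ) : ℕ) : ℝ)) :=
        mul_le_mul_of_nonneg_left h2 hlam0.le
      linarith
    have hone : ∀ j : Fin (59 * g / 60), 1 ≤ ⌊√(q : ℝ) ^ (g - (j : ℕ)) *
        Real.exp (-(lam / 120 * g))⌋₊ := by
      intro j
      refine Nat.le_floor ?_
      push_cast
      have h1 := hkey j
      linarith
    have hhalf : ∀ j : Fin (59 * g / 60), √(q : ℝ) ^ (g - (j : ℕ)) *
        Real.exp (-(lam / 120 * g)) ≤ 2 * ((⌊√(q : ℝ) ^ (g - (j : ℕ)) *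
          Real.exp (-(lam / 120 * g))⌋₊ : ℕ) : ℝ) := by
      intro j
      have h2 := Nat.lt_floor_add_one (√(q : ℝ) ^ (g - (j : ℕ)) *
        Real.exp (-(lam / 120 * g)))
      have h3 : (1 : ℝ) ≤ ((⌊√(q : ℝ) ^ (g - (j : ℕ)) *
          Real.exp (-(lam / 120 * g))⌋₊ : ℕ) : ℝ) := by exact_mod_cast hone j
      linarith
    refine ⟨fun j => ⌊√(q : ℝ) ^ (g - (j : ℕ)) * Real.exp (-(lam / 120 * g))⌋₊, hone,
      fun j => Nat.floor_le (by positivity), hhalf, fun j => ?_⟩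
    have h1 := hkey j
    have h2 := hhalf j
    linarith
  refine ⟨59 * g / 60, hn1, hn2, B, hB1, hBle, fun d => ?_⟩
  · have hfin := finite_box B hB1 d
    have hRd := h₁ g (by omega) (59 * g / 60) hn1 hn2 B hhalf d
    have hBd := h₃ g (by omega) (59 * g / 60) p hn1 hp (by omega) hgp hpn B hBc d
    have hsub : {a ∈ P q g | idx (59 * g / 60) B a = d ∧
        ¬ ∀ b : Fin g → ℤ, poly b = HZ q a → G g b} ⊆
        {a ∈ P q g | idx (59 * g / 60) B a = d ∧ ¬ Irreducible (HZ q a)} ∪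
        {a : Fin g → ℤ | idx (59 * g / 60) B a = d ∧ ¬ ∃ (l : ℕ) (_ : Fact l.Prime), 3 ≤ l ∧
          ¬ l ∣ q ∧ Pat q p ((HZ q a).map (Int.castRingHom (ZMod l)))} := by
      rintro a ⟨haP, had, hab⟩
      by_cases hirr : Irreducible (HZ q a)
      · right
        refine ⟨had, ?_⟩
        rintro ⟨l, hlf, hl3, hlq, hpat⟩
        refine hab fun b hb => ?_
        exact hG g p l hl3 hlq hp (by omega) hgp (by omega) a haP hirr hpat b hb
      · left
        exact ⟨haP, had, hirr⟩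
    have hcard : {a ∈ P q g | idx (59 * g / 60) B a = d ∧
        ¬ ∀ b : Fin g → ℤ, poly b = HZ q a → G g b}.ncard ≤
        {a ∈ P q g | idx (59 * g / 60) B a = d ∧ ¬ Irreducible (HZ q a)}.ncard +
        {a : Fin g → ℤ | idx (59 * g / 60) B a = d ∧ ¬ ∃ (l : ℕ) (_ : Fact l.Prime), 3 ≤ l ∧
          ¬ l ∣ q ∧ Pat q p ((HZ q a).map (Int.castRingHom (ZMod l)))}.ncard := by
      refine (Set.ncard_le_ncard hsub ?_).trans (Set.ncard_union_le _ _)
      refine hfin.subset ?_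
      rintro a (ha | ha)
      · exact ha.2.1
      · exact ha.1
    have hcard' : (({a ∈ P q g | idx (59 * g / 60) B a = d ∧
        ¬ ∀ b : Fin g → ℤ, poly b = HZ q a → G g b}.ncard : ℕ) : ℝ) ≤
        ({a ∈ P q g | idx (59 * g / 60) B a = d ∧ ¬ Irreducible (HZ q a)}.ncard : ℕ) +
        ({a : Fin g → ℤ | idx (59 * g / 60) B a = d ∧ ¬ ∃ (l : ℕ) (_ : Fact l.Prime), 3 ≤ l ∧
          ¬ l ∣ q ∧ Pat q p ((HZ q a).map (Int.castRingHom (ZMod l)))}.ncard : ℕ) := by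
      exact_mod_cast hcard
    have hprod : (0 : ℝ) ≤ ∏ j, (B j : ℝ) := Finset.prod_nonneg fun j _ => Nat.cast_nonneg _
    have hexp : Real.exp (-(lam / 120 * g)) + Real.exp (-(c * g)) ≤
        Real.exp (-(min (lam / 120) c / 2 * g)) := by
      have hg0 : (0 : ℝ) ≤ g := Nat.cast_nonneg g
      have e1 : Real.exp (-(lam / 120 * g)) ≤ Real.exp (-(min (lam / 120) c * g)) := by
        refine Real.exp_le_exp.2 (neg_le_neg ?_)
        exact mul_le_mul_of_nonneg_right (min_le_left _ _) hg0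
      have e2 : Real.exp (-(c * g)) ≤ Real.exp (-(min (lam / 120) c * g)) := by
        refine Real.exp_le_exp.2 (neg_le_neg ?_)
        exact mul_le_mul_of_nonneg_right (min_le_right _ _) hg0
      have e3 : Real.exp (-(min (lam / 120) c / 2 * g)) =
          Real.exp (min (lam / 120) c / 2 * g) * Real.exp (-(min (lam / 120) c * g)) := by
        rw [← Real.exp_add]
        congr 1
        ring
      have e4 : 2 * Real.exp (-(min (lam / 120) c * g)) ≤
          Real.exp (min (lam / 120) c / 2 * g) * Real.exp (-(min (lam / 120) c * g)) :=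
        mul_le_mul_of_nonneg_right he3 (Real.exp_pos _).le
      rw [e3]
      linarith
    calc (({a ∈ P q g | idx (59 * g / 60) B a = d ∧
        ¬ ∀ b : Fin g → ℤ, poly b = HZ q a → G g b}.ncard : ℕ) : ℝ)
        ≤ Real.exp (-(lam / 120 * g)) * ∏ j, (B j : ℝ) +
          Real.exp (-(c * g)) * ∏ j, (B j : ℝ) := hcard'.trans (add_le_add hRd hBd)
      _ = (Real.exp (-(lam / 120 * g)) + Real.exp (-(c * g))) * ∏ j, (B j : ℝ) := by ring
      _ ≤ _ := mul_le_mul_of_nonneg_right hexp hprod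


/-- one representative in every fibre: the counting of the bad elements -/
private theorem MAIN_reps {α β : Type} [Nonempty α] (E : Set α) (hE : E.Finite) (f : α → β) (M : ℝ)
    (hM : ∀ d, ({a ∈ E | f a = d}.ncard : ℝ) ≤ M) :
    ∃ R : Finset α, (∀ a ∈ R, a ∈ E) ∧ Set.InjOn f (R : Set α) ∧
      (E.ncard : ℝ) ≤ (R.card : ℝ) * M := by
  classical
  set F : Finset α := hE.toFinset with hF
  have hFE : ∀ a, a ∈ F ↔ a ∈ E := fun a => by rw [hF, Set.Finite.mem_toFinset]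
  have hsec : ∀ d ∈ F.image f, ∃ a ∈ F, f a = d := fun d hd => by
    obtain ⟨a, ha, rfl⟩ := Finset.mem_image.mp hd
    exact ⟨a, ha, rfl⟩
  choose! s hs using hsec
  refine ⟨(F.image f).image s, ?_, ?_, ?_⟩
  · intro a ha
    obtain ⟨d, hd, rfl⟩ := Finset.mem_image.mp ha
    exact (hFE _).mp (hs d hd).1
  · intro a ha b hb hab
    obtain ⟨d, hd, rfl⟩ := Finset.mem_image.mp (Finset.mem_coe.mp ha)
    obtain ⟨e, he, rfl⟩ := Finset.mem_image.mp (Finset.mem_coe.mp hb)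
    rw [(hs d hd).2, (hs e he).2] at hab
    rw [hab]
  · have hcard : ((F.image f).image s).card = (F.image f).card := by
      apply Finset.card_image_of_injOn
      intro d hd e he hde
      have h1 := (hs d (Finset.mem_coe.mp hd)).2
      have h2 := (hs e (Finset.mem_coe.mp he)).2
      rw [← h1, ← h2, hde]
    rw [hcard]
    have h1 : E.ncard = F.card := by
      rw [hF, Set.ncard_eq_toFinset_card E hE]
    have h2 : F.card = ∑ d ∈ F.image f, (F.filter fun a => f a = d).card :=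
      Finset.card_eq_sum_card_image f F
    rw [h1, h2]
    push_cast
    calc (∑ d ∈ F.image f, ((F.filter fun a => f a = d).card : ℝ))
        ≤ ∑ d ∈ F.image f, M := by
          apply Finset.sum_le_sum
          intro d _
          have h3 : {a ∈ E | f a = d}.ncard = (F.filter fun a => f a = d).card := by
            rw [← Set.ncard_coe_finset]
            congr 1
            ext a
            simp [hFE]
          have := hM d
          rw [h3] at this
          exact this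
      _ = ((F.image f).card : ℝ) * M := by
          rw [Finset.sum_const, nsmul_eq_mul]

/-- the numerical inequality -/
private theorem MAIN_num (c : ℝ) (hc : 0 < c) : ∃ g₀ : ℕ, ∀ g : ℕ, g₀ ≤ g →
    Real.exp (-(c / 2 * g)) + 5 * Real.exp (-(g : ℝ)) ≤ Real.exp (-(min c 1 / 4 * g)) := by
  have hm : 0 < min c 1 := lt_min hc one_pos
  have hmc : min c 1 ≤ c := min_le_left _ _
  have hm1 : min c 1 ≤ 1 := min_le_right _ _
  obtain ⟨g₀, hg₀⟩ := exists_nat_ge (4 / min c 1 * Real.log 6)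
  refine ⟨g₀, fun g hg => ?_⟩
  have hg' : 4 / min c 1 * Real.log 6 ≤ (g : ℝ) := hg₀.trans (by exact_mod_cast hg)
  have hlog : Real.log 6 ≤ min c 1 / 4 * g := by
    have h1 : min c 1 / 4 * (4 / min c 1 * Real.log 6) ≤ min c 1 / 4 * g :=
      mul_le_mul_of_nonneg_left hg' (by positivity)
    have h2 : min c 1 / 4 * (4 / min c 1 * Real.log 6) = Real.log 6 := by
      field_simp
    rwa [h2] at h1
  have hg0 : (0 : ℝ) ≤ g := Nat.cast_nonneg g
  have h6 : 6 * Real.exp (-(min c 1 / 2 * g)) ≤ Real.exp (-(min c 1 / 4 * g)) := by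
    have h3 : (6 : ℝ) = Real.exp (Real.log 6) := (Real.exp_log (by norm_num)).symm
    rw [h3, ← Real.exp_add]
    apply Real.exp_le_exp.mpr
    linarith
  have h4 : Real.exp (-(c / 2 * g)) ≤ Real.exp (-(min c 1 / 2 * g)) := by
    apply Real.exp_le_exp.mpr
    nlinarith
  have h5 : Real.exp (-(g : ℝ)) ≤ Real.exp (-(min c 1 / 2 * g)) := by
    apply Real.exp_le_exp.mpr
    nlinarith
  linarith

/-- the count, for a property which holds for almost all polynomials in each box -/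
theorem tMAING (hFINP : T_FINP) (hLOWER : T_LOWER) (hTYP : T_TYP) (hKP : T_KP) (hCV : T_CV)
    (q : ℕ) (hq : 2 ≤ q) (G : (g : ℕ) → (Fin g → ℤ) → Prop)
    (hCELL : ∃ γ c : ℝ, 0 < γ ∧ 0 < c ∧ ∃ g₀ : ℕ, ∀ g : ℕ, g₀ ≤ g →
      ∃ n : ℕ, n ≤ g ∧ g ≤ 2 * n ∧ ∃ B : Fin n → ℕ, (∀ j, 1 ≤ B j) ∧
      (∀ j : Fin n, (B j : ℝ) ≤ √(q : ℝ) ^ (g - (j : ℕ)) * Real.exp (-(γ * g))) ∧
      ∀ d : Fin g → ℤ,
        (({a ∈ P q g | idx n B a = d ∧
          ¬ ∀ b : Fin g → ℤ, poly b = HZ q a → G g b}.ncard : ℕ) : ℝ) ≤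
          Real.exp (-(c * g)) * ∏ j, (B j : ℝ)) :
    ∃ c : ℝ, 0 < c ∧ ∃ g₀ : ℕ, ∀ g : ℕ, g₀ ≤ g →
      {b : Fin g → ℤ | IsRealWeil q b}.Finite ∧ 0 < {b : Fin g → ℤ | IsRealWeil q b}.ncard ∧
      (({b : Fin g → ℤ | IsRealWeil q b ∧ ¬ G g b}.ncard : ℕ) : ℝ) ≤
        Real.exp (-(c * g)) * ({b : Fin g → ℤ | IsRealWeil q b}.ncard : ℕ) := by
  obtain ⟨γ, c, hγ, hc, g₁, hcell⟩ := hCELL
  obtain ⟨g₂, htyp⟩ := hTYP q hq
  obtain ⟨g₃, hkp⟩ := hKP q hq γ (c / 2) hγ (half_pos hc)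
  obtain ⟨g₄, hnum⟩ := MAIN_num c hc
  refine ⟨min c 1 / 4, by have := lt_min hc one_pos; positivity, max (max g₁ g₂) (max (max g₃ g₄) 1),
    fun g hg => ?_⟩
  have hg1 : g₁ ≤ g := le_trans (le_trans (le_max_left _ _) (le_max_left _ _)) hg
  have hg2 : g₂ ≤ g := le_trans (le_trans (le_max_right _ _) (le_max_left _ _)) hg
  have hg3 : g₃ ≤ g :=
    le_trans (le_trans (le_trans (le_max_left _ _) (le_max_left _ _)) (le_max_right _ _)) hg
  have hg4 : g₄ ≤ g :=
    le_trans (le_trans (le_trans (le_max_right _ _) (le_max_left _ _)) (le_max_right _ _)) hg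
  have hg5 : 1 ≤ g := le_trans (le_trans (le_max_right _ _) (le_max_right _ _)) hg
  obtain ⟨n, hn, hn2, B, hB1, hB2, hbox⟩ := hcell g hg1
  obtain ⟨φ, hφ⟩ := hCV q g
  have hPfin : (P q g).Finite := hFINP q g
  -- the set of real Weil polynomials is the image of `P`
  have himg : {b : Fin g → ℤ | IsRealWeil q b} = φ '' (P q g) := by
    ext b
    constructor
    · intro hb
      refine ⟨φ.symm b, ?_, φ.apply_symm_apply b⟩
      rw [(hφ (φ.symm b)).2, φ.apply_symm_apply]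
      exact hb
    · rintro ⟨a, ha, rfl⟩
      exact (hφ a).2.mp ha
  have hncard : {b : Fin g → ℤ | IsRealWeil q b}.ncard = (P q g).ncard := by
    rw [himg, Set.ncard_image_of_injective _ φ.injective]
  have hfin : {b : Fin g → ℤ | IsRealWeil q b}.Finite := by
    rw [himg]; exact hPfin.image _
  have hpos : 0 < (P q g).ncard := by
    by_contra h0
    have h0' : (P q g).ncard = 0 := by omega
    have := hLOWER q g hq hg5
    rw [h0', Nat.cast_zero, mul_zero] at this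
    have hq0 : (0 : ℝ) < √(q : ℝ) := Real.sqrt_pos.mpr (by exact_mod_cast (by omega : 0 < q))
    have h2 : 0 < √(q : ℝ) ^ (g * (g + 1) / 2) := pow_pos hq0 _
    linarith
  -- the bad ones
  set Bad : (Fin g → ℤ) → Prop := fun a => ¬ ∀ b : Fin g → ℤ, poly b = HZ q a → G g b with hBad
  have hbadimg : {b : Fin g → ℤ | IsRealWeil q b ∧ ¬ G g b} ⊆ φ '' {a ∈ P q g | Bad a} := by
    rintro b ⟨hb, hng⟩
    refine ⟨φ.symm b, ⟨?_, ?_⟩, φ.apply_symm_apply b⟩
    · rw [(hφ (φ.symm b)).2, φ.apply_symm_apply]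
      exact hb
    · intro hall
      apply hng
      have h1 := hall (φ (φ.symm b)) (hφ (φ.symm b)).1
      rwa [φ.apply_symm_apply] at h1
  have hbadfin : {a ∈ P q g | Bad a}.Finite := hPfin.subset (fun a ha => ha.1)
  have hbadcard : {b : Fin g → ℤ | IsRealWeil q b ∧ ¬ G g b}.ncard ≤
      {a ∈ P q g | Bad a}.ncard := by
    refine le_trans (Set.ncard_le_ncard hbadimg (hbadfin.image _)) ?_
    exact Set.ncard_image_le hbadfin
  -- decomposition
  set E1 : Set (Fin g → ℤ) := {a ∈ P q g | Bad a ∧ ∃ τ, Roots q a τ ∧ Typ q τ} with hE1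
  set E2 : Set (Fin g → ℤ) := {a ∈ P q g | ∃ τ, Roots q a τ ∧ ¬ Typ q τ} with hE2
  have hE1fin : E1.Finite := hPfin.subset (fun a ha => ha.1)
  have hE2fin : E2.Finite := hPfin.subset (fun a ha => ha.1)
  have hcover : {a ∈ P q g | Bad a} ⊆ E1 ∪ E2 := by
    rintro a ⟨ha, hb⟩
    obtain ⟨τ, hτ⟩ := ha
    by_cases ht : Typ q τ
    · exact Or.inl ⟨⟨τ, hτ⟩, hb, τ, hτ, ht⟩
    · exact Or.inr ⟨⟨τ, hτ⟩, τ, hτ, ht⟩
  have hcovcard : {a ∈ P q g | Bad a}.ncard ≤ E1.ncard + E2.ncard :=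
    le_trans (Set.ncard_le_ncard hcover (hE1fin.union hE2fin)) (Set.ncard_union_le _ _)
  -- E1
  have hE1card : (E1.ncard : ℝ) ≤ Real.exp (-(c / 2 * g)) * ((P q g).ncard : ℕ) := by
    set M : ℝ := Real.exp (-(c * g)) * ∏ j, (B j : ℝ) with hM
    obtain ⟨R, hR1, hR2, hR3⟩ := MAIN_reps E1 hE1fin (idx n B) M (by
      intro d
      refine le_trans ?_ (hbox d)
      have hsub : {a ∈ E1 | idx n B a = d} ⊆
          {a ∈ P q g | idx n B a = d ∧ ¬ ∀ b : Fin g → ℤ, poly b = HZ q a → G g b} := by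
        rintro a ⟨ha, hd⟩
        exact ⟨ha.1, hd, ha.2.1⟩
      exact_mod_cast Set.ncard_le_ncard hsub (hPfin.subset (fun a ha => ha.1)))
    have hk := hkp g hg3 n hn hn2 B hB1 hB2 R (fun a ha => (hR1 a ha).2.2) hR2
    have he : 0 < Real.exp (-(c * g)) := Real.exp_pos _
    calc (E1.ncard : ℝ) ≤ (R.card : ℝ) * M := hR3
      _ = Real.exp (-(c * g)) * ((R.card : ℝ) * ∏ j, (B j : ℝ)) := by rw [hM]; ring
      _ ≤ Real.exp (-(c * g)) * (Real.exp (c / 2 * g) * ((P q g).ncard : ℕ)) :=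
          mul_le_mul_of_nonneg_left hk he.le
      _ = Real.exp (-(c / 2 * g)) * ((P q g).ncard : ℕ) := by
          rw [← mul_assoc, ← Real.exp_add]
          congr 2
          ring
  have hE2card : (E2.ncard : ℝ) ≤ 5 * Real.exp (-(g : ℝ)) * ((P q g).ncard : ℕ) := htyp g hg2
  refine ⟨hfin, by rw [hncard]; exact hpos, ?_⟩
  rw [hncard]
  have hN : (0 : ℝ) ≤ ((P q g).ncard : ℕ) := Nat.cast_nonneg _
  calc (({b : Fin g → ℤ | IsRealWeil q b ∧ ¬ G g b}.ncard : ℕ) : ℝ)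
      ≤ ({a ∈ P q g | Bad a}.ncard : ℝ) := by exact_mod_cast hbadcard
    _ ≤ (E1.ncard : ℝ) + (E2.ncard : ℝ) := by exact_mod_cast hcovcard
    _ ≤ Real.exp (-(c / 2 * g)) * ((P q g).ncard : ℕ) +
          5 * Real.exp (-(g : ℝ)) * ((P q g).ncard : ℕ) := add_le_add hE1card hE2card
    _ = (Real.exp (-(c / 2 * g)) + 5 * Real.exp (-(g : ℝ))) * ((P q g).ncard : ℕ) := by ring
    _ ≤ Real.exp (-(min c 1 / 4 * g)) * ((P q g).ncard : ℕ) :=
        mul_le_mul_of_nonneg_right (hnum g hg4) hN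

end Pool.Agent.OneRed.Rnd
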