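import Pool.Agent.OneRed.Defs

/-!
# One reduction: a generic element of the Frobenius torus

Given the eigenvalues `α` of one Frobenius element without relations of length `≤ 4`, there is
`d : S → ℚ` which is killed by all relations and which separates the roots.
-/

namespace Pool.Agent.OneRed

open Module Finset

variable {F S : Type*} [Field F] [Fintype S] [DecidableEq S]

/-- the rational span of the relations -/
def relSpan (α : S → F) (q : F) (hα : ∀ s, α s ≠ 0) (hq : q ≠ 0) : Submodule ℚ (S → ℚ) where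
  carrier := {x | ∃ M : ℤ, M ≠ 0 ∧ ∃ n : S → ℤ, (∀ s, (M : ℚ) * x s = n s) ∧
    ∏ s, α s ^ (2 * n s) = q ^ (∑ s, n s)}
  add_mem' := by
    rintro x y ⟨M, hM, n, hn, h⟩ ⟨M', hM', n', hn', h'⟩
    refine ⟨M * M', mul_ne_zero hM hM', fun s => M' * n s + M * n' s, fun s => ?_, ?_⟩
    · push_cast
      rw [← hn, ← hn', Pi.add_apply]
      ring
    · have h1 : ∏ s, α s ^ (2 * (M' * n s + M * n' s)) =
          (∏ s, α s ^ (2 * n s)) ^ M' * (∏ s, α s ^ (2 * n' s)) ^ M := by
        rw [← Finset.prod_zpow, ← Finset.prod_zpow, ← Finset.prod_mul_distrib]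
        refine Finset.prod_congr rfl fun s _ => ?_
        rw [← zpow_mul, ← zpow_mul, ← zpow_add₀ (hα s)]
        congr 1
        ring
      rw [h1, h, h', ← zpow_mul, ← zpow_mul, ← zpow_add₀ hq]
      congr 1
      rw [Finset.sum_add_distrib, ← Finset.mul_sum, ← Finset.mul_sum]
      ring
  zero_mem' := ⟨1, one_ne_zero, 0, by simp, by simp⟩
  smul_mem' := by
    rintro r x ⟨M, hM, n, hn, h⟩
    refine ⟨r.den * M, mul_ne_zero (by exact_mod_cast r.den_ne_zero) hM,
      fun s => r.num * n s, fun s => ?_, ?_⟩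
    · push_cast
      rw [← hn, Pi.smul_apply, smul_eq_mul]
      have h1 : (r.den : ℚ) * r = r.num := by
        rw [mul_comm]
        exact Rat.mul_den_eq_num r
      rw [← h1]
      ring
    · have h1 : ∏ s, α s ^ (2 * (r.num * n s)) = (∏ s, α s ^ (2 * n s)) ^ r.num := by
        rw [← Finset.prod_zpow]
        refine Finset.prod_congr rfl fun s _ => ?_
        rw [← zpow_mul]
        congr 1
        ring
      rw [h1, h, ← zpow_mul]
      congr 1
      rw [← Finset.mul_sum]
      ring

theorem prod_word {J : Type*} [Fintype J] (α : S → F) (w : J → S) :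
    ∏ k, α (w k) = ∏ s, α s ^ (univ.filter (fun k => w k = s)).card := by
  rw [← Finset.prod_fiberwise (s := univ) (g := w) (f := fun k => α (w k))]
  refine Finset.prod_congr rfl fun s _ => ?_
  rw [Finset.prod_congr rfl (fun k hk => by rw [(Finset.mem_filter.1 hk).2]), Finset.prod_const]

theorem sum_word {J : Type*} [Fintype J] (d : S → ℚ) (w : J → S) :
    ∑ k, d (w k) = ∑ s, (univ.filter (fun k => w k = s)).card * d s := by
  rw [← Finset.sum_fiberwise (s := univ) (g := w) (f := fun k => d (w k))]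
  refine Finset.sum_congr rfl fun s _ => ?_
  rw [Finset.sum_congr rfl (fun k hk => by rw [(Finset.mem_filter.1 hk).2]), Finset.sum_const,
    nsmul_eq_mul]

theorem card_word {J : Type*} [Fintype J] (w : J → S) :
    ∑ s, (univ.filter (fun k => w k = s)).card = Fintype.card J := by
  rw [← Finset.card_eq_sum_card_fiberwise (fun _ _ => Finset.mem_univ _)]
  rfl

/-- the count vector of `w` is in the span of the relations iff `w` is a relation -/
theorem mem_relSpan {α : S → F} {q : F} {hα : ∀ s, α s ≠ 0} {hq : q ≠ 0} {j : ℕ}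
    {w : Fin (2 * j) → S} :
    (fun s => ((univ.filter (fun k => w k = s)).card : ℚ)) ∈ relSpan α q hα hq ↔
      Rel α q j w := by
  have hsum := card_word w
  rw [Fintype.card_fin] at hsum
  constructor
  · rintro ⟨M, hM, n, hn, h⟩
    have hn' : ∀ s, n s = M * (univ.filter (fun k => w k = s)).card := by
      intro s
      have h5 : (M : ℚ) * ((univ.filter (fun k => w k = s)).card : ℚ) = n s := hn s
      exact_mod_cast h5.symm
    have h1 : ∏ s, α s ^ (2 * n s) = (∏ k, α (w k)) ^ (2 * M) := by
      rw [prod_word, ← Finset.prod_zpow]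
      refine Finset.prod_congr rfl fun s _ => ?_
      rw [hn', ← zpow_natCast, ← zpow_mul]
      congr 1
      ring
    have h2 : ∑ s, n s = j * (2 * M) := by
      simp only [hn']
      rw [← Finset.mul_sum]
      have : (∑ s, ((univ.filter (fun k => w k = s)).card : ℤ)) = 2 * j := by exact_mod_cast hsum
      rw [this]
      ring
    rw [h1, h2] at h
    refine ⟨(2 * M).natAbs, by omega, ?_⟩
    rcases Int.natAbs_eq (2 * M) with h3 | h3
    · rw [h3] at h
      have h4 : (q : F) ^ ((j : ℤ) * ((2 * M).natAbs : ℤ)) = q ^ (j * (2 * M).natAbs) := by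
        rw [← zpow_natCast]
        push_cast
        rfl
      rw [h4, zpow_natCast] at h
      exact h
    · rw [h3] at h
      have h4 : (q : F) ^ ((j : ℤ) * (-((2 * M).natAbs : ℤ))) =
          (q ^ (j * (2 * M).natAbs))⁻¹ := by
        rw [← zpow_natCast, ← zpow_neg]
        push_cast
        congr 1
        ring
      rw [h4, zpow_neg, zpow_natCast] at h
      exact inv_injective h
  · rintro ⟨N, hN, h⟩
    refine ⟨N, by exact_mod_cast hN.ne', fun s => N * (univ.filter (fun k => w k = s)).card,
      fun s => by push_cast; rfl, ?_⟩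
    have h1 : ∏ s, α s ^ (2 * ((N : ℤ) * (univ.filter (fun k => w k = s)).card)) =
        ((∏ k, α (w k)) ^ N) ^ 2 := by
      rw [prod_word, ← Finset.prod_pow, ← Finset.prod_pow]
      refine Finset.prod_congr rfl fun s _ => ?_
      rw [← pow_mul, ← pow_mul, ← zpow_natCast]
      congr 1
      push_cast
      ring
    rw [h1, h, ← pow_mul, ← zpow_natCast]
    congr 1
    rw [← Finset.mul_sum]
    have : (∑ s, ((univ.filter (fun k => w k = s)).card : ℤ)) = 2 * j := by exact_mod_cast hsum
    rw [this]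
    push_cast
    ring

/-- a rational functional which kills the relations and does not kill a given non-relation -/
theorem exists_functional {α : S → F} {q : F} (hα : ∀ s, α s ≠ 0) (hq : q ≠ 0) {j : ℕ}
    {w : Fin (2 * j) → S} (hw : ¬ Rel α q j w) :
    ∃ d : S → ℚ, (∀ i (w' : Fin (2 * i) → S), Rel α q i w' → ∑ k, d (w' k) = 0) ∧
      ∑ k, d (w k) ≠ 0 := by
  have h1 := fun h => hw ((mem_relSpan (hα := hα) (hq := hq)).1 h)
  obtain ⟨f, hf, hp⟩ := Submodule.exists_le_ker_of_notMem h1
  have key : ∀ i (w' : Fin (2 * i) → S), ∑ k, f (Pi.single (w' k) 1) =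
      f (fun s => ((univ.filter (fun k => w' k = s)).card : ℚ)) := by
    intro i w'
    rw [← map_sum]
    congr 1
    funext s
    rw [Finset.sum_apply, Finset.card_filter]
    push_cast
    refine Finset.sum_congr rfl fun k _ => ?_
    rw [Pi.single_apply]
    simp only [eq_comm]
  refine ⟨fun s => f (Pi.single s 1), fun i w' hw' => ?_, ?_⟩
  · rw [key]
    exact hp ((mem_relSpan (hα := hα) (hq := hq)).2 hw')
  · rw [key]
    exact hf

/-- `NoRelation` in terms of `bar` -/
theorem balanced_of_rel {α : S → F} {q : F} {i : ℕ} (h : NoRelation α q i) {bar : S → S}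
    (hbar : ∀ s, α s * α (bar s) = q) {j : ℕ} (hj : j ≤ i) {w : Fin (2 * j) → S}
    (hw : Rel α q j w) (s : S) :
    (univ.filter (fun k => w k = s)).card = (univ.filter (fun k => w k = bar s)).card :=
  h j hj w hw s (bar s) (hbar s)

omit [Fintype S] in
theorem balanced_four {bar : S → S} (hbb : ∀ s, bar (bar s) = s) (hbn : ∀ s, bar s ≠ s)
    {u v u' v' : S} (huv : u ≠ v) (h : ∀ s, (univ.filter (fun k : Fin (2 * 2) =>
      (![u', bar v', bar u, v] : Fin 4 → S) k = s)).card = (univ.filter (fun k : Fin (2 * 2) =>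
        (![u', bar v', bar u, v] : Fin 4 → S) k = bar s)).card) :
    (u' = u ∧ v' = v) ∨ (u' = bar v ∧ v' = bar u) := by
  have hinj : ∀ {a b}, bar a = bar b ↔ a = b := fun {a b} =>
    ⟨fun e => by rw [← hbb a, e, hbb], fun e => by rw [e]⟩
  have hc : ∀ s, (univ.filter (fun k : Fin (2 * 2) =>
      (![u', bar v', bar u, v] : Fin 4 → S) k = s)).card =
      (if u' = s then 1 else 0) + (if bar v' = s then 1 else 0) + (if bar u = s then 1 else 0) +
        (if v = s then 1 else 0) := by
    intro s
    rw [Finset.card_filter]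
    exact Fin.sum_univ_four (fun k : Fin 4 => if (![u', bar v', bar u, v] : Fin 4 → S) k = s then
      1 else 0)
  simp only [hc, hinj] at h
  have hbn' : ∀ s, s ≠ bar s := fun s e => hbn s e.symm
  have h1 := h v
  rw [if_pos rfl, if_neg (hbn' v)] at h1
  have h2 : u' = bar v ∨ v' = v := by
    by_contra hcon
    rw [not_or] at hcon
    rw [if_neg hcon.1, if_neg hcon.2, if_neg huv] at h1
    omega
  have hsym : ∀ a b : S, (if bar a = b then (1 : ℕ) else 0) = if a = bar b then 1 else 0 := by
    intro a b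
    have : bar a = b ↔ a = bar b := ⟨fun e => by rw [← e, hbb], fun e => by rw [e, hbb]⟩
    simp only [this]
  rcases h2 with h2 | h2
  · right
    refine ⟨h2, ?_⟩
    by_contra hcon
    have h3 := h v'
    subst h2
    have h4 : bar u ≠ v' := fun e => hcon e.symm
    have h5 : (if bar v = bar v' then (1 : ℕ) else 0) = if v = v' then 1 else 0 := by
      simp only [hinj]
    rw [if_neg (hbn v'), if_neg h4, if_pos rfl, hsym v v', h5] at h3
    omega
  · left
    refine ⟨?_, h2⟩
    subst h2
    by_contra hcon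
    have h3 := h u'
    have h4 : u ≠ u' := fun e => hcon e.symm
    rw [if_pos rfl, if_neg (hbn' u'), if_neg h4, hsym v' u'] at h3
    omega

/-- the generic element of the Frobenius torus -/
theorem exists_generic {α : S → F} {q : F} (hα : ∀ s, α s ≠ 0) (hq : q ≠ 0) {bar : S → S}
    (hbb : ∀ s, bar (bar s) = s) (hbn : ∀ s, bar s ≠ s) (hbar : ∀ s, α s * α (bar s) = q)
    (hNR : NoRelation α q 2) :
    ∃ d : S → ℚ, (∀ j (w : Fin (2 * j) → S), Rel α q j w → ∑ k, d (w k) = 0) ∧
      ∀ u v u' v', u ≠ v → ¬ (u' = u ∧ v' = v) → ¬ (u' = bar v ∧ v' = bar u) →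
        d u' - d v' ≠ d u - d v := by
  let D₀ : Submodule ℚ (S → ℚ) :=
    { carrier := {d | ∀ j (w : Fin (2 * j) → S), Rel α q j w → ∑ k, d (w k) = 0}
      add_mem' := by
        intro x y hx hy j w hw
        simp only [Pi.add_apply, Finset.sum_add_distrib]
        rw [hx j w hw, hy j w hw, add_zero]
      zero_mem' := by
        intro j w hw
        simp
      smul_mem' := by
        intro a x hx j w hw
        simp only [Pi.smul_apply, ← Finset.smul_sum]
        rw [hx j w hw, smul_zero] }
  have hD : ∀ d ∈ D₀, ∀ s, d s + d (bar s) = 0 := by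
    intro d hd s
    have h1 := hd 1 ![s, bar s] ⟨1, one_pos, by
      have : ∏ k : Fin 2, α ((![s, bar s] : Fin 2 → S) k) = q := by
        rw [Fin.prod_univ_two]
        exact hbar s
      rw [pow_one]
      simpa using this⟩
    have h2 : ∑ k : Fin 2, d ((![s, bar s] : Fin 2 → S) k) = d s + d (bar s) := by
      rw [Fin.sum_univ_two]
      rfl
    rw [← h2]
    exact h1
  let K : S × S × S × S → Submodule ℚ D₀ := fun Q =>
    { carrier := {d | d.1 Q.1 - d.1 Q.2.1 - (d.1 Q.2.2.1 - d.1 Q.2.2.2) = 0}
      add_mem' := by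
        intro x y hx hy
        simp only [Set.mem_ofPred_eq, Submodule.coe_add, Pi.add_apply] at hx hy ⊢
        linear_combination hx + hy
      zero_mem' := by simp
      smul_mem' := by
        intro a x hx
        simp only [Set.mem_ofPred_eq, Submodule.coe_smul, Pi.smul_apply, smul_eq_mul] at hx ⊢
        linear_combination a * hx }
  have hK : ∀ Q (d : D₀), d ∈ K Q ↔
      d.1 Q.1 - d.1 Q.2.1 - (d.1 Q.2.2.1 - d.1 Q.2.2.2) = 0 := fun Q d => Iff.rfl
  let Bad : Finset (S × S × S × S) := univ.filter fun Q => Q.2.2.1 ≠ Q.2.2.2 ∧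
    ¬ (Q.1 = Q.2.2.1 ∧ Q.2.1 = Q.2.2.2) ∧ ¬ (Q.1 = bar Q.2.2.2 ∧ Q.2.1 = bar Q.2.2.1)
  classical
  have htop : ⊤ ∉ Bad.image K := by
    intro h
    obtain ⟨⟨u', v', u, v⟩, hQ, hQK⟩ := Finset.mem_image.1 h
    simp only [Bad, Finset.mem_filter, Finset.mem_univ, true_and] at hQ
    obtain ⟨huv, hn1, hn2⟩ := hQ
    have hnr : ¬ Rel α q 2 (![u', bar v', bar u, v] : Fin 4 → S) := by
      intro hr
      rcases balanced_four hbb hbn huv (balanced_of_rel hNR hbar le_rfl hr) with h | h
      · exact hn1 h
      · exact hn2 h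
    obtain ⟨d, hd, hdw⟩ := exists_functional hα hq hnr
    have h1 : (⟨d, hd⟩ : D₀) ∈ K (u', v', u, v) := by
      rw [hQK]
      trivial
    rw [hK] at h1
    apply hdw
    have h2 : ∑ k : Fin 4, d ((![u', bar v', bar u, v] : Fin 4 → S) k) =
        d u' + d (bar v') + d (bar u) + d v := by
      rw [Fin.sum_univ_four]
      rfl
    have h3 := hD d hd v'
    have h4 := hD d hd u
    simp only at h1
    refine Eq.trans h2 ?_
    linear_combination h1 + h3 + h4
  have hne := Subspace.biUnion_ne_univ_of_top_notMem htop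
  obtain ⟨d, hd⟩ := (Set.ne_univ_iff_exists_notMem _).1 hne
  simp only [Set.mem_iUnion, not_exists, SetLike.mem_coe] at hd
  refine ⟨d.1, d.2, fun u v u' v' huv hn1 hn2 he => ?_⟩
  refine hd (K (u', v', u, v)) (Finset.mem_image.2 ⟨(u', v', u, v), ?_, rfl⟩) ?_
  · simp only [Bad, Finset.mem_filter, Finset.mem_univ, true_and]
    exact ⟨huv, hn1, hn2⟩
  · rw [hK]
    simp only
    rw [he]
    ring

end Pool.Agent.OneRed
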