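import Pool.Agent.OneRed.Ann
import Pool.Agent.OneRed.Torus
import Pool.Agent.OneRed.Roots

/-!
# One reduction: the annihilator has a generic diagonal element; blocks
-/

namespace Pool.Agent.OneRed

open Module Function

variable {F V Γ S : Type*} [Field F] [AddCommGroup V] [Module F V] [Group Γ]
  {D : Rep F V Γ} {b : Basis S F V} {α : S → F} {φ : Γ}

/-- a derivation which kills a form on basis words kills the form -/
theorem sum_update_eq_zero {ι : Type*} [Fintype ι] [DecidableEq ι]
    (f : MultilinearMap F (fun _ : ι => V) F) (X : V →ₗ[F] V)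
    (h : ∀ w : ι → S, ∑ k, f (update (fun i => b (w i)) k (X (b (w k)))) = 0) (v : ι → V) :
    ∑ k, f (update v k (X (v k))) = 0 := by
  have e : ∀ v : ι → V, ∑ k, f (update v k (X (v k))) =
      (∑ k, f.compLinearMap (update (fun _ => LinearMap.id) k X)) v := by
    intro v
    rw [sum_apply]
    refine Finset.sum_congr rfl fun k _ => ?_
    rw [MultilinearMap.compLinearMap_apply]
    congr 1
    funext i
    by_cases hik : i = k
    · subst hik
      simp
    · simp [update_of_ne hik]
  rw [e]
  have : (∑ k, f.compLinearMap (update (fun _ => LinearMap.id) k X)) = 0 := by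
    refine Basis.ext_multilinear (fun _ => b) fun w => ?_
    rw [← e, h, zero_apply]
  rw [this, zero_apply]

theorem eigen_pow (hφ : ∀ s, D.ρ φ (b s) = α s • b s) (N : ℕ) (s : S) :
    D.ρ (φ ^ N) (b s) = α s ^ N • b s := by
  induction N with
  | zero => simp
  | succ N ih =>
    rw [pow_succ', map_mul, LinearEquiv.mul_apply, ih, map_smul, hφ, smul_smul, pow_succ]

theorem alpha_ne_zero (hφ : ∀ s, D.ρ φ (b s) = α s • b s) (s : S) : α s ≠ 0 := by
  intro h
  have h1 := hφ s
  rw [h, zero_smul] at h1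
  exact b.ne_zero s ((D.ρ φ).map_eq_zero_iff.1 h1)

theorem alpha_mul (hφ : ∀ s, D.ρ φ (b s) = α s • b s) {s s' : S} (h : D.ψ (b s) (b s') ≠ 0) :
    α s * α s' = (D.χ φ : F) := by
  have h1 := D.equivariant φ (b s) (b s')
  rw [hφ, hφ, map_smul, map_smul, LinearMap.smul_apply, smul_eq_mul, smul_eq_mul] at h1
  have h2 : (α s * α s' - (D.χ φ : F)) * D.ψ (b s) (b s') = 0 := by linear_combination h1
  rcases mul_eq_zero.1 h2 with h3 | h3
  · linear_combination h3
  · exact absurd h3 h

/-- the words in the support of a Tate form are relations -/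
theorem rel_of_ne_zero [Fintype S] (hφ : ∀ s, D.ρ φ (b s) = α s • b s) {j : ℕ}
    {f : MultilinearMap F (fun _ : Fin (2 * j) => V) F} (hf : D.TateForm j f)
    {w : Fin (2 * j) → S} (hw : f (fun k => b (w k)) ≠ 0) : Rel α (D.χ φ : F) j w := by
  obtain ⟨Γ', hΓ', h⟩ := hf
  obtain ⟨N, hN, hN', hφN⟩ := Subgroup.exists_pow_mem_of_index_ne_zero hΓ'.index_ne_zero φ
  refine ⟨N, hN, ?_⟩
  have h1 := h _ hφN (fun k => b (w k))
  simp only [eigen_pow hφ] at h1
  rw [MultilinearMap.map_smul_univ, smul_eq_mul] at h1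
  have h2 := mul_right_cancel₀ hw h1
  rw [Finset.prod_pow, map_pow, Units.val_pow_eq_pow_val, ← pow_mul, mul_comm N j] at h2
  exact h2

section

variable [Fintype S] [DecidableEq S]

theorem two_rel (hφ : ∀ s, D.ρ φ (b s) = α s • b s) {i : ℕ} (hi : 1 ≤ i)
    (h : NoRelation α (D.χ φ : F) i) {a t s s' : S} (h1 : α a * α t = (D.χ φ : F))
    (h2 : α s * α s' = (D.χ φ : F)) :
    (if a = s then 1 else 0) + (if t = s then 1 else 0) =
      (if a = s' then 1 else 0) + (if t = s' then (1 : ℕ) else 0) := by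
  have hc : ∀ s, (Finset.univ.filter (fun k : Fin (2 * 1) =>
      (![a, t] : Fin 2 → S) k = s)).card = (if a = s then 1 else 0) + (if t = s then 1 else 0) := by
    intro s
    rw [Finset.card_filter]
    exact Fin.sum_univ_two (fun k : Fin 2 => if (![a, t] : Fin 2 → S) k = s then 1 else 0)
  rw [← hc, ← hc]
  refine h 1 hi (![a, t] : Fin 2 → S) ⟨1, one_pos, ?_⟩ s s' h2
  have : ∏ k : Fin 2, α ((![a, t] : Fin 2 → S) k) = (D.χ φ : F) := by
    rw [Fin.prod_univ_two]
    exact h1
  have h3 : ((D.χ φ : F)) ^ (1 * 1) = (D.χ φ : F) := by rw [mul_one, pow_one]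
  rw [pow_one, h3]
  exact this

/-- the pairing of the letters -/
theorem exists_bar (hφ : ∀ s, D.ρ φ (b s) = α s • b s) {i : ℕ} (hi : 1 ≤ i)
    (h : NoRelation α (D.χ φ : F) i) :
    ∃ bar : S → S, (∀ s, bar (bar s) = s) ∧ (∀ s, bar s ≠ s) ∧
      (∀ s, α s * α (bar s) = (D.χ φ : F)) ∧
      (∀ s s', D.ψ (b s) (b s') ≠ 0 ↔ s' = bar s) ∧ (∀ a s, α a = α s → a = s) := by
  have h1 : ∀ s, ∃ s', D.ψ (b s) (b s') ≠ 0 := by
    intro s
    by_contra hcon
    push Not at hcon
    refine b.ne_zero s (D.nondeg _ fun y => ?_)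
    have : D.ψ (b s) = 0 := b.ext fun t => by rw [hcon t, LinearMap.zero_apply]
    rw [this, LinearMap.zero_apply]
  choose bar hbar using h1
  have hαb : ∀ s, α s * α (bar s) = (D.χ φ : F) := fun s => alpha_mul hφ (hbar s)
  have hbn : ∀ s, bar s ≠ s := by
    intro s e
    apply hbar s
    rw [e]
    exact D.alt _
  have hα0 := alpha_ne_zero hφ
  -- two letters with the same eigenvalue agree
  have hinj : ∀ a s, α a = α s → a = s := by
    intro a s has
    by_contra hne
    have hne' : s ≠ a := fun e => hne e.symm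
    have e1 : α a * α (bar s) = (D.χ φ : F) := by rw [has, hαb]
    by_cases hc : a = bar s
    · have e2 : α a * α a = (D.χ φ : F) := by
        rw [← hc] at e1
        exact e1
      have e3 : α a * α s = (D.χ φ : F) := by rw [← has, e2]
      have e4 := two_rel hφ hi h e2 e3
      rw [if_pos rfl, if_neg hne] at e4
      omega
    · have e4 := two_rel hφ hi h e1 (hαb a)
      have e5 := two_rel hφ hi h e1 (hαb s)
      rw [if_pos rfl, if_neg (Ne.symm (hbn a))] at e4
      rw [if_neg hne, if_neg (hbn s), if_neg hc, if_pos rfl] at e5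
      omega
  have hbb : ∀ s, bar (bar s) = s := by
    intro s
    apply hinj
    have e1 := hαb s
    have e2 := hαb (bar s)
    rw [← e1, mul_comm (α s)] at e2
    exact mul_left_cancel₀ (hα0 _) e2
  refine ⟨bar, hbb, hbn, hαb, fun s s' => ⟨fun hs => ?_, fun hs => by rw [hs]; exact hbar s⟩,
    hinj⟩
  apply hinj
  have e1 := alpha_mul hφ hs
  have e2 := hαb s
  rw [← e2] at e1
  exact mul_left_cancel₀ (hα0 _) e1

end

section

variable [Fintype S] [DecidableEq S] [CharZero F]

/-- the annihilator has a generic diagonal element -/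
theorem exists_lieData (hφ : ∀ s, D.ρ φ (b s) = α s • b s)
    (h : NoRelation α (D.χ φ : F) 2) {bar : S → S} (hbb : ∀ s, bar (bar s) = s)
    (hbn : ∀ s, bar s ≠ s) (hαb : ∀ s, α s * α (bar s) = (D.χ φ : F))
    (hψ : ∀ s s', D.ψ (b s) (b s') ≠ 0 ↔ s' = bar s) {P : ℕ → Prop} (hP : P 1) :
    ∃ d : S → F, LieData b bar (fun s => D.ψ (b s) (b (bar s))) d (D.Ann P) := by
  have hα0 := alpha_ne_zero hφ
  obtain ⟨d, hd1, hd2⟩ := exists_generic hα0 (Units.ne_zero _) hbb hbn hαb h
  have halt : ∀ x y, D.ψ x y = - D.ψ y x := by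
    intro x y
    have h1 := D.alt (x + y)
    simp only [map_add, LinearMap.add_apply, D.alt, zero_add, add_zero] at h1
    linear_combination h1
  refine ⟨fun s => (d s : F), ⟨hbb, hbn, fun s => (hψ s _).2 rfl, fun s => ?_,
    fun X hX Y hY => Rep.Ann_bracket hX hY, ?_, ?_, ?_⟩⟩
  · rw [hbb, halt]
  · refine ⟨b.constr F (fun s => (d s : F) • b s), ?_, fun s => by rw [Basis.constr_basis]⟩
    intro j hj f hf v
    refine sum_update_eq_zero (b := b) f _ (fun w => ?_) v
    have e1 : ∀ k, f (update (fun i => b (w i)) k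
        ((b.constr F (fun s => (d s : F) • b s)) (b (w k)))) =
          (d (w k) : F) * f (fun i => b (w i)) := by
      intro k
      rw [Basis.constr_basis, f.map_update_smul, smul_eq_mul]
      congr 2
      exact update_eq_self k (fun i => b (w i))
    simp only [e1]
    rw [← Finset.sum_mul]
    by_cases hw : f (fun i => b (w i)) = 0
    · rw [hw, mul_zero]
    · have h1 := hd1 j w (rel_of_ne_zero hφ hf hw)
      have h2 : (∑ k, (d (w k) : F)) = 0 := by exact_mod_cast congrArg (Rat.cast : ℚ → F) h1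
      rw [h2, zero_mul]
  · intro u v u' v' huv h1 h2 e
    apply hd2 u v u' v' huv h1 h2
    exact_mod_cast e
  · intro X hX u v
    have h1 := Rep.Ann_bil hP hX D.tateBil_psi (b v) (b (bar u))
    have hrow : ∀ s y, D.ψ (b s) y = b.repr y (bar s) * D.ψ (b s) (b (bar s)) := by
      intro s y
      have e2 : D.ψ (b s) = D.ψ (b s) (b (bar s)) • b.coord (bar s) := by
        refine b.ext fun t => ?_
        rw [LinearMap.smul_apply, Basis.coord_apply, Basis.repr_self, Finsupp.single_apply,
          smul_eq_mul]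
        by_cases ht : t = bar s
        · rw [if_pos ht, mul_one, ht]
        · rw [if_neg ht, mul_zero]
          by_contra h3
          exact ht ((hψ s t).1 h3)
      have e3 := LinearMap.congr_fun e2 y
      rw [LinearMap.smul_apply, Basis.coord_apply, smul_eq_mul] at e3
      rw [e3, mul_comm]
    have h2 := hrow (bar u) (X (b v))
    have h3 := hrow v (X (b (bar u)))
    have h4 := halt (b (bar u)) (b u)
    rw [hbb, h4] at h2
    rw [halt (X (b v)), h2, h3] at h1
    linear_combination h1

end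

end Pool.Agent.OneRed
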